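import Mathlib

set_option autoImplicit false

/-!
# Block LD (layered determinants), definitions (fixed, do not change). MP_f2148a_nt, architect helper10.

`R[X][X]` = polynomials in `x` (inner variable) and `y` (outer variable). A form of bidegree `(a, b)` in
`(s, t; u, v)` is the polynomial `f` of degree `≤ a` in `x`, `≤ b` in `y`, with
`ev a b f s t u v = ∑ f_(i,j) s^i t^(a-i) u^j v^(b-j)`.
-/

namespace Pool.Agent.Work.MP_f2148a_nt.M56.LD

open Polynomial

/-- the monomials of bidegree `(a, b)` -/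
abbrev E (a b : ℕ) : Type := Fin (a + 1) × Fin (b + 1)

section ring

variable {R : Type*} [CommRing R]

/-- the coefficients -/
noncomputable def cf {a b : ℕ} (f : R[X][X]) (e : E a b) : R := (f.coeff e.2).coeff e.1

/-- bounded bidegree -/
def Bd (a b : ℕ) (f : R[X][X]) : Prop := f.natDegree ≤ b ∧ ∀ j, (f.coeff j).natDegree ≤ a

/-- exact bidegree `(m, n)` -/
structure Ex (m n : ℕ) (g : R[X][X]) : Prop where
  bd : Bd m n g
  top : g.natDegree = n
  wid : ∃ j, (g.coeff j).natDegree = m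

/-- the monomial `s^i t^(a-i) u^j v^(b-j)` -/
def mon {S : Type*} [CommRing S] (a b : ℕ) (s t u v : S) (e : E a b) : S :=
  s ^ (e.1 : ℕ) * t ^ (a - e.1) * (u ^ (e.2 : ℕ) * v ^ (b - e.2))

/-- evaluation of a form of bidegree `(a, b)` -/
noncomputable def ev {S : Type*} [CommRing S] [Algebra R S] (a b : ℕ) (f : R[X][X]) (s t u v : S) : S :=
  ∑ e : E a b, algebraMap R S (cf f e) * mon a b s t u v e

/-- the matrix of the multiplication by `g` from bidegree `(a', b')` to bidegree `(a, b)` -/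
noncomputable def mulM (a b a' b' : ℕ) (g : R[X][X]) : Matrix (E a b) (E a' b') R :=
  fun e e' => cf (g * monomial (e'.2 : ℕ) (monomial (e'.1 : ℕ) 1)) e

end ring

/-- A real frame: `s = e₁ d₁`, `t = e₂ d₁ + e₃ d₂`, `u = k₁ ξ + k₂ υ`, `v = k₃ υ`. -/
structure Frame where
  /-- coefficients -/
  e₁ : ℝ
  /-- coefficients -/
  e₂ : ℝ
  /-- coefficients -/
  e₃ : ℝ
  /-- coefficients -/
  k₁ : ℝ
  /-- coefficients -/
  k₂ : ℝ
  /-- coefficients -/
  k₃ : ℝ

/-- the two determinants of a frame -/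
structure Frame.Uni (F : Frame) : Prop where
  he : F.e₁ * F.e₃ = 9
  hk : F.k₁ * F.k₃ = 1

/-- the real form of an integral form -/
noncomputable def rl (F : Frame) (a b : ℕ) (f : ℤ[X][X]) : ℝ[X][X] :=
  ev a b f (C (C F.e₁ * X)) (C (C F.e₂ * X + C F.e₃)) (C (C F.k₁) * X + C (C F.k₂)) (C (C F.k₃))

/-- the matrix of `rl` -/
noncomputable def rlM (F : Frame) (a b : ℕ) : Matrix (E a b) (E a b) ℝ :=
  fun e e' => cf (rl F a b (monomial (e'.2 : ℕ) (monomial (e'.1 : ℕ) 1))) e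

/-- the sum of the absolute values of the coefficients -/
noncomputable def ht {a b : ℕ} (c : E a b → ℝ) : ℝ := ∑ e, |c e|

/-- the dimension of the space of forms of bidegree `(a, b)` modulo the multiples of a form of bidegree `(m, n)` -/
def dq (m n a b : ℕ) : ℕ := (a + 1) * (b + 1) - (a - m + 1) * (b - n + 1)

/-- Integral points: `s, t, u, v`. -/
structure Pts (ι : Type*) where
  /-- coordinates -/
  s : ι → ℤ
  /-- coordinates -/
  t : ι → ℤ
  /-- coordinates -/
  u : ι → ℤ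
  /-- coordinates -/
  v : ι → ℤ

/-- Distinct `(s : t)`, `t ≠ 0`, `v ≠ 0`, on the curve `g = 0`. -/
structure Pts.On {ι : Type*} (P : Pts ι) (m n : ℕ) (g : ℤ[X][X]) : Prop where
  dst : ∀ i j, i ≠ j → P.s i * P.t j ≠ P.s j * P.t i
  t0 : ∀ i, P.t i ≠ 0
  v0 : ∀ i, P.v i ≠ 0
  zero : ∀ i, ev m n g (P.s i) (P.t i) (P.u i) (P.v i) = 0

/-- every determinant of values of integral forms at `D` of the points is divisible by `p ^ (D (D - 1) / 2)` -/
def Pts.Dv {ι : Type*} (P : Pts ι) (p : ℕ) : Prop :=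
  ∀ (D a b : ℕ) (w : Fin D → ℤ[X][X]) (φ : Fin D → ι),
    ((p ^ (D * (D - 1) / 2) : ℕ) : ℤ) ∣ Matrix.det (Matrix.of fun j k =>
      ev a b (w k) (P.s (φ j)) (P.t (φ j)) (P.u (φ j)) (P.v (φ j)))

/-- the derivative of a form at `(s, t; u, v)` in the direction `(a₁, a₂; a₃, a₄)` -/
noncomputable def dir (m n : ℕ) (g : ℤ[X][X]) (s t u v a₁ a₂ a₃ a₄ : ℤ) : ℤ :=
  (ev m n g (C s + C a₁ * X : ℤ[X]) (C t + C a₂ * X) (C u + C a₃ * X) (C v + C a₄ * X)).coeff 1

/-- an irreducible primitive form of exact bidegree `(m, n)`, `n ≥ 1` -/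
structure Irr (m n : ℕ) (g : ℤ[X][X]) : Prop where
  ex : Ex m n g
  n1 : 1 ≤ n
  irr : Irreducible g

/-- polynomials in the two small variables `r = X 0`, `γ = X 1` -/
abbrev A : Type := MvPolynomial (Fin 2) ℝ

/-- the weight of a monomial -/
noncomputable def wt (ρ γ : ℝ) (x : Fin 2 →₀ ℕ) : ℝ := ρ ^ x 0 * γ ^ x 1

/-- the weighted norm -/
noncomputable def nrm (ρ γ : ℝ) (F : A) : ℝ := ∑ x ∈ F.support, |MvPolynomial.coeff x F| * wt ρ γ x

/-- the form of bidegree `(a, b)` in the small variables: `d₁ = κ U₁`, `d₂ = κ U₂`, `ξ = θ`, `υ = θ r` -/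
noncomputable def psi (U₁ U₂ : A) (a b : ℕ) (f : ℝ[X][X]) : A := ev a b f U₁ U₂ 1 (MvPolynomial.X 0)

/-- evaluation at `(r, γ)` -/
noncomputable def at2 (r γ : ℝ) (F : A) : ℝ := MvPolynomial.eval ![r, γ] F

end Pool.Agent.Work.MP_f2148a_nt.M56.LD
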