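import Mathlib
import Pool.Agent.Work.MP_f2148a_nt.M56.LD.Defs

set_option autoImplicit false

/-!
# LD/Ev (helper10): evaluation of forms
-/

namespace Pool.Agent.Work.MP_f2148a_nt.M56.LD

open Polynomial

section gen

variable {R : Type*} [CommRing R] {S : Type*} [CommRing S] [Algebra R S] {S' : Type*} [CommRing S']
  [Algebra R S']

theorem cf_add {a b : ℕ} (f g : R[X][X]) (e : E a b) : cf (f + g) e = cf f e + cf g e := by
  unfold cf
  rw [coeff_add, coeff_add]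

theorem cf_C_mul {a b : ℕ} (c : R) (f : R[X][X]) (e : E a b) : cf (C (C c) * f) e = c * cf f e := by
  unfold cf
  rw [coeff_C_mul, coeff_C_mul]

theorem ev_add (a b : ℕ) (f g : R[X][X]) (s t u v : S) :
    ev a b (f + g) s t u v = ev a b f s t u v + ev a b g s t u v := by
  unfold ev
  simp only [cf_add, map_add, add_mul, Finset.sum_add_distrib]

theorem ev_C_mul (a b : ℕ) (c : R) (f : R[X][X]) (s t u v : S) :
    ev a b (C (C c) * f) s t u v = algebraMap R S c * ev a b f s t u v := by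
  unfold ev
  simp only [cf_C_mul, map_mul, Finset.mul_sum, mul_assoc]

theorem ev_zero (a b : ℕ) (s t u v : S) : ev a b (0 : R[X][X]) s t u v = 0 := by
  unfold ev cf
  simp

theorem ev_sum (a b : ℕ) {ι : Type*} (T : Finset ι) (f : ι → R[X][X]) (s t u v : S) :
    ev a b (∑ i ∈ T, f i) s t u v = ∑ i ∈ T, ev a b (f i) s t u v := by
  classical
  induction T using Finset.induction_on with
  | empty => rw [Finset.sum_empty, Finset.sum_empty, ev_zero]
  | insert i T hi ih => rw [Finset.sum_insert hi, Finset.sum_insert hi, ev_add, ih]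

theorem ev_mono {a b i j : ℕ} (hi : i ≤ a) (hj : j ≤ b) (c : R) (s t u v : S) :
    ev a b (monomial j (monomial i c)) s t u v =
      algebraMap R S c * (s ^ i * t ^ (a - i) * (u ^ j * v ^ (b - j))) := by
  unfold ev
  rw [Finset.sum_eq_single ((⟨i, by omega⟩, ⟨j, by omega⟩) : E a b)]
  · unfold cf mon
    simp
  · intro e _ he
    have h : cf (monomial j (monomial i c)) e = 0 := by
      unfold cf
      rw [coeff_monomial]
      split_ifs with h1
      · rw [coeff_monomial, if_neg]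
        intro h2
        exact he (Prod.ext (Fin.ext h2.symm) (Fin.ext h1.symm))
      · exact coeff_zero _
    rw [h, map_zero, zero_mul]
  · intro h
    exact absurd (Finset.mem_univ _) h

theorem ev_monomial {a b : ℕ} (e : E a b) (s t u v : S) :
    ev a b (monomial (e.2 : ℕ) (monomial (e.1 : ℕ) (1 : R))) s t u v = mon a b s t u v e := by
  rw [ev_mono (by omega) (by omega), map_one, one_mul]
  rfl

theorem eq_sum {a b : ℕ} {f : R[X][X]} (hf : Bd a b f) :
    f = ∑ e : E a b, monomial (e.2 : ℕ) (monomial (e.1 : ℕ) (cf f e)) := by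
  rw [Fintype.sum_prod_type_right]
  conv_lhs => rw [f.as_sum_range' (b + 1) (by have := hf.1; omega)]
  rw [Finset.sum_range]
  refine Finset.sum_congr rfl fun j _ => ?_
  refine Eq.trans ?_ (map_sum (Polynomial.monomial (j : ℕ))
    (fun i : Fin (a + 1) => Polynomial.monomial (i : ℕ) (cf f ((i, j) : E a b))) Finset.univ)
  congr 1
  conv_lhs => rw [(f.coeff j).as_sum_range' (a + 1) (by have := hf.2 j; omega)]
  rw [Finset.sum_range]
  rfl

theorem Bd.add {a b : ℕ} {f g : R[X][X]} (hf : Bd a b f) (hg : Bd a b g) : Bd a b (f + g) := by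
  refine ⟨(natDegree_add_le _ _).trans (max_le hf.1 hg.1), fun j => ?_⟩
  rw [coeff_add]
  exact (natDegree_add_le _ _).trans (max_le (hf.2 j) (hg.2 j))

theorem Bd.zero {a b : ℕ} : Bd a b (0 : R[X][X]) := ⟨by simp, fun j => by simp⟩

theorem Bd.sum {a b : ℕ} {ι : Type*} (s : Finset ι) (f : ι → R[X][X]) (h : ∀ i ∈ s, Bd a b (f i)) :
    Bd a b (∑ i ∈ s, f i) := by
  classical
  induction s using Finset.induction_on with
  | empty =>
    rw [Finset.sum_empty]
    exact Bd.zero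
  | insert i s hi ih =>
    rw [Finset.sum_insert hi]
    exact (h i (Finset.mem_insert_self _ _)).add (ih fun j hj => h j (Finset.mem_insert_of_mem hj))

theorem Bd.mono {a b i j : ℕ} (hi : i ≤ a) (hj : j ≤ b) (c : R) :
    Bd a b (Polynomial.monomial j (Polynomial.monomial i c)) := by
  refine ⟨(natDegree_monomial_le _).trans hj, fun k => ?_⟩
  rw [coeff_monomial]
  split_ifs with h
  · exact (natDegree_monomial_le _).trans hi
  · simp

theorem Bd.monomial {a b : ℕ} (e : E a b) (c : R) :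
    Bd a b (Polynomial.monomial (e.2 : ℕ) (Polynomial.monomial (e.1 : ℕ) c)) :=
  Bd.mono (by omega) (by omega) c

theorem Bd.mul {m n a b : ℕ} {g f : R[X][X]} (hg : Bd m n g) (hf : Bd a b f) :
    Bd (m + a) (n + b) (g * f) := by
  refine ⟨natDegree_mul_le.trans (Nat.add_le_add hg.1 hf.1), fun j => ?_⟩
  rw [coeff_mul]
  refine natDegree_sum_le_of_forall_le _ _ fun x _ => ?_
  exact natDegree_mul_le.trans (Nat.add_le_add (hg.2 _) (hf.2 _))

theorem Bd.C_mul {a b : ℕ} {f : R[X][X]} (hf : Bd a b f) (c : R) : Bd a b (C (C c) * f) := by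
  refine ⟨(natDegree_C_mul_le _ _).trans hf.1, fun j => ?_⟩
  rw [coeff_C_mul]
  exact (natDegree_C_mul_le _ _).trans (hf.2 j)

theorem Bd.le {a b a' b' : ℕ} {f : R[X][X]} (hf : Bd a b f) (ha : a ≤ a') (hb : b ≤ b') :
    Bd a' b' f := ⟨hf.1.trans hb, fun j => (hf.2 j).trans ha⟩

theorem ev_mul {m n a b : ℕ} {g f : R[X][X]} (hg : Bd m n g) (hf : Bd a b f) (s t u v : S) :
    ev (m + a) (n + b) (g * f) s t u v = ev m n g s t u v * ev a b f s t u v := by
  conv_lhs => rw [eq_sum hg, eq_sum hf, Finset.sum_mul, ev_sum]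
  conv_rhs => unfold ev
  rw [Finset.sum_mul]
  refine Finset.sum_congr rfl fun x _ => ?_
  rw [Finset.mul_sum, ev_sum, Finset.mul_sum]
  refine Finset.sum_congr rfl fun y _ => ?_
  rw [monomial_mul_monomial, monomial_mul_monomial]
  have h1 := x.1.2
  have h2 := x.2.2
  have h3 := y.1.2
  have h4 := y.2.2
  rw [ev_mono (a := m + a) (b := n + b) (i := (x.1 : ℕ) + y.1) (j := (x.2 : ℕ) + y.2)
    (by omega) (by omega) (cf g x * cf f y) s t u v]
  unfold mon
  have e1 : m + a - ((x.1 : ℕ) + y.1) = (m - x.1) + (a - y.1) := by omega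
  have e2 : n + b - ((x.2 : ℕ) + y.2) = (n - x.2) + (b - y.2) := by omega
  rw [e1, e2, map_mul]
  ring

/-- homogeneity of the monomials -/
theorem mon_hom (a b : ℕ) (s t u v κ θ : S) (e : E a b) :
    mon a b (κ * s) (κ * t) (θ * u) (θ * v) e = κ ^ a * θ ^ b * mon a b s t u v e := by
  unfold mon
  have h1 := e.1.2
  have h2 := e.2.2
  have e1 : κ ^ a = κ ^ (e.1 : ℕ) * κ ^ (a - e.1) := by
    rw [← pow_add]
    congr 1
    omega
  have e2 : θ ^ b = θ ^ (e.2 : ℕ) * θ ^ (b - e.2) := by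
    rw [← pow_add]
    congr 1
    omega
  rw [e1, e2, mul_pow, mul_pow, mul_pow, mul_pow]
  ring

/-- homogeneity -/
theorem ev_hom (a b : ℕ) (f : R[X][X]) (s t u v κ θ : S) :
    ev a b f (κ * s) (κ * t) (θ * u) (θ * v) = κ ^ a * θ ^ b * ev a b f s t u v := by
  unfold ev
  rw [Finset.mul_sum]
  refine Finset.sum_congr rfl fun e _ => ?_
  rw [mon_hom]
  ring

theorem mon_map {T T' : Type*} [CommRing T] [CommRing T'] (φ : T →+* T') (a b : ℕ) (s t u v : T)
    (e : E a b) : mon a b (φ s) (φ t) (φ u) (φ v) e = φ (mon a b s t u v e) := by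
  unfold mon
  simp only [map_mul, map_pow]

theorem ev_map (φ : S →ₐ[R] S') (a b : ℕ) (f : R[X][X]) (s t u v : S) :
    ev a b f (φ s) (φ t) (φ u) (φ v) = φ (ev a b f s t u v) := by
  unfold ev
  rw [map_sum]
  refine Finset.sum_congr rfl fun e _ => ?_
  rw [map_mul, AlgHom.commutes]
  congr 1
  exact mon_map (φ : S →+* S') a b s t u v e

/-- the affine value -/
theorem ev_div {k : Type*} [Field k] [Algebra R k] {a b : ℕ} {f : R[X][X]} (hf : Bd a b f)
    (s t u v : k) (ht : t ≠ 0) (hv : v ≠ 0) : ev a b f s t u v =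
      t ^ a * v ^ b * (f.map (eval₂RingHom (algebraMap R k) (s / t))).eval (u / v) := by
  conv_rhs => rw [eq_sum hf]
  rw [Polynomial.map_sum, eval_finsetSum, Finset.mul_sum]
  unfold ev
  refine Finset.sum_congr rfl fun e _ => ?_
  have h1 := e.1.2
  have h2 := e.2.2
  rw [map_monomial, eval_monomial, coe_eval₂RingHom, eval₂_monomial]
  unfold mon
  have e1 : t ^ a = t ^ (e.1 : ℕ) * t ^ (a - e.1) := by
    rw [← pow_add]
    congr 1
    omega
  have e2 : v ^ b = v ^ (e.2 : ℕ) * v ^ (b - e.2) := by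
    rw [← pow_add]
    congr 1
    omega
  rw [e1, e2, div_pow, div_pow]
  field_simp

end gen

section frame

variable (F : Frame)

theorem rl_add (a b : ℕ) (f g : ℤ[X][X]) : rl F a b (f + g) = rl F a b f + rl F a b g :=
  ev_add _ _ _ _ _ _ _ _

theorem rl_mul {m n a b : ℕ} {g f : ℤ[X][X]} (hg : Bd m n g) (hf : Bd a b f) :
    rl F (m + a) (n + b) (g * f) = rl F m n g * rl F a b f := ev_mul hg hf _ _ _ _

private theorem bd_lin {c₁ c₂ : ℝ[X]} (h1 : c₁.natDegree ≤ 0) (h2 : c₂.natDegree ≤ 0) (k : ℕ) :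
    Bd 0 k ((C c₁ * X + C c₂ : ℝ[X][X]) ^ k) := by
  induction k with
  | zero =>
    rw [pow_zero]
    refine ⟨by simp, fun j => ?_⟩
    rw [coeff_one]
    split_ifs <;> simp
  | succ k ih =>
    rw [pow_succ]
    refine (ih.mul (a := 0) (b := 1) ?_).le (by omega) (by omega)
    refine ⟨by compute_degree, fun j => ?_⟩
    rw [coeff_add, coeff_C_mul, coeff_X, coeff_C]
    refine (natDegree_add_le _ _).trans (max_le ?_ ?_)
    · split_ifs
      · rwa [mul_one]
      · simp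
    · split_ifs
      · exact h2
      · simp

private theorem bd_pow {a b : ℕ} {f : ℝ[X][X]} (hf : Bd a b f) (k : ℕ) : Bd (a * k) (b * k) (f ^ k) := by
  induction k with
  | zero =>
    rw [pow_zero]
    refine ⟨by simp, fun j => ?_⟩
    rw [coeff_one]
    split_ifs <;> simp
  | succ k ih =>
    rw [pow_succ]
    exact (ih.mul hf).le (by rw [Nat.mul_succ]) (by rw [Nat.mul_succ])

private theorem bd_C {c : ℝ[X]} (h : c.natDegree ≤ 1) : Bd 1 0 (C c : ℝ[X][X]) := by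
  refine ⟨by simp, fun j => ?_⟩
  rw [coeff_C]
  split_ifs
  · exact h
  · simp

private theorem bd_Y (c₁ c₂ : ℝ) : Bd 0 1 (C (C c₁) * X + C (C c₂) : ℝ[X][X]) := by
  refine ⟨by compute_degree, fun j => ?_⟩
  rw [coeff_add, coeff_C_mul, coeff_X, coeff_C]
  refine (natDegree_add_le _ _).trans (max_le ?_ ?_)
  · split_ifs <;> simp
  · split_ifs <;> simp

private theorem bd_K (c : ℝ) : Bd 0 1 (C (C c) : ℝ[X][X]) := by
  refine ⟨by simp, fun j => ?_⟩
  rw [coeff_C]
  split_ifs <;> simp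

private theorem bd_mon {a b : ℕ} (e : E a b) : Bd a b (mon a b (C (C F.e₁ * X) : ℝ[X][X])
    (C (C F.e₂ * X + C F.e₃)) (C (C F.k₁) * X + C (C F.k₂)) (C (C F.k₃)) e) := by
  have h1 := e.1.2
  have h2 := e.2.2
  have hs : Bd 1 0 (C (C F.e₁ * X) : ℝ[X][X]) := bd_C (by compute_degree)
  have ht : Bd 1 0 (C (C F.e₂ * X + C F.e₃) : ℝ[X][X]) := bd_C (by compute_degree)
  have e1 := ((bd_pow hs e.1).mul (bd_pow ht (a - e.1)))
  have e2 := ((bd_pow (bd_Y F.k₁ F.k₂) e.2).mul (bd_pow (bd_K F.k₃) (b - e.2)))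
  exact (e1.mul e2).le (by omega) (by omega)

theorem Bd_rl (a b : ℕ) (f : ℤ[X][X]) : Bd a b (rl F a b f) := by
  unfold rl ev
  refine Bd.sum _ _ fun e _ => ?_
  have h := (bd_mon F e).C_mul ((cf f e : ℤ) : ℝ)
  have e1 : algebraMap ℤ ℝ[X][X] (cf f e) = C (C ((cf f e : ℤ) : ℝ)) := by
    simp
  rw [e1]
  exact h

/-- evaluation of the dehomogenized monomials -/
private theorem ev_mon_rl {a b : ℕ} (e : E a b) (d₁ d₂ ξ υ : ℝ) :
    ev a b (mon a b (C (C F.e₁ * X) : ℝ[X][X]) (C (C F.e₂ * X + C F.e₃))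
      (C (C F.k₁) * X + C (C F.k₂)) (C (C F.k₃)) e) d₁ d₂ ξ υ =
    mon a b (F.e₁ * d₁) (F.e₂ * d₁ + F.e₃ * d₂) (F.k₁ * ξ + F.k₂ * υ) (F.k₃ * υ) e := by
  have h1 := e.1.2
  have h2 := e.2.2
  have hs : Bd 1 0 (C (C F.e₁ * X) : ℝ[X][X]) := bd_C (by compute_degree)
  have ht : Bd 1 0 (C (C F.e₂ * X + C F.e₃) : ℝ[X][X]) := bd_C (by compute_degree)
  have hpow : ∀ {a b : ℕ} {f : ℝ[X][X]} (hf : Bd a b f) (k : ℕ),
      ev (a * k) (b * k) (f ^ k) d₁ d₂ ξ υ = ev a b f d₁ d₂ ξ υ ^ k := by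
    intro a b f hf k
    induction k with
    | zero =>
      rw [pow_zero, pow_zero]
      have h := ev_mono (R := ℝ) (S := ℝ) (a := a * 0) (b := b * 0) (i := 0) (j := 0) (by omega)
        (by omega) 1 d₁ d₂ ξ υ
      simpa using h
    | succ k ih =>
      rw [pow_succ, pow_succ, ← ih, ← ev_mul (bd_pow hf k) hf]
      rfl
  have es : ev 1 0 (C (C F.e₁ * X) : ℝ[X][X]) d₁ d₂ ξ υ = F.e₁ * d₁ := by
    have h := ev_mono (R := ℝ) (S := ℝ) (a := 1) (b := 0) (i := 1) (j := 0) (by omega) (by omega)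
      F.e₁ d₁ d₂ ξ υ
    rw [← C_mul_X_pow_eq_monomial (n := 1), monomial_zero_left, pow_one] at h
    rw [h]
    simp
  have et : ev 1 0 (C (C F.e₂ * X + C F.e₃) : ℝ[X][X]) d₁ d₂ ξ υ = F.e₂ * d₁ + F.e₃ * d₂ := by
    have h := ev_mono (R := ℝ) (S := ℝ) (a := 1) (b := 0) (i := 1) (j := 0) (by omega) (by omega)
      F.e₂ d₁ d₂ ξ υ
    have h' := ev_mono (R := ℝ) (S := ℝ) (a := 1) (b := 0) (i := 0) (j := 0) (by omega) (by omega)
      F.e₃ d₁ d₂ ξ υ
    rw [← C_mul_X_pow_eq_monomial (n := 1), monomial_zero_left, pow_one] at h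
    rw [monomial_zero_left, monomial_zero_left] at h'
    rw [C_add, ev_add, h, h']
    simp
  have eu : ev 0 1 (C (C F.k₁) * X + C (C F.k₂) : ℝ[X][X]) d₁ d₂ ξ υ =
      F.k₁ * ξ + F.k₂ * υ := by
    have h := ev_mono (R := ℝ) (S := ℝ) (a := 0) (b := 1) (i := 0) (j := 1) (by omega) (by omega)
      F.k₁ d₁ d₂ ξ υ
    have h' := ev_mono (R := ℝ) (S := ℝ) (a := 0) (b := 1) (i := 0) (j := 0) (by omega) (by omega)
      F.k₂ d₁ d₂ ξ υ
    rw [monomial_zero_left, ← C_mul_X_pow_eq_monomial (n := 1), pow_one] at h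
    rw [monomial_zero_left, monomial_zero_left] at h'
    rw [ev_add, h, h']
    simp
  have ev' : ev 0 1 (C (C F.k₃) : ℝ[X][X]) d₁ d₂ ξ υ = F.k₃ * υ := by
    have h' := ev_mono (R := ℝ) (S := ℝ) (a := 0) (b := 1) (i := 0) (j := 0) (by omega) (by omega)
      F.k₃ d₁ d₂ ξ υ
    rw [monomial_zero_left, monomial_zero_left] at h'
    rw [h']
    simp
  have b1 := bd_pow hs e.1
  have b2 := bd_pow ht (a - e.1)
  have b3 := bd_pow (bd_Y F.k₁ F.k₂) e.2
  have b4 := bd_pow (bd_K F.k₃) (b - e.2)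
  have key := ev_mul (b1.mul b2) (b3.mul b4) d₁ d₂ ξ υ
  rw [ev_mul b1 b2, ev_mul b3 b4, hpow hs, hpow ht, hpow (bd_Y F.k₁ F.k₂), hpow (bd_K F.k₃), es, et,
    eu, ev'] at key
  have e1 : (1 * (e.1 : ℕ) + 1 * (a - e.1)) + (0 * (e.2 : ℕ) + 0 * (b - e.2)) = a := by omega
  have e2 : (0 * (e.1 : ℕ) + 0 * (a - e.1)) + (1 * (e.2 : ℕ) + 1 * (b - e.2)) = b := by omega
  rw [e1, e2] at key
  exact key

theorem ev_rl (a b : ℕ) (f : ℤ[X][X]) (d₁ d₂ ξ υ : ℝ) : ev a b (rl F a b f) d₁ d₂ ξ υ =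
    ev a b f (F.e₁ * d₁) (F.e₂ * d₁ + F.e₃ * d₂) (F.k₁ * ξ + F.k₂ * υ) (F.k₃ * υ) := by
  have h : rl F a b f = ∑ e : E a b, C (C ((cf f e : ℤ) : ℝ)) * mon a b (C (C F.e₁ * X) : ℝ[X][X])
      (C (C F.e₂ * X + C F.e₃)) (C (C F.k₁) * X + C (C F.k₂)) (C (C F.k₃)) e := by
    unfold rl ev
    refine Finset.sum_congr rfl fun e _ => ?_
    congr 1
  rw [h, ev_sum]
  conv_rhs => unfold ev
  refine Finset.sum_congr rfl fun e _ => ?_
  rw [ev_C_mul, ev_mon_rl]
  rfl

end frame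

end Pool.Agent.Work.MP_f2148a_nt.M56.LD
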