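import Mathlib

set_option autoImplicit false

/-!
# LD/Lin (size S-M, Mathlib only): the determinant identity

PROOF. Let `R = τ ∘ inl : e' → e`, `S = τ ∘ inr : d → e`. Let `Nn : Matrix (e' ⊕ d) e ℝ` have the rows `x ↦ (unit vector of R x)` (`x : e'`) and the rows of `ZR` (`d`), and
`Bb : Matrix e (e' ⊕ d) ℝ` the columns of `G` and of `Wm`. Then `Nn * (T * Bb)` is the block matrix with the blocks `GR.submatrix R id * T'`, `*`, `0`, `Z * Wm`:
`T * G = GR * T'`, `ZR * (GR * T') = ZR * T * G = Z * G = 0`, `ZR * T * Wm = Z * Wm`. `Matrix.det_fromBlocks_zero₂₁`. And `(Nn.reindex ..)`, i.e. `Nn.submatrix id τ`, is the block matrix `1`, `0`, `*`,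
`ZR.submatrix id S`. Determinants of square matrices over different index types: use `Matrix.det_submatrix_equiv_self`, `(Nn.submatrix id τ) * (T.submatrix τ τ) * (Bb.submatrix τ id)`, and
`|det (Bb.submatrix τ id)| = |det (Bb.submatrix σ id)|` (`Matrix.abs_det_submatrix_equiv_equiv` or the permutation `τ.trans σ.symm`, `Matrix.det_permute'`).
-/

namespace Pool.Agent.Work.MP_f2148a_nt.M56.LD

private theorem row_mul {e e' k : Type*} [Fintype e] [DecidableEq e] (f : e' → e)
    (M : Matrix e k ℝ) : (1 : Matrix e e ℝ).submatrix f id * M = M.submatrix f id := by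
  ext x y
  simp [Matrix.mul_apply, Matrix.one_apply]

theorem lin {e e' d : Type*} [Fintype e] [DecidableEq e] [Fintype e'] [DecidableEq e'] [Fintype d]
    [DecidableEq d] (σ τ : e' ⊕ d ≃ e) (G : Matrix e e' ℝ) (Wm : Matrix e d ℝ)
    (Z : Matrix d e ℝ) (hZ : Z * G = 0) (T : Matrix e e ℝ) (T' : Matrix e' e' ℝ)
    (GR : Matrix e e' ℝ) (h1 : GR * T' = T * G) (ZR : Matrix d e ℝ) (h2 : ZR * T = Z) :
    |(ZR.submatrix id (fun x => τ (Sum.inr x))).det| * |T.det| *
        |(Matrix.of fun x y : e' ⊕ d => Sum.elim (fun z => G (σ x) z) (fun k => Wm (σ x) k) y).det| =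
      |(Z * Wm).det| * |(GR.submatrix (fun x => τ (Sum.inl x)) id).det| * |T'.det| := by
  classical
  have hB : (Matrix.of fun x y : e' ⊕ d => Sum.elim (fun z => G (σ x) z) (fun k => Wm (σ x) k) y) =
      (Matrix.fromCols G Wm).submatrix σ id := by
    ext x y
    rcases y with y | y <;> rfl
  have hσ : |((Matrix.fromCols G Wm).submatrix σ id).det| =
      |((Matrix.fromCols G Wm).submatrix τ id).det| := by
    have h3 : (Matrix.fromCols G Wm).submatrix σ id =
        ((Matrix.fromCols G Wm).submatrix τ id).submatrix (σ.trans τ.symm) (Equiv.refl _) := by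
      ext x y
      simp
    rw [h3, Matrix.abs_det_submatrix_equiv_equiv]
  have hN : (Matrix.fromRows ((1 : Matrix e e ℝ).submatrix (fun x => τ (Sum.inl x)) id)
      ZR).submatrix id τ = Matrix.fromBlocks (1 : Matrix e' e' ℝ) 0
        (ZR.submatrix id (fun x => τ (Sum.inl x))) (ZR.submatrix id (fun x => τ (Sum.inr x))) := by
    ext x y
    rcases x with x | x <;> rcases y with y | y <;> simp [Matrix.one_apply]
  have h4 : Matrix.fromRows ((1 : Matrix e e ℝ).submatrix (fun x => τ (Sum.inl x)) id) ZR * T *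
      Matrix.fromCols G Wm = Matrix.fromBlocks (GR.submatrix (fun x => τ (Sum.inl x)) id * T')
        (((1 : Matrix e e ℝ).submatrix (fun x => τ (Sum.inl x)) id) * (T * Wm)) 0 (Z * Wm) := by
    rw [Matrix.mul_assoc, Matrix.mul_fromCols, Matrix.fromRows_mul_fromCols, row_mul,
      ← Matrix.mul_assoc ZR T Wm, ← Matrix.mul_assoc ZR T G, h2, hZ, ← h1]
    rfl
  have h5 : (Matrix.fromRows ((1 : Matrix e e ℝ).submatrix (fun x => τ (Sum.inl x)) id)
      ZR).submatrix id τ * T.submatrix τ τ * (Matrix.fromCols G Wm).submatrix τ id =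
      Matrix.fromRows ((1 : Matrix e e ℝ).submatrix (fun x => τ (Sum.inl x)) id) ZR * T *
      Matrix.fromCols G Wm := by
    rw [Matrix.submatrix_mul_equiv, Matrix.submatrix_mul_equiv, Matrix.submatrix_id_id]
  have h6 := congrArg Matrix.det (h5.trans h4)
  rw [Matrix.det_mul, Matrix.det_mul, hN, Matrix.det_fromBlocks_zero₁₂,
    Matrix.det_fromBlocks_zero₂₁, Matrix.det_one, one_mul, Matrix.det_submatrix_equiv_self,
    Matrix.det_mul] at h6
  rw [hB, hσ, ← abs_mul, ← abs_mul, ← abs_mul, ← abs_mul, h6]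
  congr 1
  ring

end Pool.Agent.Work.MP_f2148a_nt.M56.LD
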