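import Mathlib
import Pool.Agent.Work.MP_f2148a_nt.M56.LD.Ev

/-!
# LD/Mnr (size M): a large maximal minor of the multiplication by `g` (compactness)

PROOF. Let `K = {c : E m n → ℝ | ∑ |c e| = 1}`, a compact set. For `c ∈ K` let `g = ∑ monomial e.2 (monomial e.1 (c e)) ≠ 0`, `Bd m n g`. The matrix `mulM a b (a - m) (b - n) g` has
independent columns: if it kills `q`, then the coefficients of `g * f`, `f = ∑ q e' * x^e'.1 y^e'.2`, are `0` (the product has bidegree at most `(a, b)`), so `f = 0`, `q = 0`
(`ℝ[X][X]` is a domain). So some maximal minor is not zero: the rows span, choose a basis among the rows (for example `Matrix.rank`, `exists_linearIndependent`; or `LinearIndependent`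
of the columns gives an injective `R` with `det ≠ 0`, e.g. via the rows `Matrix.rank_transpose`, or from `Matrix.det_mul`-free argument: Gram determinant `det (Gᵀ G) ≠ 0` is a sum of squares of minors only with
Cauchy-Binet; the basis argument is easier). The function `c ↦ max over injective R of |minor|` is continuous (a finite supremum of polynomials; entries of `mulM` are linear in `c`:
the entry is `c (e - e')` or `0`) and positive on `K`, so it is at least some `c₀ > 0` (`IsCompact.exists_isMinOn`; if there is no `R` at all or `K` is empty choose `c₀ = 1`). Homogeneity: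
`mulM (C (C λ) * g) = λ • mulM g`, the minor is multiplied by `λ ^ ((a - m + 1) * (b - n + 1))` (`Matrix.det_smul`). For `g = 0` and positive exponent the left side is `0`;
an injective `R` exists (`Fin.castLE`).
-/

set_option autoImplicit false

namespace Pool.Agent.Work.MP_f2148a_nt.M56.LD

open Polynomial

/-- the polynomial with given coefficients -/
private noncomputable def G {m n : ℕ} (c : E m n → ℝ) : ℝ[X][X] :=
  ∑ e : E m n, monomial (e.2 : ℕ) (monomial (e.1 : ℕ) (c e))

private theorem cf_monomial {m n : ℕ} (e e' : E m n) (x : ℝ) :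
    cf (monomial (e'.2 : ℕ) (monomial (e'.1 : ℕ) x) : ℝ[X][X]) e = if e' = e then x else 0 := by
  unfold cf
  rw [coeff_monomial]
  by_cases h2 : (e'.2 : ℕ) = e.2
  · rw [if_pos h2, coeff_monomial]
    by_cases h1 : (e'.1 : ℕ) = e.1
    · rw [if_pos h1, if_pos (Prod.ext (Fin.ext h1) (Fin.ext h2))]
    · rw [if_neg h1, if_neg]
      rintro rfl
      exact h1 rfl
  · rw [if_neg h2, if_neg, coeff_zero]
    rintro rfl
    exact h2 rfl

private theorem cf_sum {m n : ℕ} {κ : Type*} (T : Finset κ) (f : κ → ℝ[X][X]) (e : E m n) :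
    cf (∑ i ∈ T, f i) e = ∑ i ∈ T, cf (f i) e := by
  classical
  induction T using Finset.induction_on with
  | empty => simp [cf]
  | insert i T hi ih => rw [Finset.sum_insert hi, Finset.sum_insert hi, cf_add, ih]

private theorem cf_G {m n : ℕ} (c : E m n → ℝ) (e : E m n) : cf (G c) e = c e := by
  unfold G
  rw [cf_sum]
  simp only [cf_monomial]
  rw [Finset.sum_ite_eq']
  simp

private theorem bd_G {m n : ℕ} (c : E m n → ℝ) : Bd m n (G c) :=
  Bd.sum _ _ fun e _ => Bd.monomial e (c e)

private theorem G_cf {m n : ℕ} {g : ℝ[X][X]} (hg : Bd m n g) : G (cf g : E m n → ℝ) = g :=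
  (eq_sum hg).symm

private theorem mul_G {m n : ℕ} (c : E m n → ℝ) (h : ℝ[X][X]) : G c * h =
    ∑ e : E m n, C (C (c e)) * (monomial (e.2 : ℕ) (monomial (e.1 : ℕ) 1) * h) := by
  unfold G
  rw [Finset.sum_mul]
  refine Finset.sum_congr rfl fun e _ => ?_
  rw [← mul_assoc, C_mul_monomial, C_mul_monomial, mul_one]

private theorem mulM_G {m n a b a' b' : ℕ} (c : E m n → ℝ) (e : E a b) (e' : E a' b') :
    mulM a b a' b' (G c) e e' = ∑ e0 : E m n, c e0 *
      cf (monomial (e0.2 : ℕ) (monomial (e0.1 : ℕ) (1 : ℝ)) *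
        monomial (e'.2 : ℕ) (monomial (e'.1 : ℕ) 1)) e := by
  unfold mulM
  rw [mul_G, cf_sum]
  refine Finset.sum_congr rfl fun e0 _ => ?_
  rw [cf_C_mul]

private theorem mulM_G_smul {m n a b a' b' : ℕ} (c : E m n → ℝ) (l : ℝ) :
    mulM a b a' b' (G (l • c)) = l • mulM a b a' b' (G c) := by
  ext e e'
  rw [Matrix.smul_apply, mulM_G, mulM_G, smul_eq_mul, Finset.mul_sum]
  refine Finset.sum_congr rfl fun e0 _ => ?_
  rw [Pi.smul_apply, smul_eq_mul, mul_assoc]

private theorem mulVec_inj {m n a b : ℕ} (hm : m ≤ a) (hn : n ≤ b) {g : ℝ[X][X]} (hg : Bd m n g)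
    (h0 : g ≠ 0) : Function.Injective (mulM a b (a - m) (b - n) g).mulVec := by
  have key : ∀ q : E (a - m) (b - n) → ℝ, (mulM a b (a - m) (b - n) g).mulVec q = 0 → q = 0 := by
    intro q hq
    have h1 : ∀ e : E a b, cf (g * G q) e = 0 := by
      intro e
      have h2 := congrFun hq e
      rw [Pi.zero_apply] at h2
      rw [← h2, mul_comm, mul_G, cf_sum]
      unfold Matrix.mulVec dotProduct mulM
      refine Finset.sum_congr rfl fun e0 _ => ?_
      change _ = cf (g * monomial (e0.2 : ℕ) (monomial (e0.1 : ℕ) (1 : ℝ))) e * q e0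
      rw [cf_C_mul, mul_comm g, mul_comm (q e0)]
    have h3 : Bd a b (g * G q) := by
      have h4 := hg.mul (bd_G q)
      exact h4.le (by omega) (by omega)
    have h5 : g * G q = 0 := by
      rw [eq_sum h3]
      refine Finset.sum_eq_zero fun e _ => ?_
      rw [h1 e, monomial_zero_right, monomial_zero_right]
    have h6 : G q = 0 := by
      rcases mul_eq_zero.mp h5 with h | h
      · exact absurd h h0
      · exact h
    funext e
    rw [← cf_G q e, h6]
    simp [cf]
  intro q q' h
  have h1 : (mulM a b (a - m) (b - n) g).mulVec (q - q') = 0 := by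
    rw [Matrix.mulVec_sub]
    exact sub_eq_zero.mpr h
  exact sub_eq_zero.mp (key _ h1)

/-- a nonzero maximal minor -/
private theorem exists_minor {α β : Type} [Fintype α] [Fintype β] [DecidableEq β]
    (M : Matrix α β ℝ) (hM : Function.Injective M.mulVec) :
    ∃ R : β → α, Function.Injective R ∧ (Matrix.of fun e e' : β => M (R e) e').det ≠ 0 := by
  classical
  obtain ⟨κ, r, hr, hsp, hli⟩ := exists_linearIndependent' ℝ (fun i : α => (M i : β → ℝ))
  have : Finite κ := Finite.of_injective r hr
  let _ : Fintype κ := Fintype.ofFinite κ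
  have hrank : M.rank = Fintype.card β := by
    unfold Matrix.rank
    rw [LinearMap.finrank_range_of_inj hM]
    simp
  have hc : Fintype.card κ = Fintype.card β := by
    rw [← hrank, Matrix.rank_eq_finrank_span_row]
    have h1 := finrank_span_eq_card hli
    rw [← h1]
    have h2 : Submodule.span ℝ (Set.range M.row) =
        Submodule.span ℝ (Set.range ((fun i : α => (M i : β → ℝ)) ∘ r)) := hsp.symm
    rw [h2]
  obtain ⟨eq⟩ : Nonempty (β ≃ κ) := Fintype.card_eq.mp hc.symm
  refine ⟨r ∘ eq, hr.comp eq.injective, ?_⟩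
  have h2 : LinearIndependent ℝ (Matrix.of fun e e' : β => M ((r ∘ eq) e) e').row := by
    have h3 := hli.comp eq eq.injective
    exact h3
  have h4 := Matrix.linearIndependent_rows_iff_isUnit.mp h2
  rw [Matrix.isUnit_iff_isUnit_det] at h4
  exact h4.ne_zero

theorem mnr (m n a b : ℕ) (hm : m ≤ a) (hn : n ≤ b) : ∃ c : ℝ, 0 < c ∧ ∀ g : ℝ[X][X], Bd m n g →
    ∃ R : E (a - m) (b - n) → E a b, Function.Injective R ∧
      c * ht (cf g : E m n → ℝ) ^ ((a - m + 1) * (b - n + 1)) ≤
        |(Matrix.of fun e e' : E (a - m) (b - n) => mulM a b (a - m) (b - n) g (R e) e').det| := by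
  classical
  set S : Finset (E (a - m) (b - n) → E a b) := Finset.univ.filter Function.Injective with hS
  set K : Set (E m n → ℝ) := {c | ht c = 1} with hK
  set Φ : (E m n → ℝ) → ℝ := fun c => ∑ R ∈ S,
    |(Matrix.of fun e e' : E (a - m) (b - n) => mulM a b (a - m) (b - n) (G c) (R e) e').det| with hΦ
  have hR0 : ∃ R : E (a - m) (b - n) → E a b, Function.Injective R := by
    refine ⟨fun e => (Fin.castLE (by omega) e.1, Fin.castLE (by omega) e.2), ?_⟩
    intro e e' h
    rw [Prod.ext_iff] at h
    exact Prod.ext (Fin.castLE_injective (by omega) h.1) (Fin.castLE_injective (by omega) h.2)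
  have hcont : Continuous Φ := by
    rw [hΦ]
    refine continuous_finsetSum _ fun R _ => ?_
    refine continuous_abs.comp ?_
    refine Continuous.matrix_det ?_
    refine continuous_matrix fun e e' => ?_
    simp only [Matrix.of_apply, mulM_G]
    refine continuous_finsetSum _ fun e0 _ => ?_
    exact (continuous_apply e0).mul continuous_const
  have hhtc : Continuous (ht : (E m n → ℝ) → ℝ) := by
    unfold ht
    exact continuous_finsetSum _ fun e _ => continuous_abs.comp (continuous_apply e)
  have hKc : IsCompact K := by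
    refine Metric.isCompact_of_isClosed_isBounded (isClosed_eq hhtc continuous_const) ?_
    refine (Metric.isBounded_closedBall (x := (0 : E m n → ℝ)) (r := 1)).subset ?_
    intro c hc
    rw [mem_closedBall_zero_iff, pi_norm_le_iff_of_nonneg zero_le_one]
    intro e
    rw [Real.norm_eq_abs]
    have h1 : |c e| ≤ ht c := by
      unfold ht
      exact Finset.single_le_sum (f := fun e => |c e|) (fun _ _ => abs_nonneg _) (Finset.mem_univ e)
    exact h1.trans (le_of_eq hc)
  have hKn : K.Nonempty := by
    refine ⟨Pi.single (0, 0) 1, ?_⟩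
    change ht (Pi.single (0, 0) 1 : E m n → ℝ) = 1
    unfold ht
    rw [Finset.sum_eq_single ((0, 0) : E m n)]
    · simp
    · intro e _ he
      simp [Pi.single_eq_of_ne he]
    · intro h
      exact absurd (Finset.mem_univ _) h
  have hpos : ∀ c ∈ K, 0 < Φ c := by
    intro c hc
    have hg0 : G c ≠ 0 := by
      intro h
      have h1 : c = 0 := by
        funext e
        rw [← cf_G c e, h]
        simp [cf]
      have h2 : ht c = 1 := hc
      rw [h1] at h2
      simp [ht] at h2
    obtain ⟨R, hR, hd⟩ := exists_minor _ (mulVec_inj hm hn (bd_G c) hg0)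
    have h1 : |(Matrix.of fun e e' : E (a - m) (b - n) =>
        mulM a b (a - m) (b - n) (G c) (R e) e').det| ≤ Φ c := by
      rw [hΦ]
      refine Finset.single_le_sum (f := fun R : E (a - m) (b - n) → E a b =>
        |(Matrix.of fun e e' : E (a - m) (b - n) =>
          mulM a b (a - m) (b - n) (G c) (R e) e').det|) (fun _ _ => abs_nonneg _) ?_
      rw [hS, Finset.mem_filter]
      exact ⟨Finset.mem_univ _, hR⟩
    exact lt_of_lt_of_le (abs_pos.mpr hd) h1
  obtain ⟨c0, hc0, hmin⟩ := hKc.exists_isMinOn hKn hcont.continuousOn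
  have hSc : 0 < (S.card : ℝ) := by
    obtain ⟨R, hR⟩ := hR0
    rw [Nat.cast_pos, Finset.card_pos]
    exact ⟨R, by rw [hS, Finset.mem_filter]; exact ⟨Finset.mem_univ _, hR⟩⟩
  refine ⟨Φ c0 / S.card, div_pos (hpos c0 hc0) hSc, fun g hg => ?_⟩
  set h : ℝ := ht (cf g : E m n → ℝ) with hh
  have hh0 : 0 ≤ h := by
    rw [hh]
    unfold ht
    exact Finset.sum_nonneg fun _ _ => abs_nonneg _
  have hN : Fintype.card (E (a - m) (b - n)) = (a - m + 1) * (b - n + 1) := by
    simp
  rcases hh0.eq_or_lt with hz | hp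
  · obtain ⟨R, hR⟩ := hR0
    refine ⟨R, hR, ?_⟩
    rw [← hz, zero_pow (by positivity), mul_zero]
    exact abs_nonneg _
  · have hcK : (h⁻¹ • (cf g : E m n → ℝ)) ∈ K := by
      change ht (h⁻¹ • (cf g : E m n → ℝ)) = 1
      unfold ht
      simp only [Pi.smul_apply, smul_eq_mul, abs_mul]
      rw [← Finset.mul_sum, abs_of_pos (inv_pos.mpr hp)]
      change h⁻¹ * h = 1
      exact inv_mul_cancel₀ hp.ne'
    have hle : Φ c0 ≤ Φ (h⁻¹ • (cf g : E m n → ℝ)) := hmin hcK
    have hex : ∃ R ∈ S, Φ c0 / S.card ≤ |(Matrix.of fun e e' : E (a - m) (b - n) =>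
        mulM a b (a - m) (b - n) (G (h⁻¹ • (cf g : E m n → ℝ))) (R e) e').det| := by
      by_contra hcon
      push Not at hcon
      have hne : S.Nonempty := by
        rw [← Finset.card_pos]
        exact_mod_cast hSc
      have h1 : Φ (h⁻¹ • (cf g : E m n → ℝ)) < ∑ _R ∈ S, Φ c0 / S.card := by
        rw [hΦ]
        exact Finset.sum_lt_sum_of_nonempty hne hcon
      rw [Finset.sum_const, nsmul_eq_mul, mul_div_cancel₀ _ hSc.ne'] at h1
      exact absurd hle (not_le.mpr h1)
    obtain ⟨R, hRS, hRle⟩ := hex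
    rw [hS, Finset.mem_filter] at hRS
    refine ⟨R, hRS.2, ?_⟩
    have hmat : (Matrix.of fun e e' : E (a - m) (b - n) =>
        mulM a b (a - m) (b - n) (G (h⁻¹ • (cf g : E m n → ℝ))) (R e) e') =
        h⁻¹ • (Matrix.of fun e e' : E (a - m) (b - n) =>
          mulM a b (a - m) (b - n) g (R e) e') := by
      ext e e'
      rw [Matrix.smul_apply, Matrix.of_apply, Matrix.of_apply, mulM_G_smul, G_cf hg,
        Matrix.smul_apply]
    rw [hmat, Matrix.det_smul, abs_mul, hN, abs_pow, abs_of_pos (inv_pos.mpr hp)] at hRle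
    have hpw : 0 < h ^ ((a - m + 1) * (b - n + 1)) := pow_pos hp _
    calc Φ c0 / S.card * h ^ ((a - m + 1) * (b - n + 1))
        ≤ (h⁻¹ ^ ((a - m + 1) * (b - n + 1)) * |(Matrix.of fun e e' : E (a - m) (b - n) =>
          mulM a b (a - m) (b - n) g (R e) e').det|) * h ^ ((a - m + 1) * (b - n + 1)) :=
          mul_le_mul_of_nonneg_right hRle hpw.le
      _ = |(Matrix.of fun e e' : E (a - m) (b - n) =>
          mulM a b (a - m) (b - n) g (R e) e').det| := by
          rw [inv_pow, mul_comm, ← mul_assoc, mul_inv_cancel₀ hpw.ne', one_mul]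

end Pool.Agent.Work.MP_f2148a_nt.M56.LD
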