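import Mathlib
import Pool.Agent.Work.MP_f2148a_nt.M56.LD.Ev

set_option autoImplicit false

/-!
# LD/Sat (size M): an integral complement of the multiples of `g`

PROOF. Let `V = (E a b → ℤ)`, `V' = (E (a - m) (b - n) → ℤ)`, `G : V' → V` the linear map with matrix `mulM` (`(G q) = cf (g * f)`, `f = ∑ q e' x^e'.1 y^e'.2`: `cf` is linear, `cf_add`, `cf_C_mul`). It is injective
(`ℤ[X][X]` is a domain, the product has bidegree at most `(a, b)`) and its image is saturated: if `k ≠ 0` is an integer and `k • x = G q`, then `x = G q'`. For a prime `p`: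
`p ∣ g * f` in `ℤ[X][X]` implies `p ∣ f`, because `C (C p)` is prime (`Polynomial.prime_C_iff` twice, `Int.prime_iff_natAbs_prime`) and does not divide the irreducible `g` of positive degree in `y`
(otherwise `g` is associated to `C (C p)`, degree `0`). Induct on the number of prime factors of `k`. So `V / G V'` is torsion free and finitely generated over `ℤ`, hence free
(`Module.free_of_finite_type_torsion_free'`), and `V = G V' ⊕ W` (`LinearMap.exists_rightInverse_of_surjective` / projectivity of the quotient). `W` has rank `dq m n a b` (cards). Let `w k` be the polynomials of a basis of `W`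
(a section applied to a basis of the quotient). The columns `G e'` and `w k` form a basis of `V`, so the determinant with respect to the standard basis (rows reindexed by `σ`) is a unit
(`Module.Basis.isUnit_det`, `Module.Basis.toMatrix`, `Matrix.isUnit_det_of_left_inverse`, ...).
-/

namespace Pool.Agent.Work.MP_f2148a_nt.M56.LD

open Polynomial

section aux

variable {a b a' b' m n : ℕ}

/-- the polynomial with given coefficients -/
private noncomputable def pol (q : E a b → ℤ) : ℤ[X][X] :=
  ∑ e : E a b, monomial (e.2 : ℕ) (monomial (e.1 : ℕ) (q e))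

private theorem cf_pol (q : E a b → ℤ) (e : E a b) : cf (pol q) e = q e := by
  unfold pol cf
  rw [finsetSum_coeff, finsetSum_coeff, Finset.sum_eq_single e]
  · rw [coeff_monomial, if_pos rfl, coeff_monomial, if_pos rfl]
  · intro e' _ he
    rw [coeff_monomial]
    split_ifs with h1
    · rw [coeff_monomial, if_neg]
      intro h2
      exact he (Prod.ext (Fin.ext h2) (Fin.ext h1))
    · exact coeff_zero _
  · intro h
    exact absurd (Finset.mem_univ _) h

private theorem bd_pol (q : E a b → ℤ) : Bd a b (pol q) :=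
  Bd.sum _ _ fun e _ => Bd.monomial e _

private theorem pol_cf {f : ℤ[X][X]} (hf : Bd a b f) :
    pol (fun e : E a b => cf f e) = f := (eq_sum hf).symm

private theorem cf_sum' {ι : Type*} (T : Finset ι) (f : ι → ℤ[X][X]) (e : E a b) :
    cf (∑ i ∈ T, f i) e = ∑ i ∈ T, cf (f i) e := by
  unfold cf
  rw [finsetSum_coeff, finsetSum_coeff]

private theorem mulVec_eq (g : ℤ[X][X]) (q : E a' b' → ℤ) (e : E a b) :
    (mulM a b a' b' g).mulVec q e = cf (g * pol q) e := by
  unfold pol
  rw [Finset.mul_sum, cf_sum']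
  unfold Matrix.mulVec dotProduct
  refine Finset.sum_congr rfl fun x _ => ?_
  have h1 : (monomial (x.2 : ℕ) (monomial (x.1 : ℕ) (q x)) : ℤ[X][X]) =
      C (C (q x)) * monomial (x.2 : ℕ) (monomial (x.1 : ℕ) 1) := by
    rw [C_mul_monomial, C_mul_monomial, mul_one]
  have h2 : g * monomial (x.2 : ℕ) (monomial (x.1 : ℕ) (q x)) =
      C (C (q x)) * (g * monomial (x.2 : ℕ) (monomial (x.1 : ℕ) 1)) := by
    rw [h1]
    ring
  rw [h2, cf_C_mul, mul_comm]
  rfl

private theorem bd_mul_pol (hm : m ≤ a) (hn : n ≤ b) {g : ℤ[X][X]} (hg : Irr m n g)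
    (q : E (a - m) (b - n) → ℤ) : Bd a b (g * pol q) := by
  have h := hg.ex.bd.mul (bd_pol q)
  rwa [Nat.add_sub_cancel' hm, Nat.add_sub_cancel' hn] at h

private theorem sat_aux (hm : m ≤ a) (hn : n ≤ b) {g : ℤ[X][X]} (hg : Irr m n g) (k : ℤ)
    (hk : k ≠ 0) (x : E a b → ℤ) (q : E (a - m) (b - n) → ℤ)
    (h : ∀ e, k * x e = (mulM a b (a - m) (b - n) g).mulVec q e) :
    ∃ q' : E (a - m) (b - n) → ℤ, ∀ e, x e = (mulM a b (a - m) (b - n) g).mulVec q' e := by
  have hg0 : g ≠ 0 := hg.irr.ne_zero
  have hCk : (C k : ℤ[X]) ≠ 0 := C_ne_zero.2 hk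
  have hCCk : (C (C k) : ℤ[X][X]) ≠ 0 := C_ne_zero.2 hCk
  have h1 : C (C k) * pol x = g * pol q := by
    have hb1 : Bd a b (C (C k) * pol x) := (bd_pol x).C_mul k
    rw [← pol_cf hb1, ← pol_cf (bd_mul_pol hm hn hg q)]
    congr 1
    funext e
    rw [cf_C_mul, cf_pol, h e, mulVec_eq]
  rcases hg.irr.prime.dvd_or_dvd (Dvd.intro _ h1.symm) with h2 | h2
  · exfalso
    have h3 := natDegree_le_of_dvd h2 hCCk
    rw [natDegree_C, hg.ex.top] at h3
    have := hg.n1
    omega
  · obtain ⟨f, hf⟩ := h2
    have h3 : C (C k) * f = pol q := by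
      rw [hf] at h1
      refine mul_left_cancel₀ hg0 ?_
      rw [← h1]
      ring
    have hbf : Bd (a - m) (b - n) f := by
      have hb := bd_pol q
      rw [← h3] at hb
      refine ⟨?_, fun j => ?_⟩
      · have h4 := hb.1
        rwa [natDegree_C_mul hCk] at h4
      · have h4 := hb.2 j
        rwa [coeff_C_mul, natDegree_C_mul hk] at h4
    refine ⟨fun e => cf f e, fun e => ?_⟩
    rw [mulVec_eq, pol_cf hbf, ← hf, cf_pol]

private theorem inj_aux (hm : m ≤ a) (hn : n ≤ b) {g : ℤ[X][X]} (hg : Irr m n g)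
    (q : E (a - m) (b - n) → ℤ) (h : (mulM a b (a - m) (b - n) g).mulVec q = 0) : q = 0 := by
  have h1 : g * pol q = 0 := by
    rw [← pol_cf (bd_mul_pol hm hn hg q)]
    have h2 : (fun e : E a b => cf (g * pol q) e) = fun _ => 0 := by
      funext e
      rw [← mulVec_eq, h]
      rfl
    rw [h2]
    unfold pol
    simp
  have h2 : pol q = 0 := (mul_eq_zero.1 h1).resolve_left hg.irr.ne_zero
  funext e
  rw [← cf_pol q e, h2]
  unfold cf
  simp

end aux

theorem card_E (m n a b : ℕ) (hm : m ≤ a) (hn : n ≤ b) :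
    Fintype.card (E (a - m) (b - n) ⊕ Fin (dq m n a b)) = Fintype.card (E a b) := by
  rw [Fintype.card_sum, Fintype.card_fin]
  unfold E dq
  rw [Fintype.card_prod, Fintype.card_prod, Fintype.card_fin, Fintype.card_fin, Fintype.card_fin,
    Fintype.card_fin]
  have h : (a - m + 1) * (b - n + 1) ≤ (a + 1) * (b + 1) :=
    Nat.mul_le_mul (by omega) (by omega)
  omega

theorem sat (m n a b : ℕ) (hm : m ≤ a) (hn : n ≤ b) (g : ℤ[X][X]) (hg : Irr m n g) :
    ∃ w : Fin (dq m n a b) → ℤ[X][X], (∀ k, Bd a b (w k)) ∧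
      ∀ σ : E (a - m) (b - n) ⊕ Fin (dq m n a b) ≃ E a b,
        IsUnit (Matrix.det (Matrix.of fun x y : E (a - m) (b - n) ⊕ Fin (dq m n a b) =>
          Sum.elim (fun e' => mulM a b (a - m) (b - n) g (σ x) e') (fun k => cf (w k) (σ x)) y)) := by
  classical
  let G : (E (a - m) (b - n) → ℤ) →ₗ[ℤ] (E a b → ℤ) :=
    (mulM a b (a - m) (b - n) g).mulVecLin
  have hG : ∀ q, G q = (mulM a b (a - m) (b - n) g).mulVec q := fun q => rfl
  have hinj : Function.Injective G := by
    rw [injective_iff_map_eq_zero]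
    intro q hq
    exact inj_aux hm hn hg q hq
  have htf : Module.IsTorsionFree ℤ ((E a b → ℤ) ⧸ LinearMap.range G) := by
    refine Module.IsTorsionFree.of_smul_eq_zero fun k y hy => ?_
    induction y using Submodule.Quotient.induction_on with
    | H x =>
      by_cases hk : k = 0
      · exact Or.inl hk
      · right
        rw [← Submodule.Quotient.mk_smul, Submodule.Quotient.mk_eq_zero] at hy
        obtain ⟨q, hq⟩ := hy
        obtain ⟨q', hq'⟩ := sat_aux hm hn hg k hk x q (fun e => by
          rw [← hG, hq]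
          rfl)
        rw [Submodule.Quotient.mk_eq_zero]
        exact ⟨q', funext fun e => by rw [hG, hq' e]⟩
  have : Module.Free ℤ ((E a b → ℤ) ⧸ LinearMap.range G) :=
    Module.free_of_finite_type_torsion_free'
  have hrank : Module.finrank ℤ ((E a b → ℤ) ⧸ LinearMap.range G) = dq m n a b := by
    have h1 := (LinearMap.range G).finrank_quotient_add_finrank
    rw [LinearMap.finrank_range_of_inj hinj, Module.finrank_fintype_fun_eq_card,
      Module.finrank_fintype_fun_eq_card, ← card_E m n a b hm hn, Fintype.card_sum,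
      Fintype.card_fin] at h1
    omega
  let bas := Module.finBasisOfFinrankEq ℤ ((E a b → ℤ) ⧸ LinearMap.range G) hrank
  have hsec : ∀ k, ∃ s : E a b → ℤ, Submodule.Quotient.mk s = bas k := fun k =>
    Submodule.Quotient.mk_surjective _ _
  choose s hs using hsec
  refine ⟨fun k => pol (s k), fun k => bd_pol _, fun σ => ?_⟩
  rw [← Matrix.isUnit_iff_isUnit_det, ← Matrix.mulVec_surjective_iff_isUnit]
  intro v
  let v' : E a b → ℤ := fun e => v (σ.symm e)
  let c : Fin (dq m n a b) → ℤ := fun k => bas.repr (Submodule.Quotient.mk v') k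
  have hv : (Submodule.Quotient.mk v' : (E a b → ℤ) ⧸ LinearMap.range G) =
      Submodule.Quotient.mk (∑ k, c k • s k) := by
    have h1 := bas.sum_repr (Submodule.Quotient.mk v')
    rw [← h1]
    have h2 : (Submodule.Quotient.mk (∑ k, c k • s k) : (E a b → ℤ) ⧸ LinearMap.range G) =
        ∑ k, c k • Submodule.Quotient.mk (s k) := by
      exact map_sum (LinearMap.range G).mkQ (fun k => c k • s k) Finset.univ
    rw [h2]
    refine Finset.sum_congr rfl fun k _ => ?_
    rw [hs k]
  rw [Submodule.Quotient.eq] at hv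
  obtain ⟨q, hq⟩ := hv
  refine ⟨Sum.elim q c, funext fun x => ?_⟩
  have hx : v x = v' (σ x) := by
    show v x = v (σ.symm (σ x))
    rw [Equiv.symm_apply_apply]
  have hq2 := congrFun hq (σ x)
  rw [hG] at hq2
  have hq3 : v' (σ x) = (mulM a b (a - m) (b - n) g).mulVec q (σ x) + ∑ k, c k * s k (σ x) := by
    rw [hq2]
    simp only [Pi.sub_apply, Finset.sum_apply, Pi.smul_apply, smul_eq_mul]
    ring
  rw [hx, hq3]
  unfold Matrix.mulVec dotProduct
  rw [Fintype.sum_sum_type]
  congr 1
  refine Finset.sum_congr rfl fun k _ => ?_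
  simp only [Matrix.of_apply, Sum.elim_inr]
  rw [cf_pol, mul_comm]

end Pool.Agent.Work.MP_f2148a_nt.M56.LD
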