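import Mathlib
import Pool.Agent.Work.MP_f2148a_nt.M56.LD.Ev

set_option autoImplicit false

/-!
# LD/TDet (size S-M): the matrix of the change to the real coordinates

`rl F a b (x^i y^j) = (e₁ x)^i (e₂ x + e₃)^(a-i) * (k₁ y + k₂)^j k₃^(b-j)` (`ev_monomial`, definition of `mon`), so `rlM F a b (i', j') (i, j) = Sa i' i * Sb j' j` with
`Sa i' i = ((C e₁ * X)^i (C e₂ * X + C e₃)^(a-i)).coeff i'` (`0` for `i' < i`, equal to `e₁^i e₃^(a-i)` for `i' = i`) and `Sb j' j = ((C k₁ * X + C k₂)^j * C (k₃^(b-j))).coeff j'`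
(`0` for `j' > j`, `k₁^j k₃^(b-j)` for `j' = j`). `Matrix.det_kronecker`, `Matrix.det_of_isLowerTriangular`, `Matrix.det_of_isUpperTriangular`:
`det = (e₁ e₃)^((b+1) a (a+1) / 2) * (k₁ k₃)^((a+1) b (b+1) / 2) = 9^((b+1) (a (a+1) / 2))`.
`mon_rlM`: `ev_rl` for the monomial `e'` (`ev_monomial`, `ev` as a sum). `mul_rlM`: the column `e'` of both sides is `cf` of `rl (g * x^.. y^..) = rl g * rl (x^.. y^..)` (`rl_mul`, `rl_add`, `eq_sum`:
`rl g * f = ∑ cf f e'' (rl g * monomial e'')`; `rl (f) = ∑ cf f e * rl (monomial e)` for `Bd`).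
-/

namespace Pool.Agent.Work.MP_f2148a_nt.M56.LD

open Polynomial

variable (F : Frame)

private noncomputable def Pa (a i : ℕ) : ℝ[X] := (C F.e₁ * X) ^ i * (C F.e₂ * X + C F.e₃) ^ (a - i)

private noncomputable def Qb (b j : ℕ) : ℝ[X] := (C F.k₁ * X + C F.k₂) ^ j * C F.k₃ ^ (b - j)

private theorem rl_monomial {a b : ℕ} (e : E a b) :
    rl F a b (monomial (e.2 : ℕ) (monomial (e.1 : ℕ) 1)) = C (Pa F a e.1) * (Qb F b e.2).map C := by
  unfold rl
  rw [ev_monomial]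
  simp only [mon, Pa, Qb, map_mul, map_pow, Polynomial.map_mul, Polynomial.map_pow,
    Polynomial.map_add, Polynomial.map_C, Polynomial.map_X]

private theorem rlM_apply {a b : ℕ} (e e' : E a b) :
    rlM F a b e e' = (Pa F a e'.1).coeff e.1 * (Qb F b e'.2).coeff e.2 := by
  unfold rlM
  rw [rl_monomial, cf, Polynomial.coeff_C_mul, Polynomial.coeff_map, Polynomial.coeff_mul_C]

private theorem Pa_lt {a i i' : ℕ} (h : i' < i) : (Pa F a i).coeff i' = 0 := by
  unfold Pa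
  rw [mul_pow, mul_assoc, mul_left_comm, Polynomial.coeff_X_pow_mul', if_neg (by omega)]

private theorem Pa_eq {a i : ℕ} : (Pa F a i).coeff i = F.e₁ ^ i * F.e₃ ^ (a - i) := by
  unfold Pa
  rw [mul_pow, mul_assoc, mul_left_comm, Polynomial.coeff_X_pow_mul', if_pos le_rfl, Nat.sub_self,
    ← C_pow, Polynomial.coeff_C_mul, Polynomial.coeff_zero_eq_eval_zero]
  simp

private theorem Qb_natDegree (b j : ℕ) : (Qb F b j).natDegree ≤ j := by
  unfold Qb
  rw [← C_pow]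
  refine (Polynomial.natDegree_mul_C_le _ _).trans ?_
  refine (Polynomial.natDegree_pow_le).trans ?_
  have h : (C F.k₁ * X + C F.k₂ : ℝ[X]).natDegree ≤ 1 := Polynomial.natDegree_linear_le
  nlinarith

private theorem Qb_gt {b j j' : ℕ} (h : j < j') : (Qb F b j).coeff j' = 0 :=
  Polynomial.coeff_eq_zero_of_natDegree_lt (lt_of_le_of_lt (Qb_natDegree F b j) h)

private theorem Qb_eq {b j : ℕ} : (Qb F b j).coeff j = F.k₁ ^ j * F.k₃ ^ (b - j) := by
  unfold Qb
  rw [← C_pow, Polynomial.coeff_mul_C]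
  congr 1
  have h : (C F.k₁ * X + C F.k₂ : ℝ[X]).natDegree ≤ 1 := Polynomial.natDegree_linear_le
  have := Polynomial.coeff_pow_of_natDegree_le (m := j) h
  rw [mul_one] at this
  rw [this]
  simp

private theorem prod_pow (a : ℕ) (x y : ℝ) :
    ∏ i : Fin (a + 1), (x ^ (i : ℕ) * y ^ (a - i)) = (x * y) ^ (a * (a + 1) / 2) := by
  rw [Finset.prod_mul_distrib, Finset.prod_pow_eq_pow_sum, Finset.prod_pow_eq_pow_sum, mul_pow]
  have h1 : ∑ i : Fin (a + 1), (i : ℕ) = a * (a + 1) / 2 := by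
    rw [Fin.sum_univ_eq_sum_range (fun i => i) (a + 1), Finset.sum_range_id]
    rw [Nat.add_sub_cancel, mul_comm]
  have h2 : ∑ i : Fin (a + 1), (a - (i : ℕ)) = a * (a + 1) / 2 := by
    rw [← h1, Fin.sum_univ_eq_sum_range (fun i => a - i) (a + 1),
      Fin.sum_univ_eq_sum_range (fun i => i) (a + 1)]
    exact Finset.sum_range_reflect (fun i => i) (a + 1)
  rw [h1, h2]

theorem rlM_det (hF : F.Uni) (a b : ℕ) : (rlM F a b).det = 9 ^ ((b + 1) * (a * (a + 1) / 2)) := by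
  let SA : Matrix (Fin (a + 1)) (Fin (a + 1)) ℝ := fun i' i => (Pa F a i).coeff i'
  let SB : Matrix (Fin (b + 1)) (Fin (b + 1)) ℝ := fun j' j => (Qb F b j).coeff j'
  have h : rlM F a b = Matrix.kroneckerMap (fun x y => x * y) SA SB := by
    ext e e'
    rw [rlM_apply]
    rfl
  have hA : SA.det = (F.e₁ * F.e₃) ^ (a * (a + 1) / 2) := by
    rw [Matrix.det_of_isLowerTriangular SA, ← prod_pow]
    · refine Finset.prod_congr rfl fun i _ => ?_
      exact Pa_eq F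
    · intro i j hij
      exact Pa_lt F (by simpa using hij)
  have hB : SB.det = (F.k₁ * F.k₃) ^ (b * (b + 1) / 2) := by
    rw [Matrix.det_of_isUpperTriangular, ← prod_pow]
    · refine Finset.prod_congr rfl fun i _ => ?_
      exact Qb_eq F
    · intro i j hij
      exact Qb_gt F (by simpa using hij)
  rw [h, Matrix.det_kronecker, hA, hB, hF.he, hF.hk]
  simp only [one_pow, mul_one, Fintype.card_fin]
  rw [← pow_mul, mul_comm]

theorem mon_rlM (a b : ℕ) (d₁ d₂ ξ υ : ℝ) (e' : E a b) :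
    ∑ e, mon a b d₁ d₂ ξ υ e * rlM F a b e e' =
      mon a b (F.e₁ * d₁) (F.e₂ * d₁ + F.e₃ * d₂) (F.k₁ * ξ + F.k₂ * υ) (F.k₃ * υ) e' := by
  have h1 := ev_rl F a b (monomial (e'.2 : ℕ) (monomial (e'.1 : ℕ) 1)) d₁ d₂ ξ υ
  rw [ev_monomial] at h1
  rw [← h1]
  unfold ev
  refine Finset.sum_congr rfl fun e _ => ?_
  rw [mul_comm]
  rfl

private theorem cf_sum {R : Type*} [CommRing R] {a b : ℕ} {ι : Type*} (s : Finset ι)
    (f : ι → R[X][X]) (e : E a b) : cf (∑ i ∈ s, f i) e = ∑ i ∈ s, cf (f i) e := by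
  simp [cf]

private theorem rl_eq_sum {a b : ℕ} (f : ℤ[X][X]) (e : E a b) :
    cf (rl F a b f) e = ∑ e'' : E a b, rlM F a b e e'' * ((cf f e'' : ℤ) : ℝ) := by
  have h : rl F a b f = ∑ e'' : E a b, C (C ((cf f e'' : ℤ) : ℝ)) *
      rl F a b (monomial (e''.2 : ℕ) (monomial (e''.1 : ℕ) 1)) := by
    conv_lhs => unfold rl ev
    refine Finset.sum_congr rfl fun e'' _ => ?_
    have h1 : rl F a b (monomial (e''.2 : ℕ) (monomial (e''.1 : ℕ) 1)) =
        mon a b (C (C F.e₁ * X)) (C (C F.e₂ * X + C F.e₃)) (C (C F.k₁) * X + C (C F.k₂))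
          (C (C F.k₃)) e'' := by
      unfold rl
      rw [ev_monomial]
    rw [h1]
    congr 1
  rw [h, cf_sum]
  refine Finset.sum_congr rfl fun e'' _ => ?_
  rw [cf_C_mul, mul_comm]
  rfl

theorem mul_rlM {m n a b : ℕ} (hm : m ≤ a) (hn : n ≤ b) {g : ℤ[X][X]} (hg : Bd m n g) :
    mulM a b (a - m) (b - n) (rl F m n g) * rlM F (a - m) (b - n) =
      rlM F a b * (mulM a b (a - m) (b - n) g).map (Int.cast : ℤ → ℝ) := by
  ext e e'
  rw [Matrix.mul_apply, Matrix.mul_apply]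
  have hR : ∑ e'' : E a b, rlM F a b e e'' *
      ((mulM a b (a - m) (b - n) g).map (Int.cast : ℤ → ℝ)) e'' e' =
      cf (rl F a b (g * monomial (e'.2 : ℕ) (monomial (e'.1 : ℕ) 1))) e := by
    rw [rl_eq_sum]
    rfl
  rw [hR]
  have hb : Bd (a - m) (b - n) (monomial (e'.2 : ℕ) (monomial (e'.1 : ℕ) (1 : ℤ))) := Bd.monomial e' 1
  have h2 : rl F a b (g * monomial (e'.2 : ℕ) (monomial (e'.1 : ℕ) 1)) =
      rl F m n g * rl F (a - m) (b - n) (monomial (e'.2 : ℕ) (monomial (e'.1 : ℕ) 1)) := by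
    rw [← rl_mul F hg hb, Nat.add_sub_cancel' hm, Nat.add_sub_cancel' hn]
  rw [h2]
  set h := rl F (a - m) (b - n) (monomial (e'.2 : ℕ) (monomial (e'.1 : ℕ) 1)) with hh
  have h3 : rl F m n g * h = ∑ e'' : E (a - m) (b - n), C (C (cf h e'')) *
      (rl F m n g * monomial (e''.2 : ℕ) (monomial (e''.1 : ℕ) 1)) := by
    have h4 : Bd (a - m) (b - n) h := Bd_rl F (a - m) (b - n) _
    conv_lhs => rw [eq_sum h4, Finset.mul_sum]
    refine Finset.sum_congr rfl fun e'' _ => ?_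
    rw [mul_left_comm]
    congr 1
    rw [Polynomial.C_mul_monomial, Polynomial.C_mul_monomial, mul_one]
  rw [h3, cf_sum]
  refine Finset.sum_congr rfl fun e'' _ => ?_
  rw [cf_C_mul, mul_comm]
  rfl

end Pool.Agent.Work.MP_f2148a_nt.M56.LD
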