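import Mathlib
import Pool.Agent.Work.MP_f2148a_nt.M56.LD.Ev

/-!
# LD/Uni (size M): more than `n a + m b` points on the curve `g = 0` impose independent conditions

`bez` (Bezout): if `f` of bidegree at most `(a, b)` vanishes at all points and `n * a + m * b < card ι`, then `g ∣ f`. PROOF. Suppose not. By `ev_div` (over `ℚ`; `t ≠ 0`, `v ≠ 0`), with `x i = s i / t i` (pairwise
different, `dst`) and `y i = u i / v i`, both `g` and `f` vanish at `(x i, y i)`. Consider `r = Polynomial.resultant g f n b : ℤ[X]` (outer variable eliminated; `g.natDegree = n`, `f.natDegree ≤ b`).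
(1) `r ≠ 0`: map to `k = FractionRing ℤ[X]` (`resultant_map_map`); over the field `k`, `g` is irreducible (Gauss: `Polynomial.IsPrimitive.irreducible_iff_irreducible_map_fraction_map`, `g` is irreducible of positive
degree so primitive, `Irreducible.isPrimitive`) and does not divide `f` (`IsPrimitive.dvd_of_fraction_map_dvd..`), so they are coprime, and `resultant_ne_zero` / `resultant_eq_zero_iff` /
`resultant_add_right_deg` (the degree of `f` may be less than `b`; the factor is a power of the leading coefficient of `g`, not zero). (2) `r (x i) = 0` for every `i`: there are `A, B` with `A g + B f = C r`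
(`exists_mul_add_mul_eq_C_resultant`; needs `n + b > 0`), evaluate at `(x i, y i)`. (3) `natDegree r ≤ n a + m b`: the determinant of the Sylvester matrix, whose columns (or rows) have entries of degree
at most `m` (`b` of them, from `g`) and at most `a` (`n` of them, from `f`): `Matrix.det_apply`, `natDegree_sum_le`, `natDegree_prod_le`. A nonzero polynomial of degree `< card ι` cannot have `card ι`
different roots.

`uni`. Let `D = dq m n a b` and `Z j k = ev a b (w k)` at the point `j` (a matrix `ι × Fin D`). If `Z *ᵥ c = 0` for an integral `c` then `f = ∑ C (C (c k)) * w k` vanishes at all points, `f = g * q` by `bez`, `q` has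
bidegree at most `(a - m, b - n)` (`g` has exact bidegree: `natDegree_mul`; for the degree in `x` swap the variables or use the leading coefficients of largest degree in `x`), so `c = 0` by `hind`. Hence
the columns of `Z` are independent over `ℤ`, thus over `ℚ`, so `D` of the rows are independent (`Matrix.rank_eq_finrank_span_row`, a basis among the rows), the determinant is not zero.
-/

set_option autoImplicit false

namespace Pool.Agent.Work.MP_f2148a_nt.M56.LD

open Polynomial

variable {ι : Type*} [Fintype ι]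

private theorem resultant_ne {m n a b : ℕ} {g : ℤ[X][X]} (hg : Irr m n g) {f : ℤ[X][X]}
    (hf : Bd a b f) (hn : ¬ g ∣ f) : resultant g f n b ≠ 0 := by
  have hn1 := hg.n1
  have hdeg : g.natDegree = n := hg.ex.top
  have hprim : g.IsPrimitive := hg.irr.isPrimitive (by omega)
  set k := FractionRing ℤ[X]
  have hinj : Function.Injective (algebraMap ℤ[X] k) := IsFractionRing.injective _ _
  have hG : Irreducible (g.map (algebraMap ℤ[X] k)) :=
    (hprim.irreducible_iff_irreducible_map_fraction_map (K := k)).mp hg.irr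
  have hnd : ¬ g.map (algebraMap ℤ[X] k) ∣ f.map (algebraMap ℤ[X] k) := fun h =>
    hn (hprim.dvd_of_fraction_map_dvd_fraction_map h)
  have hco : IsCoprime (g.map (algebraMap ℤ[X] k)) (f.map (algebraMap ℤ[X] k)) :=
    hG.coprime_iff_not_dvd.mpr hnd
  have h1 := resultant_ne_zero _ _ hco
  have hGd : (g.map (algebraMap ℤ[X] k)).natDegree = n := by
    rw [natDegree_map_eq_of_injective hinj, hdeg]
  have hFd : (f.map (algebraMap ℤ[X] k)).natDegree ≤ b := by
    rw [natDegree_map_eq_of_injective hinj]
    exact hf.1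
  obtain ⟨j, hj⟩ := Nat.exists_eq_add_of_le hFd
  have h2 := resultant_add_right_deg (g.map (algebraMap ℤ[X] k)) (f.map (algebraMap ℤ[X] k)) n
    (f.map (algebraMap ℤ[X] k)).natDegree j le_rfl
  rw [← hj] at h2
  intro h0
  have h3 : resultant (g.map (algebraMap ℤ[X] k)) (f.map (algebraMap ℤ[X] k)) n b = 0 := by
    rw [resultant_map_map, h0, map_zero]
  rw [h3] at h2
  rw [hGd] at h1
  have h4 : (g.map (algebraMap ℤ[X] k)).coeff n ≠ 0 := by
    rw [← hGd, coeff_natDegree]
    exact leadingCoeff_ne_zero.mpr hG.ne_zero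
  exact (mul_ne_zero (pow_ne_zero _ h4) h1) h2.symm

private theorem natDegree_det_le' {N : ℕ} (M : Matrix (Fin N) (Fin N) ℤ[X]) (d : Fin N → ℕ)
    (h : ∀ i j, (M i j).natDegree ≤ d j) : M.det.natDegree ≤ ∑ j, d j := by
  rw [Matrix.det_apply]
  refine natDegree_sum_le_of_forall_le _ _ fun σ _ => ?_
  refine (natDegree_smul_le _ _).trans ?_
  refine (natDegree_prod_le _ _).trans ?_
  exact Finset.sum_le_sum fun i _ => h _ _

private theorem natDegree_resultant {m n a b : ℕ} {g f : ℤ[X][X]} (hg : Bd m n g) (hf : Bd a b f) :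
    (resultant g f n b).natDegree ≤ n * a + m * b := by
  unfold resultant
  refine (natDegree_det_le' _ (fun j => j.addCases (fun _ => a) (fun _ => m)) ?_).trans ?_
  · intro i j
    induction j using Fin.addCases with
    | left j =>
      simp only [sylvester, Matrix.of_apply, Fin.addCases_left]
      split_ifs
      · exact hf.2 _
      · simp
    | right j =>
      simp only [sylvester, Matrix.of_apply, Fin.addCases_right]
      split_ifs
      · exact hg.2 _
      · simp
  · rw [Fin.sum_univ_add]
    simp only [Fin.addCases_left, Fin.addCases_right]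
    simp [mul_comm]

theorem bez {m n a b : ℕ} {g : ℤ[X][X]} (hg : Irr m n g) {P : Pts ι} (hP : P.On m n g)
    (hc : n * a + m * b < Fintype.card ι) {f : ℤ[X][X]} (hf : Bd a b f)
    (h0 : ∀ i, ev a b f (P.s i) (P.t i) (P.u i) (P.v i) = 0) : g ∣ f := by
  classical
  by_contra hn
  have hr := resultant_ne hg hf hn
  have hdeg := natDegree_resultant hg.ex.bd hf
  set r := resultant g f n b with hrdef
  have hn1 := hg.n1
  obtain ⟨p, q, -, -, hpq⟩ := exists_mul_add_mul_eq_C_resultant g f (m := n) (n := b)
    hg.ex.bd.1 hf.1 (Or.inl (by omega))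
  have hinj : Function.Injective (algebraMap ℤ ℚ) := Int.cast_injective
  set x : ι → ℚ := fun i => (P.s i : ℚ) / (P.t i : ℚ) with hx
  -- values
  have hev : ∀ {a' b' : ℕ} {h : ℤ[X][X]} (_ : Bd a' b' h) (i : ι),
      ev a' b' h (P.s i) (P.t i) (P.u i) (P.v i) = 0 →
      (h.map (eval₂RingHom (algebraMap ℤ ℚ) (x i))).eval ((P.u i : ℚ) / (P.v i : ℚ)) = 0 := by
    intro a' b' h hh i hz
    have ht : (P.t i : ℚ) ≠ 0 := by exact_mod_cast hP.t0 i
    have hv : (P.v i : ℚ) ≠ 0 := by exact_mod_cast hP.v0 i
    have h1 := ev_div hh (P.s i : ℚ) (P.t i : ℚ) (P.u i : ℚ) (P.v i : ℚ) ht hv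
    have h2 : ev a' b' h (P.s i : ℚ) (P.t i : ℚ) (P.u i : ℚ) (P.v i : ℚ) =
        algebraMap ℤ ℚ (ev a' b' h (P.s i) (P.t i) (P.u i) (P.v i)) :=
      ev_map (Algebra.ofId ℤ ℚ) a' b' h (P.s i) (P.t i) (P.u i) (P.v i)
    rw [h2, hz, map_zero] at h1
    have h3 : (P.t i : ℚ) ^ a' * (P.v i : ℚ) ^ b' ≠ 0 :=
      mul_ne_zero (pow_ne_zero _ ht) (pow_ne_zero _ hv)
    exact (mul_eq_zero.mp h1.symm).resolve_left h3
  have hroot : ∀ i, (r.map (algebraMap ℤ ℚ)).eval (x i) = 0 := by
    intro i
    have h1 := hev hg.ex.bd i (hP.zero i)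
    have h2 := hev hf i (h0 i)
    have h3 := congrArg (fun z : ℤ[X][X] => (z.map (eval₂RingHom (algebraMap ℤ ℚ) (x i))).eval
      ((P.u i : ℚ) / (P.v i : ℚ))) hpq
    simp only [Polynomial.map_add, Polynomial.map_mul, eval_add, eval_mul, h1, h2, zero_mul,
      add_zero, map_C, eval_C] at h3
    rw [eval_map, ← coe_eval₂RingHom, ← hrdef] at *
    exact h3.symm
  have hxinj : Function.Injective x := by
    intro i j hij
    by_contra hne
    have ht : (P.t i : ℚ) ≠ 0 := by exact_mod_cast hP.t0 i
    have ht' : (P.t j : ℚ) ≠ 0 := by exact_mod_cast hP.t0 j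
    simp only [hx] at hij
    rw [div_eq_div_iff ht ht'] at hij
    exact hP.dst i j hne (by exact_mod_cast hij)
  have hrm : r.map (algebraMap ℤ ℚ) ≠ 0 := (Polynomial.map_ne_zero_iff hinj).mpr hr
  have hcard : (Finset.univ.image x).card ≤ (r.map (algebraMap ℤ ℚ)).natDegree := by
    refine card_le_degree_of_subset_roots ?_
    intro y hy
    rw [Finset.mem_val, Finset.mem_image] at hy
    obtain ⟨i, -, rfl⟩ := hy
    rw [mem_roots hrm]
    exact hroot i
  rw [Finset.card_image_of_injective _ hxinj, Finset.card_univ,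
    natDegree_map_eq_of_injective hinj] at hcard
  omega

private theorem swap_coeff (f : ℤ[X][X]) (i j : ℕ) :
    ((Bivariate.swap f).coeff i).coeff j = (f.coeff j).coeff i := by
  induction f using Polynomial.induction_on' with
  | add p q hp hq => rw [map_add, coeff_add, coeff_add, hp, hq, coeff_add, coeff_add]
  | monomial n p =>
    induction p using Polynomial.induction_on' with
    | add p q hp hq =>
      rw [map_add, map_add, coeff_add, coeff_add, hp, hq, coeff_add, coeff_add]
    | monomial m r =>
      rw [Bivariate.swap_monomial_monomial, coeff_monomial, coeff_monomial]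
      by_cases h1 : m = i
      · by_cases h2 : n = j
        · rw [if_pos h1, if_pos h2, coeff_monomial, coeff_monomial, if_pos h1, if_pos h2]
        · rw [if_pos h1, if_neg h2, coeff_monomial, if_neg h2, coeff_zero]
      · by_cases h2 : n = j
        · rw [if_neg h1, if_pos h2, coeff_monomial, if_neg h1, coeff_zero]
        · rw [if_neg h1, if_neg h2, coeff_zero, coeff_zero]

private theorem swap_natDegree_le {a : ℕ} {f : ℤ[X][X]} :
    (Bivariate.swap f).natDegree ≤ a ↔ ∀ j, (f.coeff j).natDegree ≤ a := by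
  constructor
  · intro h j
    rw [natDegree_le_iff_coeff_eq_zero]
    intro N hN
    rw [← swap_coeff, coeff_eq_zero_of_natDegree_lt (lt_of_le_of_lt h hN), coeff_zero]
  · intro h
    rw [natDegree_le_iff_coeff_eq_zero]
    intro N hN
    ext j
    rw [swap_coeff, coeff_zero, coeff_eq_zero_of_natDegree_lt (lt_of_le_of_lt (h j) hN)]

private theorem bd_quot {m n a b : ℕ} (hm : m ≤ a) (hn : n ≤ b) {g f q : ℤ[X][X]} (hg : Ex m n g)
    (hg0 : g ≠ 0) (hf : Bd a b f) (hq : f = g * q) : Bd (a - m) (b - n) q := by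
  by_cases hq0 : q = 0
  · subst hq0
    exact Bd.zero
  have h1 : f.natDegree = n + q.natDegree := by
    rw [hq, natDegree_mul hg0 hq0, hg.top]
  refine ⟨by have := hf.1; omega, ?_⟩
  rw [← swap_natDegree_le]
  have hg1 : Bivariate.swap g ≠ 0 := by
    rw [Ne, EmbeddingLike.map_eq_zero_iff]
    exact hg0
  have hq1 : Bivariate.swap q ≠ 0 := by
    rw [Ne, EmbeddingLike.map_eq_zero_iff]
    exact hq0
  have h2 : (Bivariate.swap f).natDegree =
      (Bivariate.swap g).natDegree + (Bivariate.swap q).natDegree := by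
    rw [hq, map_mul, natDegree_mul hg1 hq1]
  have h3 : (Bivariate.swap f).natDegree ≤ a := swap_natDegree_le.mpr hf.2
  have h4 : m ≤ (Bivariate.swap g).natDegree := by
    obtain ⟨j, hj⟩ := hg.wid
    rcases Nat.eq_zero_or_pos m with h0 | hpos
    · omega
    · have h5 : (g.coeff j).coeff m ≠ 0 := by
        rw [← hj, coeff_natDegree]
        refine leadingCoeff_ne_zero.mpr fun hz => ?_
        rw [hz, natDegree_zero] at hj
        omega
      refine le_natDegree_of_ne_zero fun hz => h5 ?_
      rw [← swap_coeff, hz, coeff_zero]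
  omega

/-- a nonzero maximal minor -/
private theorem exists_minor {α β : Type*} [Fintype α] [Fintype β] [DecidableEq β]
    (M : Matrix α β ℚ) (hM : Function.Injective M.mulVec) :
    ∃ R : β → α, Function.Injective R ∧ (Matrix.of fun e e' : β => M (R e) e').det ≠ 0 := by
  classical
  obtain ⟨κ, r, hr, hsp, hli⟩ := exists_linearIndependent' ℚ (fun i : α => (M i : β → ℚ))
  have : Finite κ := Finite.of_injective r hr
  let _ : Fintype κ := Fintype.ofFinite κ
  have hrank : M.rank = Fintype.card β := by
    unfold Matrix.rank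
    rw [LinearMap.finrank_range_of_inj hM]
    simp
  have hc : Fintype.card κ = Fintype.card β := by
    rw [← hrank, Matrix.rank_eq_finrank_span_row]
    have h1 := finrank_span_eq_card hli
    rw [← h1]
    have h2 : Submodule.span ℚ (Set.range M.row) =
        Submodule.span ℚ (Set.range ((fun i : α => (M i : β → ℚ)) ∘ r)) := hsp.symm
    rw [h2]
  obtain ⟨eq⟩ : Nonempty (β ≃ κ) := Fintype.card_eq.mp hc.symm
  refine ⟨r ∘ eq, hr.comp eq.injective, ?_⟩
  have h2 : LinearIndependent ℚ (Matrix.of fun e e' : β => M ((r ∘ eq) e) e').row := by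
    have h3 := hli.comp eq eq.injective
    exact h3
  have h4 := Matrix.linearIndependent_rows_iff_isUnit.mp h2
  rw [Matrix.isUnit_iff_isUnit_det] at h4
  exact h4.ne_zero

theorem uni {m n a b : ℕ} (hm : m ≤ a) (hn : n ≤ b) {g : ℤ[X][X]} (hg : Irr m n g) {P : Pts ι}
    (hP : P.On m n g) (hc : n * a + m * b < Fintype.card ι) (w : Fin (dq m n a b) → ℤ[X][X])
    (hw : ∀ k, Bd a b (w k))
    (hind : ∀ (c : Fin (dq m n a b) → ℤ) (q : ℤ[X][X]), Bd (a - m) (b - n) q →
      ∑ k, C (C (c k)) * w k = g * q → c = 0) :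
    ∃ φ : Fin (dq m n a b) → ι, Function.Injective φ ∧ Matrix.det (Matrix.of fun j k =>
      ev a b (w k) (P.s (φ j)) (P.t (φ j)) (P.u (φ j)) (P.v (φ j))) ≠ 0 := by
  classical
  set Z : ι → Fin (dq m n a b) → ℤ := fun i k =>
    ev a b (w k) (P.s i) (P.t i) (P.u i) (P.v i) with hZ
  have key : ∀ c : Fin (dq m n a b) → ℤ, (∀ i, ∑ k, c k * Z i k = 0) → c = 0 := by
    intro c hcz
    have hbd : Bd a b (∑ k, C (C (c k)) * w k) := Bd.sum _ _ fun k _ => (hw k).C_mul (c k)
    obtain ⟨q, hq⟩ := bez hg hP hc hbd (by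
      intro i
      rw [ev_sum, ← hcz i]
      refine Finset.sum_congr rfl fun k _ => ?_
      rw [ev_C_mul]
      rfl)
    exact hind c q (bd_quot hm hn hg.ex hg.irr.ne_zero hbd hq) hq
  set M : Matrix ι (Fin (dq m n a b)) ℚ := Matrix.of fun i k => (Z i k : ℚ) with hM
  have hli : LinearIndependent ℚ M.col := by
    rw [← LinearIndependent.iff_fractionRing ℤ ℚ, Fintype.linearIndependent_iff]
    intro c hcz
    have h1 := key c (by
      intro i
      have h2 := congrFun hcz i
      rw [Finset.sum_apply] at h2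
      have h3 : ((∑ k, c k * Z i k : ℤ) : ℚ) = 0 := by
        rw [Int.cast_sum]
        refine Eq.trans (Finset.sum_congr rfl fun k _ => ?_) h2
        rw [Pi.smul_apply, zsmul_eq_mul, Int.cast_mul]
        rfl
      exact_mod_cast h3)
    intro k
    rw [h1]
    rfl
  have hinj : Function.Injective M.mulVec := Matrix.mulVec_injective_iff.mpr hli
  obtain ⟨φ, hφ, hd⟩ := exists_minor M hinj
  refine ⟨φ, hφ, fun h0 => hd ?_⟩
  have h1 : (Matrix.of fun e e' : Fin (dq m n a b) => M (φ e) e') =
      (Int.castRingHom ℚ).mapMatrix (Matrix.of fun j k =>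
      ev a b (w k) (P.s (φ j)) (P.t (φ j)) (P.u (φ j)) (P.v (φ j))) := by
    ext i j
    rfl
  rw [h1, ← RingHom.map_det, h0, map_zero]

end Pool.Agent.Work.MP_f2148a_nt.M56.LD
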