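import Mathlib
import Pool.Agent.Work.MP_f2148a_nt.M56.LD.Ev
import Pool.Agent.Work.MP_f2148a_nt.M56.LD.Mnr
import Pool.Agent.Work.MP_f2148a_nt.M56.LD.Sat
import Pool.Agent.Work.MP_f2148a_nt.M56.LD.Uni
import Pool.Agent.Work.MP_f2148a_nt.M56.LD.TDet
import Pool.Agent.Work.MP_f2148a_nt.M56.LD.Lin

set_option autoImplicit false

/-!
# LD/Blk (helper10): the lower bound for one diagonal block
-/

namespace Pool.Agent.Work.MP_f2148a_nt.M56.LD

open Polynomial

private theorem ext_equiv {α β : Type} [Fintype α] [Fintype β] [DecidableEq β] (d : ℕ)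
    (h : Fintype.card (α ⊕ Fin d) = Fintype.card β) (R : α → β) (hR : Function.Injective R) :
    ∃ τ : α ⊕ Fin d ≃ β, ∀ x, τ (Sum.inl x) = R x := by
  classical
  have e1 : α ≃ Set.range R := Equiv.ofInjective R hR
  have hc : Fintype.card (Fin d) = Fintype.card ((Set.range R)ᶜ : Set β) := by
    have h2 := Fintype.card_congr (Equiv.Set.sumCompl (Set.range R))
    rw [Fintype.card_sum] at h2 h
    have h3 := Fintype.card_congr e1
    omega
  have e2 : Fin d ≃ ((Set.range R)ᶜ : Set β) := Fintype.equivOfCardEq hc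
  refine ⟨(Equiv.sumCongr (Equiv.ofInjective R hR) e2).trans (Equiv.Set.sumCompl (Set.range R)),
    fun x => ?_⟩
  simp

private theorem hind_of {m n a b : ℕ} (hm : m ≤ a) (hn : n ≤ b) {g : ℤ[X][X]}
    (w : Fin (dq m n a b) → ℤ[X][X])
    (hunit : ∀ σ : E (a - m) (b - n) ⊕ Fin (dq m n a b) ≃ E a b,
        IsUnit (Matrix.det (Matrix.of fun x y : E (a - m) (b - n) ⊕ Fin (dq m n a b) =>
          Sum.elim (fun e' => mulM a b (a - m) (b - n) g (σ x) e') (fun k => cf (w k) (σ x)) y)))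
    (c : Fin (dq m n a b) → ℤ) (q : ℤ[X][X]) (hq : Bd (a - m) (b - n) q)
    (h : ∑ k, C (C (c k)) * w k = g * q) : c = 0 := by
  have σ : E (a - m) (b - n) ⊕ Fin (dq m n a b) ≃ E a b := Fintype.equivOfCardEq (card_E m n a b hm hn)
  have hdet := (hunit σ).ne_zero
  have h0 : Matrix.mulVec (Matrix.of fun x y : E (a - m) (b - n) ⊕ Fin (dq m n a b) =>
          Sum.elim (fun e' => mulM a b (a - m) (b - n) g (σ x) e') (fun k => cf (w k) (σ x)) y)
      (Sum.elim (fun e' => - cf q e') c) = 0 := by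
    funext x
    rw [Matrix.mulVec, dotProduct, Fintype.sum_sum_type]
    simp only [Matrix.of_apply, Sum.elim_inl, Sum.elim_inr, Pi.zero_apply]
    have h1 : cf (g * q) (σ x) = ∑ e', mulM a b (a - m) (b - n) g (σ x) e' * cf q e' := by
      conv_lhs => rw [eq_sum hq, Finset.mul_sum]
      unfold cf
      rw [finsetSum_coeff, finsetSum_coeff]
      refine Finset.sum_congr rfl fun e' _ => ?_
      have h2 : g * monomial (e'.2 : ℕ) (monomial (e'.1 : ℕ) ((q.coeff e'.2).coeff e'.1)) =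
          C (C ((q.coeff e'.2).coeff e'.1)) * (g * monomial (e'.2 : ℕ) (monomial (e'.1 : ℕ) 1)) := by
        have h3 : monomial (e'.2 : ℕ) (monomial (e'.1 : ℕ) ((q.coeff e'.2).coeff e'.1)) =
            C (C ((q.coeff e'.2).coeff e'.1)) * monomial (e'.2 : ℕ) (monomial (e'.1 : ℕ) 1) := by
          rw [C_mul_monomial, C_mul_monomial, mul_one]
        rw [h3]
        ring
      rw [h2, coeff_C_mul, coeff_C_mul]
      unfold mulM cf
      ring
    have h2 : cf (∑ k, C (C (c k)) * w k) (σ x) = ∑ k, cf (w k) (σ x) * c k := by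
      unfold cf
      rw [finsetSum_coeff, finsetSum_coeff]
      refine Finset.sum_congr rfl fun k _ => ?_
      rw [coeff_C_mul, coeff_C_mul, mul_comm]
    rw [h, h1] at h2
    simp only [mul_neg, Finset.sum_neg_distrib]
    rw [h2]
    ring
  have h3 := Matrix.eq_zero_of_mulVec_eq_zero hdet h0
  funext k
  exact congrFun h3 (Sum.inr k)

theorem blk (m n a b : ℕ) (hm : m ≤ a) (hn : n ≤ b) : ∃ c : ℝ, 0 < c ∧
    ∀ (F : Frame), F.Uni → ∀ g : ℤ[X][X], Irr m n g → ∀ (ι : Type) [Fintype ι] (P : Pts ι),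
      P.On m n g → n * a + m * b < Fintype.card ι → ∀ p : ℕ, P.Dv p →
      ∀ (d₁ d₂ ξ υ : ι → ℝ), (∀ i, (P.s i : ℝ) = F.e₁ * d₁ i) →
      (∀ i, (P.t i : ℝ) = F.e₂ * d₁ i + F.e₃ * d₂ i) →
      (∀ i, (P.u i : ℝ) = F.k₁ * ξ i + F.k₂ * υ i) → (∀ i, (P.v i : ℝ) = F.k₃ * υ i) →
      ∃ (φ : Fin (dq m n a b) → ι) (e : Fin (dq m n a b) → E a b), Function.Injective φ ∧
        c * ht (cf (rl F m n g) : E m n → ℝ) ^ ((a - m + 1) * (b - n + 1)) *
            (p : ℝ) ^ (dq m n a b * (dq m n a b - 1) / 2) ≤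
          |(Matrix.of fun j k : Fin (dq m n a b) =>
            mon a b (d₁ (φ j)) (d₂ (φ j)) (ξ (φ j)) (υ (φ j)) (e k)).det| := by
  obtain ⟨c, hc, hmnr⟩ := mnr m n a b hm hn
  refine ⟨c * 9 ^ ((b - n + 1) * ((a - m) * (a - m + 1) / 2)) / 9 ^ ((b + 1) * (a * (a + 1) / 2)),
    by positivity, ?_⟩
  intro F hF g hg ι _ P hP hcard p hDv d₁ d₂ ξ υ hs ht' hu hv
  obtain ⟨w, hw, hunit⟩ := sat m n a b hm hn g hg
  obtain ⟨φ, hφ, hdet⟩ := uni hm hn hg hP hcard w hw (hind_of hm hn w hunit)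
  obtain ⟨R, hR, hmin⟩ := hmnr (rl F m n g) (Bd_rl F m n g)
  obtain ⟨τ, hτ⟩ := ext_equiv (dq m n a b) (card_E m n a b hm hn) R hR
  refine ⟨φ, fun k => τ (Sum.inr k), hφ, ?_⟩
  have σ : E (a - m) (b - n) ⊕ Fin (dq m n a b) ≃ E a b := Fintype.equivOfCardEq (card_E m n a b hm hn)
  -- the integral determinant
  have hI : (p : ℝ) ^ (dq m n a b * (dq m n a b - 1) / 2) ≤ |((Matrix.det (Matrix.of fun j k =>
      ev a b (w k) (P.s (φ j)) (P.t (φ j)) (P.u (φ j)) (P.v (φ j))) : ℤ) : ℝ)| := by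
    have h1 := hDv (dq m n a b) a b w φ
    have h2 := Int.le_of_dvd (abs_pos.mpr hdet) ((dvd_abs _ _).mpr h1)
    have h3 : (((p ^ (dq m n a b * (dq m n a b - 1) / 2) : ℕ) : ℤ) : ℝ) ≤
      ((|Matrix.det (Matrix.of fun j k =>
        ev a b (w k) (P.s (φ j)) (P.t (φ j)) (P.u (φ j)) (P.v (φ j)))| : ℤ) : ℝ) := by
      exact_mod_cast h2
    rw [Int.cast_abs] at h3
    push_cast at h3 ⊢
    exact h3
  -- the matrices
  let G : Matrix (E a b) (E (a - m) (b - n)) ℝ := (mulM a b (a - m) (b - n) g).map (Int.cast : ℤ → ℝ)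
  let Wm : Matrix (E a b) (Fin (dq m n a b)) ℝ := Matrix.of fun e k => ((cf (w k) e : ℤ) : ℝ)
  let Z : Matrix (Fin (dq m n a b)) (E a b) ℝ := Matrix.of fun j e =>
    ((mon a b (P.s (φ j)) (P.t (φ j)) (P.u (φ j)) (P.v (φ j)) e : ℤ) : ℝ)
  let ZR : Matrix (Fin (dq m n a b)) (E a b) ℝ := Matrix.of fun j e =>
    mon a b (d₁ (φ j)) (d₂ (φ j)) (ξ (φ j)) (υ (φ j)) e
  have hZW : Z * Wm = (Matrix.of fun j k =>
      ev a b (w k) (P.s (φ j)) (P.t (φ j)) (P.u (φ j)) (P.v (φ j))).map (Int.cast : ℤ → ℝ) := by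
    ext j k
    rw [Matrix.mul_apply, Matrix.map_apply, Matrix.of_apply]
    unfold ev
    push_cast
    refine Finset.sum_congr rfl fun e _ => ?_
    simp only [Z, Wm, Matrix.of_apply]
    simp [mul_comm]
  have hZ : Z * G = 0 := by
    ext j e'
    rw [Matrix.mul_apply, Matrix.zero_apply]
    have h1 : ev a b (g * monomial (e'.2 : ℕ) (monomial (e'.1 : ℕ) (1 : ℤ))) (P.s (φ j)) (P.t (φ j))
        (P.u (φ j)) (P.v (φ j)) = 0 := by
      have h2 := ev_mul (S := ℤ) hg.ex.bd (Bd.monomial e' (1 : ℤ)) (P.s (φ j)) (P.t (φ j))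
        (P.u (φ j)) (P.v (φ j))
      rw [hP.zero, zero_mul, Nat.add_sub_cancel' hm, Nat.add_sub_cancel' hn] at h2
      exact h2
    have h2 := congrArg (Int.cast : ℤ → ℝ) h1
    unfold ev at h2
    push_cast at h2
    rw [← h2]
    refine Finset.sum_congr rfl fun e _ => ?_
    simp only [Z, G, Matrix.of_apply, Matrix.map_apply, mulM]
    simp [mul_comm]
  have hZR : ZR * rlM F a b = Z := by
    ext j e'
    rw [Matrix.mul_apply]
    simp only [Z, ZR, Matrix.of_apply]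
    rw [mon_rlM, ← hs, ← ht', ← hu, ← hv]
    exact mon_map (Int.castRingHom ℝ) a b _ _ _ _ e'
  have key := lin σ τ G Wm Z hZ (rlM F a b) (rlM F (a - m) (b - n))
    (mulM a b (a - m) (b - n) (rl F m n g)) (mul_rlM F hm hn hg.ex.bd) ZR hZR
  have h1 : |(Matrix.of fun x y : E (a - m) (b - n) ⊕ Fin (dq m n a b) =>
      Sum.elim (fun z => G (σ x) z) (fun k => Wm (σ x) k) y).det| = 1 := by
    have h2 := hunit σ
    have h3 : (Matrix.of fun x y : E (a - m) (b - n) ⊕ Fin (dq m n a b) =>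
        Sum.elim (fun z => G (σ x) z) (fun k => Wm (σ x) k) y) =
        (Matrix.of fun x y : E (a - m) (b - n) ⊕ Fin (dq m n a b) =>
          Sum.elim (fun e' => mulM a b (a - m) (b - n) g (σ x) e')
            (fun k => cf (w k) (σ x)) y).map (Int.cast : ℤ → ℝ) := by
      ext x y
      rcases y with y | y <;> rfl
    have h4 := Int.isUnit_iff_abs_eq.mp h2
    rw [h3]
    have h5 := (Int.castRingHom ℝ).map_det (Matrix.of fun x y : E (a - m) (b - n) ⊕ Fin (dq m n a b) =>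
          Sum.elim (fun e' => mulM a b (a - m) (b - n) g (σ x) e')
            (fun k => cf (w k) (σ x)) y)
    have h6 : ((Matrix.of fun x y : E (a - m) (b - n) ⊕ Fin (dq m n a b) =>
          Sum.elim (fun e' => mulM a b (a - m) (b - n) g (σ x) e')
            (fun k => cf (w k) (σ x)) y).map (Int.cast : ℤ → ℝ)).det =
        (((Matrix.of fun x y : E (a - m) (b - n) ⊕ Fin (dq m n a b) =>
          Sum.elim (fun e' => mulM a b (a - m) (b - n) g (σ x) e')
            (fun k => cf (w k) (σ x)) y).det : ℤ) : ℝ) := h5.symm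
    rw [h6, ← Int.cast_abs, h4, Int.cast_one]
  have h2 : (Z * Wm).det = ((Matrix.det (Matrix.of fun j k =>
      ev a b (w k) (P.s (φ j)) (P.t (φ j)) (P.u (φ j)) (P.v (φ j))) : ℤ) : ℝ) := by
    rw [hZW]
    exact ((Int.castRingHom ℝ).map_det (Matrix.of fun j k =>
      ev a b (w k) (P.s (φ j)) (P.t (φ j)) (P.u (φ j)) (P.v (φ j)))).symm
  have h3 : ((mulM a b (a - m) (b - n) (rl F m n g)).submatrix (fun x => τ (Sum.inl x)) id) =
      (Matrix.of fun e e' : E (a - m) (b - n) => mulM a b (a - m) (b - n) (rl F m n g) (R e) e') := by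
    ext x y
    simp [hτ]
  have h4 : (ZR.submatrix id (fun x => τ (Sum.inr x))) = (Matrix.of fun j k : Fin (dq m n a b) =>
            mon a b (d₁ (φ j)) (d₂ (φ j)) (ξ (φ j)) (υ (φ j)) (τ (Sum.inr k))) := by
    ext x y
    rfl
  rw [h1, h2, h3, h4, rlM_det F hF, rlM_det F hF, mul_one, abs_of_pos (show (0:ℝ) < 9 ^ ((b + 1) * (a * (a + 1) / 2)) by positivity),
    abs_of_pos (show (0:ℝ) < 9 ^ ((b - n + 1) * ((a - m) * (a - m + 1) / 2)) by positivity)] at key
  have h9 : (0:ℝ) < 9 ^ ((b + 1) * (a * (a + 1) / 2)) := by positivity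
  rw [← mul_le_mul_iff_of_pos_right h9, key]
  have e1 : c * 9 ^ ((b - n + 1) * ((a - m) * (a - m + 1) / 2)) / 9 ^ ((b + 1) * (a * (a + 1) / 2)) *
      ht (cf (rl F m n g) : E m n → ℝ) ^ ((a - m + 1) * (b - n + 1)) *
            (p : ℝ) ^ (dq m n a b * (dq m n a b - 1) / 2) * 9 ^ ((b + 1) * (a * (a + 1) / 2)) =
      (p : ℝ) ^ (dq m n a b * (dq m n a b - 1) / 2) *
        (c * ht (cf (rl F m n g) : E m n → ℝ) ^ ((a - m + 1) * (b - n + 1))) *
        9 ^ ((b - n + 1) * ((a - m) * (a - m + 1) / 2)) := by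
    field_simp
  have h0 : 0 ≤ ht (cf (rl F m n g) : E m n → ℝ) := Finset.sum_nonneg fun _ _ => abs_nonneg _
  rw [e1]
  exact mul_le_mul_of_nonneg_right (mul_le_mul hI hmin (by positivity) (abs_nonneg _)) (by positivity)

end Pool.Agent.Work.MP_f2148a_nt.M56.LD
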