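import Mathlib

set_option autoImplicit false

/-!
# LD/CB (size S-M, Mathlib only): the determinant of a product of rectangular matrices, with weights

PROOF. `(Rw * Cl).det = ∑ f : ι → κ, (∏ i, Cl (f i) i) * (Matrix.of fun j i => Rw j (f i)).det`: expand by multilinearity in the columns
(`Matrix.det_apply`, `Matrix.mul_apply`, `Finset.prod_univ_sum`, `Finset.sum_comm`, as in the proof of `Matrix.det_mul_aux` / `Matrix.det_mul` in Mathlib). If `f` is not injective, two columns
agree and the determinant is `0` (`Matrix.det_zero_of_column_eq`). If `f` is injective, `|det| ≤ (card ι)! * ∏ i, (C₁ * w (f i)) ≤ (card ι)! * C₁ ^ card ι * W` (sum over permutations).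
`∏ i, |Cl (f i) i| ≤ ∏ i, Bc i`. The number of functions `f` is `(card κ) ^ (card ι)`.
-/

namespace Pool.Agent.Work.MP_f2148a_nt.M56.LD

theorem det_le {ι κ : Type*} [Fintype ι] [DecidableEq ι] [Fintype κ] [DecidableEq κ]
    (Rw : Matrix ι κ ℝ) (Cl : Matrix κ ι ℝ) (w : κ → ℝ) (hw : ∀ x, 0 ≤ w x) (C₁ : ℝ)
    (hC : 0 ≤ C₁) (hR : ∀ i x, |Rw i x| ≤ C₁ * w x) (Bc : ι → ℝ) (hB : ∀ i, 0 ≤ Bc i)
    (hCl : ∀ x i, |Cl x i| ≤ Bc i) (W : ℝ) (hW0 : 0 ≤ W)
    (hW : ∀ f : ι → κ, Function.Injective f → ∏ i, w (f i) ≤ W) :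
    |(Rw * Cl).det| ≤ (Fintype.card κ : ℝ) ^ Fintype.card ι * (Fintype.card ι).factorial *
      C₁ ^ Fintype.card ι * (∏ i, Bc i) * W := by
  have h1 : (Rw * Cl).det =
      ∑ f : ι → κ, (∏ i, Cl (f i) i) * (Matrix.of fun j i => Rw j (f i)).det := by
    simp only [Matrix.det_apply', Matrix.mul_apply, Matrix.of_apply, Finset.mul_sum]
    rw [Finset.sum_comm]
    refine Finset.sum_congr rfl fun σ _ => ?_
    rw [Finset.prod_univ_sum, Fintype.piFinset_univ, Finset.mul_sum]
    refine Finset.sum_congr rfl fun f _ => ?_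
    rw [Finset.prod_mul_distrib]
    ring
  have hn : 0 ≤ ∏ i, Bc i := Finset.prod_nonneg fun i _ => hB i
  have h2 : ∀ f : ι → κ, |(∏ i, Cl (f i) i) * (Matrix.of fun j i => Rw j (f i)).det| ≤
      (∏ i, Bc i) * ((Fintype.card ι).factorial * (C₁ ^ Fintype.card ι * W)) := by
    intro f
    rw [abs_mul]
    refine mul_le_mul ?_ ?_ (abs_nonneg _) hn
    · rw [Finset.abs_prod]
      exact Finset.prod_le_prod (fun i _ => abs_nonneg _) fun i _ => hCl _ _
    · by_cases hf : Function.Injective f
      · rw [Matrix.det_apply']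
        refine (Finset.abs_sum_le_sum_abs _ _).trans ?_
        have h3 : ∀ σ ∈ (Finset.univ : Finset (Equiv.Perm ι)),
            |((Equiv.Perm.sign σ : ℤ) : ℝ) * ∏ i, (Matrix.of fun j i => Rw j (f i)) (σ i) i| ≤
              C₁ ^ Fintype.card ι * W := by
          intro σ _
          rw [abs_mul]
          have h4 : |((Equiv.Perm.sign σ : ℤ) : ℝ)| = 1 := by
            rcases Int.units_eq_one_or (Equiv.Perm.sign σ) with h | h <;> simp [h]
          rw [h4, one_mul, Finset.abs_prod]
          calc ∏ i, |(Matrix.of fun j i => Rw j (f i)) (σ i) i|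
              ≤ ∏ i, (C₁ * w (f i)) :=
                Finset.prod_le_prod (fun i _ => abs_nonneg _) fun i _ => hR _ _
            _ = C₁ ^ Fintype.card ι * ∏ i, w (f i) := by
                rw [Finset.prod_mul_distrib, Finset.prod_const, Finset.card_univ]
            _ ≤ C₁ ^ Fintype.card ι * W :=
                mul_le_mul_of_nonneg_left (hW f hf) (pow_nonneg hC _)
        refine (Finset.sum_le_card_nsmul _ _ _ h3).trans ?_
        rw [Finset.card_univ, Fintype.card_perm, nsmul_eq_mul]
      · have h5 : (Matrix.of fun j i => Rw j (f i)).det = 0 := by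
          rw [Function.Injective] at hf
          push Not at hf
          obtain ⟨a, b, hab, hne⟩ := hf
          refine Matrix.det_zero_of_column_eq hne fun k => ?_
          rw [Matrix.of_apply, Matrix.of_apply, hab]
        rw [h5, abs_zero]
        positivity
  rw [h1]
  refine (Finset.abs_sum_le_sum_abs _ _).trans ?_
  refine (Finset.sum_le_card_nsmul _ _ _ fun f _ => h2 f).trans (le_of_eq ?_)
  rw [Finset.card_univ, Fintype.card_fun, nsmul_eq_mul]
  push_cast
  ring

end Pool.Agent.Work.MP_f2148a_nt.M56.LD
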