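import Mathlib
import Pool.Agent.Work.MP_f2148a_nt.M56.LD.Defs

set_option autoImplicit false

/-!
# LD/Nrm (size M, Mathlib only): the weighted norm on `ℝ[r, γ]`

`nrm ρ γ F = ∑ |coefficient| * ρ ^ x₀ * γ ^ x₁` (`wt`). `wt (x + y) = wt x * wt y`.

* `nrm_add`, `nrm_mul`: triangle inequality; for `mul` use `MvPolynomial.coeff_mul` (antidiagonal) or write both as sums of monomials (`MvPolynomial.support_sum_monomial_coeff`)
  and use `nrm_add` and `nrm (monomial x c * G) ≤ |c| * wt x * nrm G`. `nrm_pow` by induction (`nrm 1 = 1`).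
* `abs_at2_le`: `MvPolynomial.eval_eq` (sum over the support of coefficient times product), `|r| ≤ ρ`, `|z| ≤ γ`.
* `coeff_le`, `coeff_wt_le`: one term of the sum.
* `nrm_der`: `F = ∑ monomial x c`; `D (monomial x c)` is the sum of `x₀ * c * (monomial (x - e₀) 1) * D (X 0)` and the same for `X 1` (write `monomial x c = C c * X 0 ^ x₀ * X 1 ^ x₁` and use
  `Derivation.leibniz`, `Derivation.leibniz_pow`, or `MvPolynomial.mkDerivation` / `Derivation.map_coe..`), so its norm is at most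
  `|c| * (x₀ * ρ ^ (x₀ - 1) * γ ^ x₁ * (B ρ) + x₁ * ρ ^ x₀ * γ ^ (x₁ - 1) * (B γ)) = B * (x₀ + x₁) * |c| * wt x`, and `x₀ + x₁ ≤ totalDegree F`.
-/

namespace Pool.Agent.Work.MP_f2148a_nt.M56.LD

open MvPolynomial

theorem wt_nonneg {ρ γ : ℝ} (hρ : 0 ≤ ρ) (hγ : 0 ≤ γ) (x : Fin 2 →₀ ℕ) : 0 ≤ wt ρ γ x := by
  unfold wt
  positivity

private theorem wt_add (ρ γ : ℝ) (x y : Fin 2 →₀ ℕ) : wt ρ γ (x + y) = wt ρ γ x * wt ρ γ y := by
  unfold wt
  rw [Finsupp.add_apply, Finsupp.add_apply, pow_add, pow_add]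
  ring

theorem nrm_nonneg {ρ γ : ℝ} (hρ : 0 ≤ ρ) (hγ : 0 ≤ γ) (F : A) : 0 ≤ nrm ρ γ F := by
  unfold nrm
  exact Finset.sum_nonneg fun x _ => mul_nonneg (abs_nonneg _) (wt_nonneg hρ hγ x)

private theorem nrm_eq {ρ γ : ℝ} {F : A} {T : Finset (Fin 2 →₀ ℕ)} (h : F.support ⊆ T) :
    nrm ρ γ F = ∑ x ∈ T, |coeff x F| * wt ρ γ x := by
  unfold nrm
  refine Finset.sum_subset h fun x _ hx => ?_
  rw [notMem_support_iff.1 hx, abs_zero, zero_mul]

theorem nrm_monomial (ρ γ c : ℝ) (x : Fin 2 →₀ ℕ) : nrm ρ γ (monomial x c) = |c| * wt ρ γ x := by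
  classical
  have h : (monomial x c : A).support ⊆ {x} := support_monomial_subset
  rw [nrm_eq h, Finset.sum_singleton, coeff_monomial, if_pos rfl]

theorem nrm_C (ρ γ c : ℝ) : nrm ρ γ (C c) = |c| := by
  have h := nrm_monomial ρ γ c 0
  rw [← C_apply] at h
  rw [h]
  unfold wt
  simp

theorem nrm_add {ρ γ : ℝ} (hρ : 0 ≤ ρ) (hγ : 0 ≤ γ) (F G : A) :
    nrm ρ γ (F + G) ≤ nrm ρ γ F + nrm ρ γ G := by
  classical
  rw [nrm_eq (support_add (p := F) (q := G)),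
    nrm_eq (Finset.subset_union_left (s₁ := F.support) (s₂ := G.support)),
    nrm_eq (Finset.subset_union_right (s₁ := F.support) (s₂ := G.support)),
    ← Finset.sum_add_distrib]
  refine Finset.sum_le_sum fun x _ => ?_
  rw [coeff_add, ← add_mul]
  exact mul_le_mul_of_nonneg_right (abs_add_le _ _) (wt_nonneg hρ hγ x)

theorem nrm_sum {ρ γ : ℝ} (hρ : 0 ≤ ρ) (hγ : 0 ≤ γ) {ι : Type*} (s : Finset ι) (F : ι → A) :
    nrm ρ γ (∑ i ∈ s, F i) ≤ ∑ i ∈ s, nrm ρ γ (F i) := by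
  classical
  induction s using Finset.induction_on with
  | empty =>
    rw [Finset.sum_empty, Finset.sum_empty]
    unfold nrm
    simp
  | insert i s hi ih =>
    rw [Finset.sum_insert hi, Finset.sum_insert hi]
    exact (nrm_add hρ hγ _ _).trans (add_le_add_right ih _)

theorem nrm_mul {ρ γ : ℝ} (hρ : 0 ≤ ρ) (hγ : 0 ≤ γ) (F G : A) :
    nrm ρ γ (F * G) ≤ nrm ρ γ F * nrm ρ γ G := by
  have h : F * G = ∑ x ∈ F.support, ∑ y ∈ G.support,
      monomial (x + y) (coeff x F * coeff y G) := by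
    conv_lhs => rw [F.as_sum, G.as_sum, Finset.sum_mul]
    refine Finset.sum_congr rfl fun x _ => ?_
    rw [Finset.mul_sum]
    refine Finset.sum_congr rfl fun y _ => ?_
    rw [monomial_mul]
  rw [h]
  refine (nrm_sum hρ hγ _ _).trans ?_
  have h2 : nrm ρ γ F * nrm ρ γ G = ∑ x ∈ F.support, ∑ y ∈ G.support,
      |coeff x F * coeff y G| * wt ρ γ (x + y) := by
    unfold nrm
    rw [Finset.sum_mul_sum]
    refine Finset.sum_congr rfl fun x _ => Finset.sum_congr rfl fun y _ => ?_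
    rw [wt_add, abs_mul]
    ring
  rw [h2]
  refine Finset.sum_le_sum fun x _ => (nrm_sum hρ hγ _ _).trans ?_
  refine Finset.sum_le_sum fun y _ => ?_
  rw [nrm_monomial]

theorem nrm_pow {ρ γ : ℝ} (hρ : 0 ≤ ρ) (hγ : 0 ≤ γ) (F : A) (k : ℕ) :
    nrm ρ γ (F ^ k) ≤ nrm ρ γ F ^ k := by
  induction k with
  | zero =>
    rw [pow_zero, pow_zero, ← C_1, nrm_C, abs_one]
  | succ k ih =>
    rw [pow_succ, pow_succ]
    exact (nrm_mul hρ hγ _ _).trans (mul_le_mul_of_nonneg_right ih (nrm_nonneg hρ hγ F))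

theorem abs_at2_le {ρ γ r z : ℝ} (hr : |r| ≤ ρ) (hz : |z| ≤ γ) (F : A) :
    |at2 r z F| ≤ nrm ρ γ F := by
  unfold at2 nrm
  rw [eval_eq']
  refine (Finset.abs_sum_le_sum_abs _ _).trans (Finset.sum_le_sum fun x _ => ?_)
  rw [abs_mul, Fin.prod_univ_two, abs_mul, abs_pow, abs_pow]
  refine mul_le_mul_of_nonneg_left ?_ (abs_nonneg _)
  unfold wt
  have h0 : 0 ≤ ρ := (abs_nonneg _).trans hr
  refine mul_le_mul ?_ ?_ (by positivity) (by positivity)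
  · exact pow_le_pow_left₀ (abs_nonneg _) hr _
  · exact pow_le_pow_left₀ (abs_nonneg _) hz _

/-- one coefficient -/
theorem coeff_wt_le {ρ γ : ℝ} (hρ : 0 ≤ ρ) (hγ : 0 ≤ γ) (F : A) (x : Fin 2 →₀ ℕ) :
    |coeff x F| * wt ρ γ x ≤ nrm ρ γ F := by
  classical
  by_cases hx : x ∈ F.support
  · unfold nrm
    exact Finset.single_le_sum (f := fun y => |coeff y F| * wt ρ γ y)
      (fun y _ => mul_nonneg (abs_nonneg _) (wt_nonneg hρ hγ y)) hx
  · rw [notMem_support_iff.1 hx, abs_zero, zero_mul]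
    exact nrm_nonneg hρ hγ F

theorem coeff_le (F : A) (x : Fin 2 →₀ ℕ) : |coeff x F| ≤ nrm 1 1 F := by
  have h := coeff_wt_le (ρ := 1) (γ := 1) zero_le_one zero_le_one F x
  unfold wt at h
  simpa using h

private theorem monomial_eq2 (x : Fin 2 →₀ ℕ) (c : ℝ) :
    (monomial x c : A) = C c * (X 0 ^ x 0 * X 1 ^ x 1) := by
  rw [monomial_eq, Finsupp.prod_fintype _ _ (fun i => pow_zero _), Fin.prod_univ_two]

private theorem nrm_X0 (ρ γ : ℝ) (hρ : 0 ≤ ρ) : nrm ρ γ (X 0 : A) = ρ := by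
  have h := nrm_monomial ρ γ 1 (Finsupp.single 0 1)
  have h2 : (X 0 : A) = monomial (Finsupp.single 0 1) 1 := rfl
  rw [h2, h]
  unfold wt
  simp

private theorem nrm_X1 (ρ γ : ℝ) (hγ : 0 ≤ γ) : nrm ρ γ (X 1 : A) = γ := by
  have h := nrm_monomial ρ γ 1 (Finsupp.single 1 1)
  have h2 : (X 1 : A) = monomial (Finsupp.single 1 1) 1 := rfl
  rw [h2, h]
  unfold wt
  simp

private theorem pow_step {ρ : ℝ} (a : ℕ) : (a : ℝ) * ρ ^ (a - 1) * ρ = a * ρ ^ a := by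
  rcases a with _ | a
  · simp
  · rw [Nat.add_sub_cancel, pow_succ]
    ring

theorem nrm_der {ρ γ B : ℝ} (hρ : 0 ≤ ρ) (hγ : 0 ≤ γ) (hB : 0 ≤ B) (D : Derivation ℝ A A)
    (h0 : nrm ρ γ (D (X 0)) ≤ B * ρ) (h1 : nrm ρ γ (D (X 1)) ≤ B * γ) (F : A) :
    nrm ρ γ (D F) ≤ B * F.totalDegree * nrm ρ γ F := by
  have hD : D F = ∑ x ∈ F.support, D (monomial x (coeff x F)) := by
    conv_lhs => rw [F.as_sum]
    rw [map_sum]
  have hmon : ∀ x c, nrm ρ γ (D (monomial x c)) ≤ B * (x 0 + x 1 : ℕ) * (|c| * wt ρ γ x) := by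
    intro x c
    have e1 : D (monomial x c) = C c * (X 1 ^ x 1 * ((x 0 : ℕ) • (X 0 ^ (x 0 - 1) * D (X 0)))) +
        C c * (X 0 ^ x 0 * ((x 1 : ℕ) • (X 1 ^ (x 1 - 1) * D (X 1)))) := by
      rw [monomial_eq2, Derivation.leibniz, Derivation.leibniz, Derivation.leibniz_pow,
        Derivation.leibniz_pow]
      have hC : D (C c) = 0 := D.map_algebraMap c
      rw [hC]
      simp only [smul_eq_mul, smul_zero, add_zero, nsmul_eq_mul]
      ring
    have hp0 : nrm ρ γ (X 0 ^ (x 0 - 1) : A) ≤ ρ ^ (x 0 - 1) := by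
      have := nrm_pow hρ hγ (X 0 : A) (x 0 - 1)
      rwa [nrm_X0 ρ γ hρ] at this
    have hp1 : nrm ρ γ (X 1 ^ (x 1 - 1) : A) ≤ γ ^ (x 1 - 1) := by
      have := nrm_pow hρ hγ (X 1 : A) (x 1 - 1)
      rwa [nrm_X1 ρ γ hγ] at this
    have hq0 : nrm ρ γ (X 0 ^ x 0 : A) ≤ ρ ^ x 0 := by
      have := nrm_pow hρ hγ (X 0 : A) (x 0)
      rwa [nrm_X0 ρ γ hρ] at this
    have hq1 : nrm ρ γ (X 1 ^ x 1 : A) ≤ γ ^ x 1 := by
      have := nrm_pow hρ hγ (X 1 : A) (x 1)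
      rwa [nrm_X1 ρ γ hγ] at this
    have hns : ∀ (k : ℕ) (G : A), nrm ρ γ (k • G) ≤ k * nrm ρ γ G := by
      intro k G
      have h2 : (k • G : A) = C (k : ℝ) * G := by
        rw [nsmul_eq_mul, map_natCast]
      rw [h2]
      refine (nrm_mul hρ hγ _ _).trans (le_of_eq ?_)
      rw [nrm_C, abs_of_nonneg (Nat.cast_nonneg k)]
    have nn := nrm_nonneg (ρ := ρ) (γ := γ) hρ hγ
    have t1 : nrm ρ γ (C c * (X 1 ^ x 1 * ((x 0 : ℕ) • (X 0 ^ (x 0 - 1) * D (X 0))))) ≤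
        |c| * (γ ^ x 1 * ((x 0 : ℕ) * (ρ ^ (x 0 - 1) * (B * ρ)))) := by
      refine (nrm_mul hρ hγ _ _).trans ?_
      rw [nrm_C]
      refine mul_le_mul_of_nonneg_left ?_ (abs_nonneg c)
      refine (nrm_mul hρ hγ _ _).trans ?_
      refine mul_le_mul hq1 ?_ (nn _) (by positivity)
      refine (hns _ _).trans ?_
      refine mul_le_mul_of_nonneg_left ?_ (Nat.cast_nonneg _)
      refine (nrm_mul hρ hγ _ _).trans ?_
      exact mul_le_mul hp0 h0 (nn _) (by positivity)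
    have t2 : nrm ρ γ (C c * (X 0 ^ x 0 * ((x 1 : ℕ) • (X 1 ^ (x 1 - 1) * D (X 1))))) ≤
        |c| * (ρ ^ x 0 * ((x 1 : ℕ) * (γ ^ (x 1 - 1) * (B * γ)))) := by
      refine (nrm_mul hρ hγ _ _).trans ?_
      rw [nrm_C]
      refine mul_le_mul_of_nonneg_left ?_ (abs_nonneg c)
      refine (nrm_mul hρ hγ _ _).trans ?_
      refine mul_le_mul hq0 ?_ (nn _) (by positivity)
      refine (hns _ _).trans ?_
      refine mul_le_mul_of_nonneg_left ?_ (Nat.cast_nonneg _)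
      refine (nrm_mul hρ hγ _ _).trans ?_
      exact mul_le_mul hp1 h1 (nn _) (by positivity)
    rw [e1]
    refine (nrm_add hρ hγ _ _).trans ((add_le_add t1 t2).trans (le_of_eq ?_))
    have s1 := pow_step (ρ := ρ) (x 0)
    have s2 := pow_step (ρ := γ) (x 1)
    unfold wt
    have r1 : |c| * (γ ^ x 1 * ((x 0 : ℕ) * (ρ ^ (x 0 - 1) * (B * ρ)))) =
        |c| * B * γ ^ x 1 * ((x 0 : ℝ) * ρ ^ (x 0 - 1) * ρ) := by ring
    have r2 : |c| * (ρ ^ x 0 * ((x 1 : ℕ) * (γ ^ (x 1 - 1) * (B * γ)))) =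
        |c| * B * ρ ^ x 0 * ((x 1 : ℝ) * γ ^ (x 1 - 1) * γ) := by ring
    rw [r1, r2, s1, s2]
    push_cast
    ring
  rw [hD]
  refine (nrm_sum hρ hγ _ _).trans ?_
  have h3 : B * F.totalDegree * nrm ρ γ F =
      ∑ x ∈ F.support, B * F.totalDegree * (|coeff x F| * wt ρ γ x) := by
    unfold nrm
    rw [Finset.mul_sum]
  rw [h3]
  refine Finset.sum_le_sum fun x hx => (hmon x _).trans ?_
  have h4 : x 0 + x 1 ≤ F.totalDegree := by
    have h5 := le_totalDegree hx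
    rw [Finsupp.sum_fintype _ _ (fun i => rfl), Fin.sum_univ_two] at h5
    exact h5
  have h6 : ((x 0 + x 1 : ℕ) : ℝ) ≤ F.totalDegree := by exact_mod_cast h4
  refine mul_le_mul_of_nonneg_right (mul_le_mul_of_nonneg_left h6 hB) ?_
  exact mul_nonneg (abs_nonneg _) (wt_nonneg hρ hγ x)

/-- the derivative at a point of the box -/
theorem abs_der_le {ρ γ B r z : ℝ} (hρ : 0 ≤ ρ) (hγ : 0 ≤ γ) (hB : 0 ≤ B) (D : Derivation ℝ A A)
    (h0 : nrm ρ γ (D (X 0)) ≤ B * ρ) (h1 : nrm ρ γ (D (X 1)) ≤ B * γ) (hr : |r| ≤ ρ)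
    (hz : |z| ≤ γ) (F : A) : |at2 r z (D F)| ≤ B * F.totalDegree * nrm ρ γ F :=
  (abs_at2_le hr hz _).trans (nrm_der hρ hγ hB D h0 h1 F)

end Pool.Agent.Work.MP_f2148a_nt.M56.LD
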