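import Mathlib
import Pool.Agent.Work.MP_f2148a_nt.M56.LD.Defs

set_option autoImplicit false

/-!
# LD/TP (size M, helper13's LEMMA TP): good test points for a polynomial and a set of monomials (compactness)

PROOF. Scaling `r = ρ r'`, `γ = γ₀ γ'`: if `G'` is the polynomial with coefficients `coeff x G * wt ρ γ x`, then `at2 (ρ r') (γ₀ γ') G = at2 r' γ' G'`, `nrm ρ γ G = nrm 1 1 G'`, and the determinant is
`∏ (ρ^x.1 γ^x.2) * det (q₁' ^ x.1 q₂' ^ x.2)` (take the factors out of the columns). So it is enough to treat `ρ = γ = 1`. Let `T` be the finite set of the exponents of total degree at most `d` and for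
`c : T → ℝ` let `G_c = ∑ monomial x (c x)`. On the compact sphere `∑ |c x| = 1` the function `Φ (c, q) = |∏ i, G_c (q i)| * |det (q i ^ x)|` is continuous, and for every `c` there is a `q` in the open cube with
`Φ (c, q) > 0`: the polynomial `G_c` is not zero and the monomials of `𝓔` are different; e.g. choose the points `q i` one after the other such that `G_c (q i) ≠ 0` and the determinant of the first rows
and columns is not zero (expansion along the last row: a nonzero polynomial in `q i` times `G_c (q i)`, a nonzero polynomial does not vanish on a product of two infinite sets); or use `MvPolynomial` in the variables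
`𝓔 × Fin 2` (a domain) and `MvPolynomial.funext_set` / Combinatorial Nullstellensatz. The open sets `{c | ∃ q in the cube, Φ (c, q) > 1 / (k + 1)}` cover the sphere; a finite number of them is enough. For `nrm = 0` (`G = 0`): the left
side is `0` if `𝓔` is not empty; if `𝓔` is empty both sides are `c ≤ 1` (take `c ≤ 1`). General `G ≠ 0`: homogeneity.
-/

namespace Pool.Agent.Work.MP_f2148a_nt.M56.LD

/-- linearly independent functions have a nonzero determinant at suitable points -/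
private theorem exists_det {Ω ι : Type*} [Fintype ι] [DecidableEq ι] (φ : Ω → ι → ℝ)
    (h : ∀ a : ι → ℝ, (∀ q, ∑ x, φ q x * a x = 0) → a = 0) :
    ∃ q : ι → Ω, (Matrix.of fun i x => φ (q i) x).det ≠ 0 := by
  have hspan : Submodule.span ℝ (Set.range φ) = ⊤ := by
    by_contra hne
    obtain ⟨f, hf0, hf⟩ := Submodule.exists_le_ker_of_lt_top _ (lt_top_iff_ne_top.2 hne)
    apply hf0
    have ha : (fun x => f (fun j => if x = j then 1 else 0)) = 0 := h _ fun q => by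
      have h1 : f (φ q) = 0 := hf (Submodule.subset_span ⟨q, rfl⟩)
      rw [LinearMap.pi_apply_eq_sum_univ] at h1
      exact h1
    refine LinearMap.ext fun v => ?_
    rw [LinearMap.pi_apply_eq_sum_univ]
    have h2 : ∀ x, f (fun j => if x = j then 1 else 0) = 0 := fun x => congrFun ha x
    simp only [h2, smul_zero, Finset.sum_const_zero, LinearMap.zero_apply]
  obtain ⟨κ, a, ha, hs, hl⟩ := exists_linearIndependent' ℝ φ
  let b : Module.Basis κ ℝ (ι → ℝ) := Module.Basis.mk hl (by rw [hs, hspan])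
  let e : ι ≃ κ := (Pi.basisFun ℝ ι).indexEquiv b
  refine ⟨fun i => a (e i), ?_⟩
  have hl' : LinearIndependent ℝ (Matrix.of fun i x => φ (a (e i)) x).row :=
    hl.comp e e.injective
  exact ((Matrix.isUnit_iff_isUnit_det _).1
    (Matrix.linearIndependent_rows_iff_isUnit.1 hl')).ne_zero

private noncomputable def ex (p : ℕ × ℕ) : Fin 2 →₀ ℕ := Finsupp.single 0 p.1 + Finsupp.single 1 p.2

private theorem ex_zero (p : ℕ × ℕ) : ex p 0 = p.1 := by
  simp [ex]

private theorem ex_one (p : ℕ × ℕ) : ex p 1 = p.2 := by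
  simp [ex]

private theorem ex_inj {p q : ℕ × ℕ} (h : ex p = ex q) : p = q := by
  apply Prod.ext
  · rw [← ex_zero, h, ex_zero]
  · rw [← ex_one, h, ex_one]

private theorem at2_monomial (r s : ℝ) (x : Fin 2 →₀ ℕ) (c : ℝ) :
    at2 r s (MvPolynomial.monomial x c) = c * (r ^ x 0 * s ^ x 1) := by
  rw [at2, MvPolynomial.eval_monomial, Finsupp.prod_fintype _ _ (fun i => pow_zero _),
    Fin.prod_univ_two]
  rfl

private theorem at2_mul (r s : ℝ) (f g : A) : at2 r s (f * g) = at2 r s f * at2 r s g := by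
  rw [at2, map_mul]
  rfl

private theorem at2_sum (r s : ℝ) {ι : Type*} (t : Finset ι) (f : ι → A) :
    at2 r s (∑ i ∈ t, f i) = ∑ i ∈ t, at2 r s (f i) := by
  rw [at2, map_sum]
  rfl

private theorem mono_indep (E' : Finset (ℕ × ℕ)) {f : A} (hf : f ≠ 0) (a : E' → ℝ)
    (h : ∀ r s : ℝ, |r| ≤ 1 → |s| ≤ 1 → at2 r s f ≠ 0 →
      ∑ x : E', (r ^ x.1.1 * s ^ x.1.2) * a x = 0) : a = 0 := by
  set g : A := ∑ x : E', MvPolynomial.monomial (ex x.1) (a x) with hg
  have hev : ∀ r s : ℝ, at2 r s g = ∑ x : E', (r ^ x.1.1 * s ^ x.1.2) * a x := by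
    intro r s
    rw [hg, at2_sum]
    refine Finset.sum_congr rfl fun x _ => ?_
    rw [at2_monomial, ex_zero, ex_one, mul_comm]
  have hfg : f * g = 0 := by
    refine MvPolynomial.funext_set (fun _ => Set.Icc (-1 : ℝ) 1)
      (fun _ => Set.Icc_infinite (by norm_num)) ?_
    intro x hx
    have h0 := hx 0 (Set.mem_univ _)
    have h1 := hx 1 (Set.mem_univ _)
    have e : x = ![x 0, x 1] := by
      funext i
      fin_cases i
      · rfl
      · rfl
    rw [e, map_zero]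
    show at2 (x 0) (x 1) (f * g) = 0
    rw [at2_mul]
    by_cases hz : at2 (x 0) (x 1) f = 0
    · rw [hz, zero_mul]
    · rw [hev, h _ _ (abs_le.2 h0) (abs_le.2 h1) hz, mul_zero]
  have hg0 : g = 0 := (mul_eq_zero.1 hfg).resolve_left hf
  funext y
  have h2 : MvPolynomial.coeff (ex y.1) g = a y := by
    rw [hg, MvPolynomial.coeff_sum, Finset.sum_eq_single y]
    · rw [MvPolynomial.coeff_monomial, if_pos rfl]
    · intro x _ hx
      rw [MvPolynomial.coeff_monomial, if_neg]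
      intro h3
      exact hx (Subtype.ext (ex_inj h3))
    · intro hy
      exact absurd (Finset.mem_univ y) hy
  rw [← h2, hg0, MvPolynomial.coeff_zero]
  rfl

/-- the value of the polynomial with the coefficients `c` -/
private noncomputable def pv {Ts : Finset (Fin 2 →₀ ℕ)} (c : Ts → ℝ) (r s : ℝ) : ℝ :=
  ∑ x : Ts, c x * (r ^ x.1 0 * s ^ x.1 1)

private theorem pv_cont {Ts : Finset (Fin 2 →₀ ℕ)} (r s : ℝ) :
    Continuous fun c : Ts → ℝ => pv c r s := by
  unfold pv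
  fun_prop

private theorem pv_smul {Ts : Finset (Fin 2 →₀ ℕ)} (c : Ts → ℝ) (t r s : ℝ) :
    pv (fun x => t * c x) r s = t * pv c r s := by
  unfold pv
  rw [Finset.mul_sum]
  exact Finset.sum_congr rfl fun x _ => by ring

/-- positivity at one point -/
private theorem pos_pt {Ts : Finset (Fin 2 →₀ ℕ)} (E' : Finset (ℕ × ℕ)) (c : Ts → ℝ)
    (hc : c ≠ 0) : ∃ q₁ q₂ : E' → ℝ, (∀ i, |q₁ i| ≤ 1) ∧ (∀ i, |q₂ i| ≤ 1) ∧
      0 < |∏ i, pv c (q₁ i) (q₂ i)| *
          |(Matrix.of fun i x : E' => q₁ i ^ x.1.1 * q₂ i ^ x.1.2).det| := by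
  set f : A := ∑ x : Ts, MvPolynomial.monomial x.1 (c x) with hf
  have hev : ∀ r s, at2 r s f = pv c r s := by
    intro r s
    rw [hf, at2_sum]
    exact Finset.sum_congr rfl fun x _ => at2_monomial _ _ _ _
  have hf0 : f ≠ 0 := by
    obtain ⟨y, hy⟩ := Function.ne_iff.1 hc
    intro h0
    apply hy
    have h2 : MvPolynomial.coeff y.1 f = c y := by
      rw [hf, MvPolynomial.coeff_sum, Finset.sum_eq_single y]
      · rw [MvPolynomial.coeff_monomial, if_pos rfl]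
      · intro x _ hx
        rw [MvPolynomial.coeff_monomial, if_neg]
        intro h3
        exact hx (Subtype.ext h3)
      · intro hy
        exact absurd (Finset.mem_univ y) hy
    rw [← h2, h0, MvPolynomial.coeff_zero]
    rfl
  obtain ⟨q, hq⟩ := exists_det
    (fun (q : {q : ℝ × ℝ // |q.1| ≤ 1 ∧ |q.2| ≤ 1 ∧ at2 q.1 q.2 f ≠ 0}) (x : E') =>
      q.1.1 ^ x.1.1 * q.1.2 ^ x.1.2) (by
      intro a ha
      exact mono_indep E' hf0 a fun r s hr hs hrs => ha ⟨(r, s), hr, hs, hrs⟩)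
  refine ⟨fun i => (q i).1.1, fun i => (q i).1.2, fun i => (q i).2.1, fun i => (q i).2.2.1,
    mul_pos (abs_pos.2 ?_) (abs_pos.2 hq)⟩
  rw [Finset.prod_ne_zero_iff]
  intro i _
  rw [← hev]
  exact (q i).2.2.2

/-- compactness -/
private theorem unif (Ts : Finset (Fin 2 →₀ ℕ)) (E' : Finset (ℕ × ℕ)) :
    ∃ ε : ℝ, 0 < ε ∧ ∀ c : Ts → ℝ, ‖c‖ = 1 → ∃ q₁ q₂ : E' → ℝ,
      (∀ i, |q₁ i| ≤ 1) ∧ (∀ i, |q₂ i| ≤ 1) ∧
      ε ≤ |∏ i, pv c (q₁ i) (q₂ i)| *
          |(Matrix.of fun i x : E' => q₁ i ^ x.1.1 * q₂ i ^ x.1.2).det| := by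
  have key : ∃ ε : ℝ, 0 < ε ∧ ∀ c ∈ Metric.sphere (0 : Ts → ℝ) 1, ∃ q₁ q₂ : E' → ℝ,
      (∀ i, |q₁ i| ≤ 1) ∧ (∀ i, |q₂ i| ≤ 1) ∧
      ε ≤ |∏ i, pv c (q₁ i) (q₂ i)| *
          |(Matrix.of fun i x : E' => q₁ i ^ x.1.1 * q₂ i ^ x.1.2).det| := by
    refine IsCompact.induction_on (isCompact_sphere (0 : Ts → ℝ) 1)
      (p := fun s => ∃ ε : ℝ, 0 < ε ∧ ∀ c ∈ s, ∃ q₁ q₂ : E' → ℝ,
      (∀ i, |q₁ i| ≤ 1) ∧ (∀ i, |q₂ i| ≤ 1) ∧
      ε ≤ |∏ i, pv c (q₁ i) (q₂ i)| *
          |(Matrix.of fun i x : E' => q₁ i ^ x.1.1 * q₂ i ^ x.1.2).det|) ?_ ?_ ?_ ?_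
    · exact ⟨1, one_pos, fun c hc => absurd hc (Set.notMem_empty c)⟩
    · rintro s t hst ⟨ε, hε, h⟩
      exact ⟨ε, hε, fun c hc => h c (hst hc)⟩
    · rintro s t ⟨ε, hε, h⟩ ⟨ε', hε', h'⟩
      refine ⟨min ε ε', lt_min hε hε', fun c hc => ?_⟩
      rcases hc with hc | hc
      · obtain ⟨q₁, q₂, h1, h2, h3⟩ := h c hc
        exact ⟨q₁, q₂, h1, h2, (min_le_left _ _).trans h3⟩
      · obtain ⟨q₁, q₂, h1, h2, h3⟩ := h' c hc
        exact ⟨q₁, q₂, h1, h2, (min_le_right _ _).trans h3⟩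
    · intro c hc
      have hc0 : c ≠ 0 := by
        rintro rfl
        rw [mem_sphere_zero_iff_norm, norm_zero] at hc
        exact zero_ne_one hc
      obtain ⟨q₁, q₂, h1, h2, h3⟩ := pos_pt E' c hc0
      have hcont : Continuous fun c : Ts → ℝ => |∏ i, pv c (q₁ i) (q₂ i)| *
          |(Matrix.of fun i x : E' => q₁ i ^ x.1.1 * q₂ i ^ x.1.2).det| := by
        refine Continuous.mul (Continuous.abs ?_) continuous_const
        exact continuous_finsetProd _ fun i _ => pv_cont _ _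
      have hnhds := hcont.continuousAt.eventually (lt_mem_nhds (half_lt_self h3))
      refine ⟨_, mem_nhdsWithin_of_mem_nhds hnhds, _, half_pos h3, fun c' hc' => ?_⟩
      exact ⟨q₁, q₂, h1, h2, le_of_lt hc'⟩
  obtain ⟨ε, hε, h⟩ := key
  exact ⟨ε, hε, fun c hc => h c (mem_sphere_zero_iff_norm.2 hc)⟩

/-- the sum norm and the supremum norm -/
private theorem sum_le_norm {Ts : Finset (Fin 2 →₀ ℕ)} (c : Ts → ℝ) :
    ∑ x, |c x| ≤ Ts.card * ‖c‖ := by
  calc ∑ x, |c x| ≤ ∑ _x : Ts, ‖c‖ := Finset.sum_le_sum fun x _ => norm_le_pi_norm c x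
    _ = Ts.card * ‖c‖ := by
        rw [Finset.sum_const, nsmul_eq_mul, Finset.card_univ, Fintype.card_coe]

/-- the case of the unit square -/
private theorem unit_case (Ts : Finset (Fin 2 →₀ ℕ)) (E' : Finset (ℕ × ℕ)) :
    ∃ κ : ℝ, 0 < κ ∧ ∀ c : Ts → ℝ, ∃ q₁ q₂ : E' → ℝ,
      (∀ i, |q₁ i| ≤ 1) ∧ (∀ i, |q₂ i| ≤ 1) ∧
      κ * (∑ x, |c x|) ^ E'.card ≤ |∏ i, pv c (q₁ i) (q₂ i)| *
          |(Matrix.of fun i x : E' => q₁ i ^ x.1.1 * q₂ i ^ x.1.2).det| := by
  obtain ⟨ε, hε, h⟩ := unif Ts E'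
  set K : ℝ := (Ts.card : ℝ) + 1 with hK
  have hK1 : 1 ≤ K := by
    rw [hK]
    have : (0 : ℝ) ≤ (Ts.card : ℝ) := Nat.cast_nonneg _
    linarith
  have hK0 : 0 < K := by linarith
  refine ⟨min ε 1 / K ^ E'.card, by positivity, fun c => ?_⟩
  by_cases hc : c = 0
  · rcases Finset.eq_empty_or_nonempty E' with hE | hE
    · subst hE
      refine ⟨fun _ => 0, fun _ => 0, fun i => by simp, fun i => by simp, ?_⟩
      simp only [Finset.card_empty, pow_zero, div_one, mul_one, Finset.univ_eq_empty,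
        Finset.prod_empty, abs_one, Matrix.det_isEmpty]
      exact min_le_right _ _
    · refine ⟨fun _ => 0, fun _ => 0, fun i => by simp, fun i => by simp, ?_⟩
      have h0 : ∑ x, |c x| = 0 := by
        rw [hc]
        simp
      rw [h0, zero_pow (Finset.card_ne_zero.2 hE), mul_zero]
      positivity
  · have hn : 0 < ‖c‖ := norm_pos_iff.2 hc
    obtain ⟨q₁, q₂, h1, h2, h3⟩ := h (fun x => ‖c‖⁻¹ * c x) (by
      have e : (fun x => ‖c‖⁻¹ * c x) = ‖c‖⁻¹ • c := rfl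
      rw [e, norm_smul, norm_inv, norm_norm, inv_mul_cancel₀ hn.ne'])
    refine ⟨q₁, q₂, h1, h2, ?_⟩
    simp only [pv_smul, Finset.prod_mul_distrib, Finset.prod_const, Finset.card_univ,
      Fintype.card_coe, abs_mul, abs_pow, abs_inv, abs_norm] at h3
    set Dt := |(Matrix.of fun i x : E' => q₁ i ^ x.1.1 * q₂ i ^ x.1.2).det|
    set Pr := |∏ i, pv c (q₁ i) (q₂ i)|
    have h4 : ε * ‖c‖ ^ E'.card ≤ Pr * Dt := by
      have h5 : ‖c‖⁻¹ ^ E'.card * Pr * Dt * ‖c‖ ^ E'.card = Pr * Dt := by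
        rw [inv_pow]
        field_simp
      calc ε * ‖c‖ ^ E'.card ≤ ‖c‖⁻¹ ^ E'.card * Pr * Dt * ‖c‖ ^ E'.card :=
            mul_le_mul_of_nonneg_right h3 (by positivity)
        _ = Pr * Dt := h5
    have h6 : ∑ x, |c x| ≤ K * ‖c‖ := by
      refine (sum_le_norm c).trans ?_
      rw [hK]
      nlinarith
    have h7 : (∑ x, |c x|) ^ E'.card ≤ K ^ E'.card * ‖c‖ ^ E'.card := by
      rw [← mul_pow]
      exact pow_le_pow_left₀ (Finset.sum_nonneg fun x _ => abs_nonneg _) h6 _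
    calc min ε 1 / K ^ E'.card * (∑ x, |c x|) ^ E'.card
        ≤ min ε 1 / K ^ E'.card * (K ^ E'.card * ‖c‖ ^ E'.card) :=
          mul_le_mul_of_nonneg_left h7 (by positivity)
      _ = min ε 1 * ‖c‖ ^ E'.card := by
          field_simp
      _ ≤ ε * ‖c‖ ^ E'.card := mul_le_mul_of_nonneg_right (min_le_left _ _) (by positivity)
      _ ≤ Pr * Dt := h4

private theorem le_degree {d : ℕ} {G : A} (hG : G.totalDegree ≤ d) {x : Fin 2 →₀ ℕ}
    (hx : x ∈ G.support) : x 0 ≤ d ∧ x 1 ≤ d := by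
  have h1 := (MvPolynomial.le_totalDegree hx).trans hG
  rw [Finsupp.sum_fintype _ _ (fun _ => rfl), Fin.sum_univ_two] at h1
  constructor <;> omega

/-- the exponents -/
private noncomputable def Tset (d : ℕ) : Finset (Fin 2 →₀ ℕ) :=
  ((Finset.range (d + 1)) ×ˢ (Finset.range (d + 1))).image ex

private theorem support_sub {d : ℕ} {G : A} (hG : G.totalDegree ≤ d) : G.support ⊆ Tset d := by
  intro x hx
  obtain ⟨h0, h1⟩ := le_degree hG hx
  refine Finset.mem_image.2 ⟨(x 0, x 1), ?_, ?_⟩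
  · rw [Finset.mem_product, Finset.mem_range, Finset.mem_range]
    exact ⟨Nat.lt_succ_of_le h0, Nat.lt_succ_of_le h1⟩
  · refine Finsupp.ext fun i => ?_
    fin_cases i
    · exact ex_zero _
    · exact ex_one _

theorem tp (d : ℕ) (E' : Finset (ℕ × ℕ)) : ∃ c : ℝ, 0 < c ∧ ∀ G : A, G.totalDegree ≤ d →
    ∀ ρ γ : ℝ, 0 < ρ → 0 < γ → ∃ q₁ q₂ : E' → ℝ, (∀ i, |q₁ i| ≤ ρ) ∧ (∀ i, |q₂ i| ≤ γ) ∧
      c * nrm ρ γ G ^ E'.card * ∏ x ∈ E', (ρ ^ x.1 * γ ^ x.2) ≤
        |∏ i, at2 (q₁ i) (q₂ i) G| *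
          |(Matrix.of fun i x : E' => q₁ i ^ x.1.1 * q₂ i ^ x.1.2).det| := by
  obtain ⟨κ, hκ, h⟩ := unit_case (Tset d) E'
  refine ⟨κ, hκ, fun G hG ρ γ hρ hγ => ?_⟩
  obtain ⟨q₁, q₂, h1, h2, h3⟩ := h (fun x => MvPolynomial.coeff x.1 G * wt ρ γ x.1)
  refine ⟨fun i => ρ * q₁ i, fun i => γ * q₂ i, fun i => ?_, fun i => ?_, ?_⟩
  · rw [abs_mul, abs_of_pos hρ]
    exact mul_le_of_le_one_right hρ.le (h1 i)
  · rw [abs_mul, abs_of_pos hγ]
    exact mul_le_of_le_one_right hγ.le (h2 i)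
  have hsub := support_sub hG
  have hwt : ∀ x, 0 ≤ wt ρ γ x := fun x => by
    unfold wt
    positivity
  have hsum : ∑ x : Tset d, |MvPolynomial.coeff x.1 G * wt ρ γ x.1| = nrm ρ γ G := by
    rw [nrm, Finset.sum_coe_sort (Tset d) (fun x => |MvPolynomial.coeff x G * wt ρ γ x|),
      ← Finset.sum_subset hsub]
    · exact Finset.sum_congr rfl fun x _ => by rw [abs_mul, abs_of_nonneg (hwt x)]
    · intro x _ hx
      rw [MvPolynomial.notMem_support_iff.1 hx, zero_mul, abs_zero]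
  have hval : ∀ r s : ℝ, pv (fun x : Tset d => MvPolynomial.coeff x.1 G * wt ρ γ x.1) r s =
      at2 (ρ * r) (γ * s) G := by
    intro r s
    have e : at2 (ρ * r) (γ * s) G = ∑ x ∈ G.support,
        MvPolynomial.coeff x G * ((ρ * r) ^ x 0 * (γ * s) ^ x 1) := by
      conv_lhs => rw [MvPolynomial.as_sum G]
      rw [at2_sum]
      exact Finset.sum_congr rfl fun x _ => at2_monomial _ _ _ _
    rw [e, pv, Finset.sum_coe_sort (Tset d)
      (fun x => MvPolynomial.coeff x G * wt ρ γ x * (r ^ x 0 * s ^ x 1)),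
      ← Finset.sum_subset hsub]
    · refine Finset.sum_congr rfl fun x _ => ?_
      rw [wt, mul_pow, mul_pow]
      ring
    · intro x _ hx
      rw [MvPolynomial.notMem_support_iff.1 hx, zero_mul, zero_mul]
  have hdet : (Matrix.of fun i x : E' => (ρ * q₁ i) ^ x.1.1 * (γ * q₂ i) ^ x.1.2).det =
      (∏ x ∈ E', (ρ ^ x.1 * γ ^ x.2)) *
        (Matrix.of fun i x : E' => q₁ i ^ x.1.1 * q₂ i ^ x.1.2).det := by
    rw [← Finset.prod_coe_sort E' (fun x => ρ ^ x.1 * γ ^ x.2), ← Matrix.det_mul_row]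
    congr 1
    ext i x
    simp only [Matrix.of_apply, mul_pow]
    ring
  rw [hsum] at h3
  simp only [hval] at h3
  have hpr : 0 ≤ ∏ x ∈ E', (ρ ^ x.1 * γ ^ x.2) := Finset.prod_nonneg fun x _ => by positivity
  rw [hdet, abs_mul, abs_of_nonneg hpr]
  calc κ * nrm ρ γ G ^ E'.card * ∏ x ∈ E', (ρ ^ x.1 * γ ^ x.2)
      ≤ (|∏ i, at2 (ρ * q₁ i) (γ * q₂ i) G| *
          |(Matrix.of fun i x : E' => q₁ i ^ x.1.1 * q₂ i ^ x.1.2).det|) *
          ∏ x ∈ E', (ρ ^ x.1 * γ ^ x.2) := mul_le_mul_of_nonneg_right h3 hpr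
    _ = _ := by ring

end Pool.Agent.Work.MP_f2148a_nt.M56.LD
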