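import Mathlib
import Pool.Agent.Work.MP_f2148a_nt.M56.LD.Blk
import Pool.Agent.Work.MP_f2148a_nt.M56.LD.TP
import Pool.Agent.Work.MP_f2148a_nt.M56.LD.Nrm
import Pool.Agent.Work.MP_f2148a_nt.M56.LD.CB

set_option autoImplicit false

/-!
# LD/Main (helper10): THE DETERMINANT INEQUALITY WITH TEST POINTS

`ι`: integral points `(s, t; u, v)` on the irreducible curve `g = 0` (exact bidegree `(m, n)`), more than `n a + m b` of them; `(d₁, d₂) = κ (U₁, U₂) (r, γ)`, `(ξ, υ) = θ (1, r)`.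
-/

namespace Pool.Agent.Work.MP_f2148a_nt.M56.LD

open Polynomial

/-- The real data of the points. -/
structure Dat {ι : Type} (F : Frame) (P : Pts ι) (U₁ U₂ : A) (B : ℝ) (d : ℕ) (ρ γ κ₀ θ₀ : ℝ)
    (κ θ r z : ι → ℝ) : Prop where
  uni : F.Uni
  n1 : nrm 1 1 U₁ ≤ B
  n2 : nrm 1 1 U₂ ≤ B
  t1 : U₁.totalDegree ≤ d
  t2 : U₂.totalDegree ≤ d
  ρ0 : 0 < ρ
  ρ1 : ρ ≤ 1
  γ0 : 0 < γ
  γ1 : γ ≤ 1
  hκ : ∀ i, |κ i| ≤ κ₀
  hθ : ∀ i, |θ i| ≤ θ₀
  hr : ∀ i, |r i| ≤ ρ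
  hz : ∀ i, |z i| ≤ γ
  hs : ∀ i, (P.s i : ℝ) = F.e₁ * (κ i * at2 (r i) (z i) U₁)
  ht : ∀ i, (P.t i : ℝ) = F.e₂ * (κ i * at2 (r i) (z i) U₁) + F.e₃ * (κ i * at2 (r i) (z i) U₂)
  hu : ∀ i, (P.u i : ℝ) = F.k₁ * θ i + F.k₂ * (θ i * r i)
  hv : ∀ i, (P.v i : ℝ) = F.k₃ * (θ i * r i)

/-! ### polynomials in two variables -/

/-- the exponent `(i, j)` -/
noncomputable def ex (i j : ℕ) : Fin 2 →₀ ℕ := Finsupp.single 0 i + Finsupp.single 1 j

theorem ex_zero (i j : ℕ) : ex i j 0 = i := by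
  unfold ex
  simp

theorem ex_one (i j : ℕ) : ex i j 1 = j := by
  unfold ex
  simp

theorem eq_ex (x : Fin 2 →₀ ℕ) : x = ex (x 0) (x 1) := by
  ext k
  fin_cases k
  · exact (ex_zero _ _).symm
  · exact (ex_one _ _).symm

theorem at2_sum {N : ℕ} {G : A} (hG : G.totalDegree < N) (r z : ℝ) :
    at2 r z G = ∑ x : Fin N × Fin N, r ^ (x.1 : ℕ) * z ^ (x.2 : ℕ) *
      MvPolynomial.coeff (ex x.1 x.2) G := by
  classical
  unfold at2
  rw [MvPolynomial.eval_eq']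
  have hinj : Function.Injective (fun x : Fin N × Fin N => ex x.1 x.2) := by
    intro x y h
    have h0 := DFunLike.congr_fun h 0
    have h1 := DFunLike.congr_fun h 1
    simp only [ex_zero, ex_one] at h0 h1
    exact Prod.ext (Fin.ext h0) (Fin.ext h1)
  have h1 : ∑ x : Fin N × Fin N, r ^ (x.1 : ℕ) * z ^ (x.2 : ℕ) * MvPolynomial.coeff (ex x.1 x.2) G =
      ∑ y ∈ (Finset.univ : Finset (Fin N × Fin N)).image (fun x => ex x.1 x.2),
        MvPolynomial.coeff y G * ∏ i, (![r, z] : Fin 2 → ℝ) i ^ y i := by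
    rw [Finset.sum_image fun x _ y _ h => hinj h]
    refine Finset.sum_congr rfl fun x _ => ?_
    rw [Fin.prod_univ_two, ex_zero, ex_one]
    simp only [Matrix.cons_val_zero, Matrix.cons_val_one]
    ring
  rw [h1]
  refine Finset.sum_subset ?_ ?_
  · intro y hy
    have h2 := MvPolynomial.le_totalDegree hy
    have h3 : (y.sum fun _ e => e) = y 0 + y 1 := by
      rw [Finsupp.sum_fintype _ _ (fun _ => rfl), Fin.sum_univ_two]
    rw [h3] at h2
    rw [Finset.mem_image]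
    exact ⟨(⟨y 0, by omega⟩, ⟨y 1, by omega⟩), Finset.mem_univ _, (eq_ex y).symm⟩
  · intro y _ hy
    rw [MvPolynomial.notMem_support_iff.mp hy, zero_mul]

theorem at2_mul (r z : ℝ) (F G : A) : at2 r z (F * G) = at2 r z F * at2 r z G := by
  unfold at2
  rw [map_mul]

theorem at2_X0 (r z : ℝ) : at2 r z (MvPolynomial.X 0) = r := by
  unfold at2
  simp

theorem at2_one (r z : ℝ) : at2 r z 1 = 1 := by
  unfold at2
  simp

theorem at2_mono (r z : ℝ) (i j : ℕ) : at2 r z (MvPolynomial.monomial (ex i j) 1) = r ^ i * z ^ j := by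
  unfold at2
  rw [MvPolynomial.eval_monomial, Finsupp.prod_fintype _ _ (fun _ => pow_zero _), Fin.prod_univ_two,
    ex_zero, ex_one]
  simp

theorem at2_mon (r z : ℝ) (U₁ U₂ : A) (a b : ℕ) (e : E a b) :
    at2 r z (mon a b U₁ U₂ 1 (MvPolynomial.X 0) e) = mon a b (at2 r z U₁) (at2 r z U₂) 1 r e := by
  have h := mon_map (MvPolynomial.eval (![r, z] : Fin 2 → ℝ)) a b U₁ U₂ 1 (MvPolynomial.X 0) e
  rw [map_one, MvPolynomial.eval_X] at h
  unfold at2
  exact h.symm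

theorem at2_psi (r z : ℝ) (U₁ U₂ : A) (a b : ℕ) (f : ℝ[X][X]) :
    at2 r z (psi U₁ U₂ a b f) = ev a b f (at2 r z U₁) (at2 r z U₂) 1 r := by
  have h := ev_map (MvPolynomial.aeval (![r, z] : Fin 2 → ℝ) : A →ₐ[ℝ] ℝ) a b f U₁ U₂ 1
    (MvPolynomial.X 0)
  rw [map_one, MvPolynomial.aeval_X] at h
  have h2 : ∀ G : A, MvPolynomial.aeval (![r, z] : Fin 2 → ℝ) G = at2 r z G := by
    intro G
    unfold at2
    rw [MvPolynomial.aeval_eq_eval]
  rw [h2, h2, h2] at h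
  unfold psi
  exact h.symm

theorem nrm11_one : nrm 1 1 (1 : A) = 1 := by
  have h := nrm_C 1 1 1
  rw [MvPolynomial.C_1, abs_one] at h
  exact h

theorem nrm11_X0 : nrm 1 1 (MvPolynomial.X 0 : A) = 1 := by
  have h := nrm_monomial 1 1 1 (Finsupp.single 0 1)
  unfold MvPolynomial.X
  rw [h]
  unfold wt
  simp

theorem nrm_mon_le {B : ℝ} (hB : 1 ≤ B) {U₁ U₂ : A} (h1 : nrm 1 1 U₁ ≤ B) (h2 : nrm 1 1 U₂ ≤ B)
    (a b : ℕ) (e : E a b) : nrm 1 1 (mon a b U₁ U₂ 1 (MvPolynomial.X 0) e) ≤ B ^ a := by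
  have n0 : ∀ G : A, 0 ≤ nrm 1 1 G := fun G => nrm_nonneg zero_le_one zero_le_one G
  have hm := fun G H : A => nrm_mul (zero_le_one (α := ℝ)) (zero_le_one (α := ℝ)) G H
  have hp := fun (G : A) (k : ℕ) => nrm_pow (zero_le_one (α := ℝ)) (zero_le_one (α := ℝ)) G k
  have e1 := e.1.2
  unfold mon
  calc nrm 1 1 (U₁ ^ (e.1 : ℕ) * U₂ ^ (a - e.1) * (1 ^ (e.2 : ℕ) * MvPolynomial.X 0 ^ (b - e.2)))
      ≤ nrm 1 1 (U₁ ^ (e.1 : ℕ) * U₂ ^ (a - e.1)) *
          nrm 1 1 ((1 : A) ^ (e.2 : ℕ) * MvPolynomial.X 0 ^ (b - e.2)) := hm _ _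
    _ ≤ (B ^ (e.1 : ℕ) * B ^ (a - e.1)) * 1 := by
        refine mul_le_mul ?_ ?_ (n0 _) (by positivity)
        · exact (hm _ _).trans (mul_le_mul ((hp _ _).trans (pow_le_pow_left₀ (n0 _) h1 _))
            ((hp _ _).trans (pow_le_pow_left₀ (n0 _) h2 _)) (n0 _) (by positivity))
        · rw [one_pow, one_mul]
          refine (hp _ _).trans ?_
          rw [nrm11_X0, one_pow]
    _ = B ^ a := by
        rw [mul_one, ← pow_add]
        congr 1
        omega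

theorem nrm_psi_le {B : ℝ} (hB : 1 ≤ B) {U₁ U₂ : A} (h1 : nrm 1 1 U₁ ≤ B) (h2 : nrm 1 1 U₂ ≤ B)
    (a b : ℕ) (f : ℝ[X][X]) : nrm 1 1 (psi U₁ U₂ a b f) ≤ ht (cf f : E a b → ℝ) * B ^ a := by
  unfold psi ev ht
  refine (nrm_sum zero_le_one zero_le_one _ _).trans ?_
  rw [Finset.sum_mul]
  refine Finset.sum_le_sum fun e _ => ?_
  refine (nrm_mul zero_le_one zero_le_one _ _).trans ?_
  refine mul_le_mul ?_ (nrm_mon_le hB h1 h2 a b e) (nrm_nonneg zero_le_one zero_le_one _)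
    (abs_nonneg _)
  rw [MvPolynomial.algebraMap_eq, nrm_C]

theorem deg_mon_le {d : ℕ} {U₁ U₂ : A} (h1 : U₁.totalDegree ≤ d) (h2 : U₂.totalDegree ≤ d)
    (a b : ℕ) (e : E a b) : (mon a b U₁ U₂ 1 (MvPolynomial.X 0) e : A).totalDegree ≤ a * d + b := by
  have e1 := e.1.2
  unfold mon
  refine (MvPolynomial.totalDegree_mul _ _).trans ?_
  refine Nat.add_le_add ?_ ?_
  · refine (MvPolynomial.totalDegree_mul _ _).trans ?_
    have a1 := (MvPolynomial.totalDegree_pow U₁ (e.1 : ℕ)).trans (Nat.mul_le_mul_left _ h1)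
    have a2 := (MvPolynomial.totalDegree_pow U₂ (a - e.1)).trans (Nat.mul_le_mul_left _ h2)
    have a3 : (e.1 : ℕ) * d + (a - e.1) * d = a * d := by
      rw [← Nat.add_mul]
      congr 1
      omega
    omega
  · rw [one_pow, one_mul]
    refine (MvPolynomial.totalDegree_pow _ _).trans ?_
    rw [MvPolynomial.totalDegree_X]
    omega

theorem deg_psi_le {d : ℕ} {U₁ U₂ : A} (h1 : U₁.totalDegree ≤ d) (h2 : U₂.totalDegree ≤ d)
    (a b : ℕ) (f : ℝ[X][X]) : (psi U₁ U₂ a b f).totalDegree ≤ a * d + b := by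
  unfold psi ev
  refine (MvPolynomial.totalDegree_finsetSum _ _).trans ?_
  refine Finset.sup_le fun e _ => ?_
  refine (MvPolynomial.totalDegree_mul _ _).trans ?_
  rw [MvPolynomial.algebraMap_eq, MvPolynomial.totalDegree_C, zero_add]
  exact deg_mon_le h1 h2 a b e

theorem main (m n a b : ℕ) (ha : m ≤ a) (hb : n ≤ b) (B : ℝ) (d : ℕ) (E' : Finset (ℕ × ℕ)) :
    ∃ Cn : ℝ, 0 < Cn ∧ ∀ (F : Frame) (g : ℤ[X][X]), Irr m n g →
    ∀ (ι : Type) [Fintype ι] (P : Pts ι), P.On m n g → n * a + m * b < Fintype.card ι →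
      ∀ p : ℕ, P.Dv p → ∀ (U₁ U₂ : A) (ρ γ κ₀ θ₀ : ℝ) (κ θ r z : ι → ℝ),
      Dat F P U₁ U₂ B d ρ γ κ₀ θ₀ κ θ r z → ∀ W : ℝ, 0 ≤ W →
      (∀ M : Finset (ℕ × ℕ), M.card = dq m n a b + E'.card → ∏ x ∈ M, (ρ ^ x.1 * γ ^ x.2) ≤ W) →
      ht (cf (rl F m n g) : E m n → ℝ) ^ ((a - m + 1) * (b - n + 1)) *
          (p : ℝ) ^ (dq m n a b * (dq m n a b - 1) / 2) *
          nrm ρ γ (psi U₁ U₂ m n (rl F m n g)) ^ E'.card * ∏ x ∈ E', (ρ ^ x.1 * γ ^ x.2) ≤
        Cn * ht (cf (rl F m n g) : E m n → ℝ) ^ E'.card *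
          (κ₀ ^ a * θ₀ ^ b) ^ dq m n a b * W := by
  classical
  obtain ⟨c₁, hc₁, hblk⟩ := blk m n a b ha hb
  obtain ⟨c₂, hc₂, htp⟩ := tp (m * d + n) E'
  obtain ⟨N, hN1, hN2⟩ : ∃ N : ℕ, a * d + b < N ∧ ∀ x ∈ E', m * d + n + (x.1 + x.2) < N := by
    refine ⟨a * d + b + (m * d + n) + (∑ x ∈ E', (x.1 + x.2)) + 1, by omega, fun x hx => ?_⟩
    have := Finset.single_le_sum (f := fun x : ℕ × ℕ => x.1 + x.2) (fun _ _ => Nat.zero_le _) hx
    omega
  have hB1 : (1 : ℝ) ≤ max 1 B := le_max_left _ _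
  -- the constant
  obtain ⟨C₀, hC₀, hC₀'⟩ : ∃ C₀ : ℝ, 0 < C₀ ∧ C₀ = (Fintype.card (Fin N × Fin N) : ℝ) ^
      Fintype.card (Fin (dq m n a b) ⊕ E') * (Fintype.card (Fin (dq m n a b) ⊕ E')).factorial *
      ((max 1 B ^ a) ^ dq m n a b * (max 1 B ^ m) ^ E'.card) := by
    refine ⟨_, ?_, rfl⟩
    have hN : 0 < Fintype.card (Fin N × Fin N) := by
      rw [Fintype.card_prod, Fintype.card_fin]
      have : 0 < N := by omega
      positivity
    positivity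
  refine ⟨C₀ / (c₁ * c₂), by positivity, ?_⟩
  intro F g hg ι _ P hP hcard p hDv U₁ U₂ ρ γ κ₀ θ₀ κ θ r z hD W hW0 hW
  have hn1 : nrm 1 1 U₁ ≤ max 1 B := hD.n1.trans (le_max_right _ _)
  have hn2 : nrm 1 1 U₂ ≤ max 1 B := hD.n2.trans (le_max_right _ _)
  obtain ⟨φ, e, hφ, hlow⟩ := hblk F hD.uni g hg ι P hP hcard p hDv
    (fun i => κ i * at2 (r i) (z i) U₁) (fun i => κ i * at2 (r i) (z i) U₂) θ (fun i => θ i * r i)
    hD.hs hD.ht hD.hu hD.hv
  obtain ⟨q₁, q₂, hq₁, hq₂, hq⟩ := htp (psi U₁ U₂ m n (rl F m n g)) (deg_psi_le hD.t1 hD.t2 m n _)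
    ρ γ hD.ρ0 hD.γ0
  set G : A := psi U₁ U₂ m n (rl F m n g) with hG
  set H : ℝ := ht (cf (rl F m n g) : E m n → ℝ) with hH
  have hH0 : 0 ≤ H := Finset.sum_nonneg fun _ _ => abs_nonneg _
  -- the form vanishes at the points
  have hzero : ∀ i, at2 (r i) (z i) G = 0 := by
    intro i
    have h1 := ev_map (Algebra.ofId ℤ ℝ) m n g (P.s i) (P.t i) (P.u i) (P.v i)
    rw [hP.zero, map_zero] at h1
    have h2 := ev_rl F m n g (κ i * at2 (r i) (z i) U₁) (κ i * at2 (r i) (z i) U₂) (θ i * 1) (θ i * r i)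
    rw [ev_hom, mul_one, ← hD.hs, ← hD.ht, ← hD.hu, ← hD.hv] at h2
    have h3 : κ i ≠ 0 := by
      intro h
      have := hD.ht i
      rw [h, zero_mul, zero_mul, mul_zero, mul_zero, add_zero] at this
      exact hP.t0 i (by exact_mod_cast this)
    have h4 : θ i ≠ 0 := by
      intro h
      have := hD.hv i
      rw [h, zero_mul, mul_zero] at this
      exact hP.v0 i (by exact_mod_cast this)
    have h5 : ev m n g ((P.s i : ℤ) : ℝ) ((P.t i : ℤ) : ℝ) ((P.u i : ℤ) : ℝ) ((P.v i : ℤ) : ℝ) = 0 := h1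
    rw [h5] at h2
    rw [hG, at2_psi]
    rcases mul_eq_zero.mp h2 with h6 | h6
    · exact absurd h6 (by positivity)
    · exact h6
  -- the columns
  set col : Fin (dq m n a b) ⊕ E' → A := Sum.elim
    (fun k => mon a b U₁ U₂ 1 (MvPolynomial.X 0) (e k))
    (fun x => G * MvPolynomial.monomial (ex x.1.1 x.1.2) 1) with hcol
  set pr : Fin (dq m n a b) ⊕ E' → ℝ := Sum.elim (fun j => r (φ j)) q₁ with hpr
  set pz : Fin (dq m n a b) ⊕ E' → ℝ := Sum.elim (fun j => z (φ j)) q₂ with hpz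
  have hdeg : ∀ y, (col y).totalDegree < N := by
    intro y
    rcases y with k | x
    · exact lt_of_le_of_lt (deg_mon_le hD.t1 hD.t2 a b (e k)) hN1
    · refine lt_of_le_of_lt ((MvPolynomial.totalDegree_mul _ _).trans
        (Nat.add_le_add (deg_psi_le hD.t1 hD.t2 m n _) ?_)) (hN2 x.1 x.2)
      refine (MvPolynomial.totalDegree_monomial_le _ _).trans ?_
      rw [Finsupp.sum_fintype _ _ (fun _ => rfl), Fin.sum_univ_two, ex_zero, ex_one]
      exact le_refl _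
  -- the matrix of the values
  set V : Matrix (Fin (dq m n a b) ⊕ E') (Fin (dq m n a b) ⊕ E') ℝ := Matrix.of fun x y =>
    at2 (pr x) (pz x) (col y) with hV
  have hV1 : V = Matrix.fromBlocks
      (Matrix.of fun j k => at2 (r (φ j)) (z (φ j)) (mon a b U₁ U₂ 1 (MvPolynomial.X 0) (e k))) 0
      (Matrix.of fun i k => at2 (q₁ i) (q₂ i) (mon a b U₁ U₂ 1 (MvPolynomial.X 0) (e k)))
      (Matrix.of fun i x : E' => at2 (q₁ i) (q₂ i) G * (q₁ i ^ x.1.1 * q₂ i ^ x.1.2)) := by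
    ext x y
    rcases x with j | i <;> rcases y with k | x
    · rfl
    · simp only [hV, Matrix.of_apply, hpr, hpz, hcol, Sum.elim_inl, Sum.elim_inr,
        Matrix.fromBlocks_apply₁₂, Matrix.zero_apply, at2_mul, hzero, zero_mul]
    · rfl
    · simp only [hV, Matrix.of_apply, hpr, hpz, hcol, Sum.elim_inr,
        Matrix.fromBlocks_apply₂₂, at2_mul, at2_mono]
  have hdet : V.det = (Matrix.of fun j k : Fin (dq m n a b) =>
      at2 (r (φ j)) (z (φ j)) (mon a b U₁ U₂ 1 (MvPolynomial.X 0) (e k))).det *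
      ((∏ i, at2 (q₁ i) (q₂ i) G) *
        (Matrix.of fun i x : E' => q₁ i ^ x.1.1 * q₂ i ^ x.1.2).det) := by
    rw [hV1, Matrix.det_fromBlocks_zero₁₂]
    congr 1
    exact Matrix.det_mul_column (fun i => at2 (q₁ i) (q₂ i) G)
      (Matrix.of fun i x : E' => q₁ i ^ x.1.1 * q₂ i ^ x.1.2)
  -- the upper bound
  set Rw : Matrix (Fin (dq m n a b) ⊕ E') (Fin N × Fin N) ℝ := Matrix.of fun x c =>
    pr x ^ (c.1 : ℕ) * pz x ^ (c.2 : ℕ) with hRw
  set Cl : Matrix (Fin N × Fin N) (Fin (dq m n a b) ⊕ E') ℝ := Matrix.of fun c y =>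
    MvPolynomial.coeff (ex c.1 c.2) (col y) with hCl
  have hVm : V = Rw * Cl := by
    ext x y
    rw [Matrix.mul_apply]
    exact at2_sum (hdeg y) _ _
  have hprle : ∀ x, |pr x| ≤ ρ := by
    intro x
    rcases x with j | i
    · exact hD.hr _
    · exact hq₁ i
  have hpzle : ∀ x, |pz x| ≤ γ := by
    intro x
    rcases x with j | i
    · exact hD.hz _
    · exact hq₂ i
  have hρ0 := hD.ρ0
  have hγ0 := hD.γ0
  have hup := det_le Rw Cl (fun c => ρ ^ (c.1 : ℕ) * γ ^ (c.2 : ℕ)) (fun c => by positivity) 1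
    zero_le_one (fun x c => by
      rw [one_mul, hRw, Matrix.of_apply, abs_mul, abs_pow, abs_pow]
      exact mul_le_mul (pow_le_pow_left₀ (abs_nonneg _) (hprle x) _)
        (pow_le_pow_left₀ (abs_nonneg _) (hpzle x) _) (by positivity) (by positivity))
    (Sum.elim (fun _ => max 1 B ^ a) (fun _ => H * max 1 B ^ m))
    (fun y => by
      rcases y with k | x
      · simp only [Sum.elim_inl]
        positivity
      · simp only [Sum.elim_inr]
        positivity)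
    (fun c y => by
      refine (coeff_le _ _).trans ?_
      rcases y with k | x
      · exact nrm_mon_le hB1 hn1 hn2 a b (e k)
      · simp only [hcol, Sum.elim_inr]
        refine (nrm_mul zero_le_one zero_le_one _ _).trans ?_
        rw [nrm_monomial]
        have h1 : wt 1 1 (ex x.1.1 x.1.2) = 1 := by
          unfold wt
          rw [one_pow, one_pow, one_mul]
        rw [h1, abs_one, mul_one, mul_one]
        exact nrm_psi_le hB1 hn1 hn2 m n _)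
    W hW0 (fun f hf => by
      have hinj : Function.Injective fun x => (((f x).1 : ℕ), ((f x).2 : ℕ)) := by
        intro x y h
        refine hf (Prod.ext (Fin.ext ?_) (Fin.ext ?_))
        · exact congrArg Prod.fst h
        · exact congrArg Prod.snd h
      have h1 := hW (Finset.univ.image fun x => (((f x).1 : ℕ), ((f x).2 : ℕ))) (by
        rw [Finset.card_image_of_injective _ hinj, Finset.card_univ, Fintype.card_sum, Fintype.card_fin,
          Fintype.card_coe])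
      rw [Finset.prod_image fun x _ y _ h => hinj h] at h1
      exact h1)
  rw [← hVm, one_pow, mul_one] at hup
  have hprod : ∏ y : Fin (dq m n a b) ⊕ E', (Sum.elim (fun _ => max 1 B ^ a)
      (fun _ => H * max 1 B ^ m) y : ℝ) = (max 1 B ^ a) ^ dq m n a b * (H * max 1 B ^ m) ^ E'.card := by
    rw [Fintype.prod_sum_type]
    simp only [Sum.elim_inl, Sum.elim_inr, Finset.prod_const, Finset.card_univ, Fintype.card_fin,
      Fintype.card_coe]
  rw [hprod, hdet] at hup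
  -- the lower bound
  have hlow2 : |(Matrix.of fun j k : Fin (dq m n a b) =>
            mon a b (κ (φ j) * at2 (r (φ j)) (z (φ j)) U₁) (κ (φ j) * at2 (r (φ j)) (z (φ j)) U₂)
              (θ (φ j)) (θ (φ j) * r (φ j)) (e k)).det| ≤
      (κ₀ ^ a * θ₀ ^ b) ^ dq m n a b * |(Matrix.of fun j k : Fin (dq m n a b) =>
      at2 (r (φ j)) (z (φ j)) (mon a b U₁ U₂ 1 (MvPolynomial.X 0) (e k))).det| := by
    have h1 : (Matrix.of fun j k : Fin (dq m n a b) =>
            mon a b (κ (φ j) * at2 (r (φ j)) (z (φ j)) U₁) (κ (φ j) * at2 (r (φ j)) (z (φ j)) U₂)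
              (θ (φ j)) (θ (φ j) * r (φ j)) (e k)) =
        Matrix.of fun j k : Fin (dq m n a b) => (κ (φ j) ^ a * θ (φ j) ^ b) *
          (Matrix.of fun j k : Fin (dq m n a b) =>
            at2 (r (φ j)) (z (φ j)) (mon a b U₁ U₂ 1 (MvPolynomial.X 0) (e k))) j k := by
      ext j k
      simp only [Matrix.of_apply]
      rw [at2_mon, ← mon_hom, mul_one]
    rw [h1, Matrix.det_mul_column, abs_mul, Finset.abs_prod]
    refine mul_le_mul_of_nonneg_right ?_ (abs_nonneg _)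
    refine (Finset.prod_le_prod (fun _ _ => abs_nonneg _) fun j _ => ?_).trans
      (le_of_eq (Finset.prod_const (κ₀ ^ a * θ₀ ^ b)) : ∏ j : Fin (dq m n a b), (κ₀ ^ a * θ₀ ^ b) ≤
        (κ₀ ^ a * θ₀ ^ b) ^ (Finset.univ : Finset (Fin (dq m n a b))).card) |>.trans ?_
    · rw [abs_mul, abs_pow, abs_pow]
      exact mul_le_mul (pow_le_pow_left₀ (abs_nonneg _) (hD.hκ _) _)
        (pow_le_pow_left₀ (abs_nonneg _) (hD.hθ _) _) (by positivity)
        (pow_nonneg ((abs_nonneg _).trans (hD.hκ (φ j))) _)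
    · rw [Finset.card_univ, Fintype.card_fin]
  have hΘ : 0 ≤ κ₀ ^ a * θ₀ ^ b ∨ dq m n a b = 0 := by
    rcases Nat.eq_zero_or_pos (dq m n a b) with h | h
    · exact Or.inr h
    · left
      have h1 := (abs_nonneg _).trans (hD.hκ (φ ⟨0, h⟩))
      have h2 := (abs_nonneg _).trans (hD.hθ (φ ⟨0, h⟩))
      positivity
  have hΘ0 : 0 ≤ (κ₀ ^ a * θ₀ ^ b) ^ dq m n a b := by
    rcases hΘ with h | h
    · exact pow_nonneg h _
    · rw [h, pow_zero]
      exact zero_le_one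
  set D₁ : ℝ := |(Matrix.of fun j k : Fin (dq m n a b) =>
      at2 (r (φ j)) (z (φ j)) (mon a b U₁ U₂ 1 (MvPolynomial.X 0) (e k))).det| with hD₁
  rw [abs_mul, abs_mul, ← hD₁] at hup
  have hlow3 := hlow.trans hlow2
  have h5 := mul_le_mul hlow3 hq (mul_nonneg (mul_nonneg hc₂.le (pow_nonneg (nrm_nonneg hρ0.le hγ0.le _) _))
    (Finset.prod_nonneg fun x _ => by positivity)) (mul_nonneg hΘ0 (abs_nonneg _))
  have h6 := mul_le_mul_of_nonneg_left hup hΘ0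
  have h7 : C₀ / (c₁ * c₂) * H ^ E'.card * (κ₀ ^ a * θ₀ ^ b) ^ dq m n a b * W =
      (C₀ * H ^ E'.card * (κ₀ ^ a * θ₀ ^ b) ^ dq m n a b * W) / (c₁ * c₂) := by
    ring
  rw [h7, le_div_iff₀ (by positivity)]
  calc _ = c₁ * H ^ ((a - m + 1) * (b - n + 1)) * ↑p ^ (dq m n a b * (dq m n a b - 1) / 2) *
        (c₂ * nrm ρ γ G ^ E'.card * ∏ x ∈ E', (ρ ^ x.1 * γ ^ x.2)) := by ring
    _ ≤ _ := h5
    _ = (κ₀ ^ a * θ₀ ^ b) ^ dq m n a b * (D₁ * (|∏ i, at2 (q₁ i) (q₂ i) G| *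
        |(Matrix.of fun i x : E' => q₁ i ^ x.1.1 * q₂ i ^ x.1.2).det|)) := by ring
    _ ≤ _ := h6
    _ = C₀ * H ^ E'.card * (κ₀ ^ a * θ₀ ^ b) ^ dq m n a b * W := by
        rw [hC₀', mul_pow]
        ring

end Pool.Agent.Work.MP_f2148a_nt.M56.LD
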