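import Mathlib
import Pool.Agent.Work.MP_f2148a_nt.M56.LD.Main
import Pool.Agent.Work.MP_f2148a_nt.M56.LD.Ev
import Pool.Agent.Work.MP_f2148a_nt.M56.LD.TDet
import Pool.Agent.Work.MP_f2148a_nt.M56.LD.Nrm
import Pool.Agent.Work.MP_f2148a_nt.M56.AX.Up
import Pool.Agent.Work.MP_f2148a_nt.M56.AX.Ker

set_option autoImplicit false

/-!
# LD/Axf (helper65): the auxiliary form

If all `E × E` minors of the matrix of the values of the monomials vanish, there is an integral kernel vector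
(`AX.ker`). Otherwise one minor is a nonzero integer; it is `9 ^ ..` times the determinant in the real coordinates
(`mon_rlM`, `rlM_det`), which is estimated by `AX.up`.
-/

namespace Pool.Agent.Work.MP_f2148a_nt.M56.LD

open Polynomial

private theorem axf_mon_hom {S : Type*} [CommRing S] (a b : ℕ) (s t u v κ θ : S) (e : E a b) :
    mon a b (κ * s) (κ * t) (θ * u) (θ * v) e = κ ^ a * θ ^ b * mon a b s t u v e := by
  unfold mon
  have h1 : κ ^ a = κ ^ (e.1 : ℕ) * κ ^ (a - e.1) := by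
    rw [← pow_add]; congr 1; have := e.1.2; omega
  have h2 : θ ^ b = θ ^ (e.2 : ℕ) * θ ^ (b - e.2) := by
    rw [← pow_add]; congr 1; have := e.2.2; omega
  rw [h1, h2, mul_pow, mul_pow, mul_pow, mul_pow]
  ring

private theorem axf_at2_mon (a b : ℕ) (U₁ U₂ : A) (r z : ℝ) (e : E a b) :
    at2 r z (mon a b U₁ U₂ 1 (MvPolynomial.X 0) e) = mon a b (at2 r z U₁) (at2 r z U₂) 1 r e := by
  unfold mon at2
  simp

private theorem at2_eq (r z : ℝ) (F : A) (S : Finset (Fin 2 →₀ ℕ)) (hS : F.support ⊆ S) :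
    at2 r z F = ∑ x ∈ S, (r ^ x 0 * z ^ x 1) * MvPolynomial.coeff x F := by
  unfold at2
  rw [MvPolynomial.eval_eq]
  rw [← Finset.sum_subset hS fun x _ hx => by
    rw [MvPolynomial.notMem_support_iff.1 hx, mul_zero]]
  refine Finset.sum_congr rfl fun x _ => ?_
  have : ∏ i ∈ x.support, (![r, z] : Fin 2 → ℝ) i ^ x i = ∏ i, (![r, z] : Fin 2 → ℝ) i ^ x i := by
    apply Finset.prod_subset (Finset.subset_univ _)
    intro i _ hi
    rw [Finsupp.notMem_support_iff.1 hi, pow_zero]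
  rw [this, Fin.prod_univ_two]
  simp only [Matrix.cons_val_zero, Matrix.cons_val_one]
  ring

private theorem nrm_mon (a b : ℕ) (B : ℝ) (U₁ U₂ : A) (h1 : nrm 1 1 U₁ ≤ B) (h2 : nrm 1 1 U₂ ≤ B)
    (e : E a b) : nrm 1 1 (mon a b U₁ U₂ 1 (MvPolynomial.X 0) e) ≤ max 1 B ^ a := by
  have hz : (0 : ℝ) ≤ 1 := zero_le_one
  have hB : (1 : ℝ) ≤ max 1 B := le_max_left _ _
  have n1 : nrm 1 1 (U₁ ^ (e.1 : ℕ)) ≤ max 1 B ^ (e.1 : ℕ) :=
    (nrm_pow hz hz _ _).trans (pow_le_pow_left₀ (nrm_nonneg hz hz _) (h1.trans (le_max_right _ _)) _)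
  have n2 : nrm 1 1 (U₂ ^ (a - e.1)) ≤ max 1 B ^ (a - e.1) :=
    (nrm_pow hz hz _ _).trans (pow_le_pow_left₀ (nrm_nonneg hz hz _) (h2.trans (le_max_right _ _)) _)
  have n3 : nrm 1 1 ((1 : A) ^ (e.2 : ℕ)) = 1 := by
    rw [one_pow]
    have := nrm_C 1 1 1
    rw [map_one, abs_one] at this
    exact this
  have n4 : nrm 1 1 ((MvPolynomial.X 0 : A) ^ (b - e.2)) ≤ 1 := by
    refine (nrm_pow hz hz _ _).trans ?_
    have : nrm 1 1 (MvPolynomial.X 0 : A) = 1 := by
      have := nrm_monomial 1 1 1 (Finsupp.single (0 : Fin 2) 1)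
      unfold wt at this
      simp only [abs_one, one_pow, mul_one] at this
      exact this
    rw [this, one_pow]
  unfold mon
  calc _ ≤ nrm 1 1 (U₁ ^ (e.1 : ℕ) * U₂ ^ (a - e.1)) *
        nrm 1 1 ((1 : A) ^ (e.2 : ℕ) * (MvPolynomial.X 0 : A) ^ (b - e.2)) := nrm_mul hz hz _ _
    _ ≤ (nrm 1 1 (U₁ ^ (e.1 : ℕ)) * nrm 1 1 (U₂ ^ (a - e.1))) *
        (nrm 1 1 ((1 : A) ^ (e.2 : ℕ)) * nrm 1 1 ((MvPolynomial.X 0 : A) ^ (b - e.2))) :=
        mul_le_mul (nrm_mul hz hz _ _) (nrm_mul hz hz _ _) (nrm_nonneg hz hz _)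
          (mul_nonneg (nrm_nonneg hz hz _) (nrm_nonneg hz hz _))
    _ ≤ (max 1 B ^ (e.1 : ℕ) * max 1 B ^ (a - e.1)) * (1 * 1) := by
        rw [n3]
        refine mul_le_mul (mul_le_mul n1 n2 (nrm_nonneg hz hz _) (by positivity))
          (mul_le_mul_of_nonneg_left n4 zero_le_one)
          (mul_nonneg zero_le_one (nrm_nonneg hz hz _)) (by positivity)
    _ = max 1 B ^ a := by
        rw [← pow_add, mul_one, mul_one]; congr 1; have := e.1.2; omega

theorem aux (M N : ℕ) (B : ℝ) (d : ℕ) : ∃ Cn : ℝ, 0 < Cn ∧ ∀ (F : Frame) (ι : Type) [Fintype ι]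
    (P : Pts ι) (U₁ U₂ : A) (ρ γ κ₀ θ₀ : ℝ) (κ θ r z : ι → ℝ),
      Dat F P U₁ U₂ B d ρ γ κ₀ θ₀ κ θ r z → ∀ W : ℝ, 0 ≤ W →
      (∀ S : Finset (ℕ × ℕ), S.card = (M + 1) * (N + 1) → ∏ x ∈ S, (ρ ^ x.1 * γ ^ x.2) ≤ W) →
      Cn * (κ₀ ^ M * θ₀ ^ N) ^ ((M + 1) * (N + 1)) * W < 1 →
      ∃ f : ℤ[X][X], f ≠ 0 ∧ Bd M N f ∧
        ∀ i, ev M N f (P.s i) (P.t i) (P.u i) (P.v i) = 0 := by
  classical
  set D : ℕ := (M + 1) * (N + 1) with hD
  have hcard : Fintype.card (E M N) = D := by simp [hD]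
  refine ⟨(D.factorial : ℝ) * (max 1 B ^ M) ^ D * 9 ^ ((N + 1) * (M * (M + 1) / 2)), by positivity, ?_⟩
  intro F ι _ P U₁ U₂ ρ γ κ₀ θ₀ κ θ r z hd W hW0 hW hlt
  set V : ι → E M N → ℤ := fun i e => mon M N (P.s i) (P.t i) (P.u i) (P.v i) e with hV
  by_cases hdet : ∀ φ : E M N → ι, Matrix.det (Matrix.of fun e e' => V (φ e) e') = 0
  · -- the kernel vector
    obtain ⟨c, hc0, hc, -⟩ := AX.ker V (1 + ∑ i, ∑ e, |(V i e : ℝ)|)
      (by
        have : 0 ≤ ∑ i, ∑ e, |(V i e : ℝ)| :=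
          Finset.sum_nonneg fun i _ => Finset.sum_nonneg fun e _ => abs_nonneg _
        linarith)
      (fun i e => by
        have h1 : |(V i e : ℝ)| ≤ ∑ e', |(V i e' : ℝ)| :=
          Finset.single_le_sum (f := fun e' => |(V i e' : ℝ)|) (fun e' _ => abs_nonneg _)
            (Finset.mem_univ e)
        have h2 : ∑ e', |(V i e' : ℝ)| ≤ ∑ i', ∑ e', |(V i' e' : ℝ)| :=
          Finset.single_le_sum (f := fun i' => ∑ e', |(V i' e' : ℝ)|)
            (fun i' _ => Finset.sum_nonneg fun e' _ => abs_nonneg _) (Finset.mem_univ i)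
        linarith) hdet
    set f : ℤ[X][X] := ∑ e : E M N, monomial (e.2 : ℕ) (monomial (e.1 : ℕ) (c e)) with hf
    have hcf : ∀ e : E M N, cf f e = c e := by
      intro e
      unfold cf
      rw [hf, finsetSum_coeff, finsetSum_coeff, Finset.sum_eq_single e]
      · rw [coeff_monomial, if_pos rfl, coeff_monomial, if_pos rfl]
      · intro e' _ hne
        rw [coeff_monomial]
        split_ifs with h1
        · rw [coeff_monomial]
          split_ifs with h2
          · exact absurd (Prod.ext (Fin.ext h2) (Fin.ext h1)) hne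
          · rfl
        · rfl
      · intro h; exact absurd (Finset.mem_univ _) h
    refine ⟨f, ?_, ?_, ?_⟩
    · intro h0
      apply hc0
      funext e
      rw [← hcf e, h0]
      simp [cf]
    · exact Bd.sum _ _ fun e _ => Bd.monomial e (c e)
    · intro i
      unfold ev
      rw [← hc i]
      refine Finset.sum_congr rfl fun e _ => ?_
      rw [hcf e]
      simp only [hV, algebraMap_int_eq, eq_intCast, Int.cast_id]
      ring
  · -- a nonzero determinant
    exfalso
    push Not at hdet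
    obtain ⟨φ, hφ⟩ := hdet
    have hι : ∀ i : ι, 0 ≤ κ₀ ∧ 0 ≤ θ₀ := fun i =>
      ⟨(abs_nonneg _).trans (hd.hκ i), (abs_nonneg _).trans (hd.hθ i)⟩
    obtain ⟨hκ0, hθ0⟩ := hι (φ (0, 0))
    set ZR : Matrix (E M N) (E M N) ℝ := Matrix.of fun e' e =>
      mon M N (κ (φ e') * at2 (r (φ e')) (z (φ e')) U₁) (κ (φ e') * at2 (r (φ e')) (z (φ e')) U₂)
        (θ (φ e')) (θ (φ e') * r (φ e')) e with hZR
    have hprod : ZR * rlM F M N = (Matrix.of fun e e' => V (φ e) e').map (Int.cast : ℤ → ℝ) := by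
      refine Matrix.ext fun i j => ?_
      rw [Matrix.mul_apply, Matrix.map_apply]
      simp only [hZR, Matrix.of_apply]
      rw [mon_rlM]
      rw [← hd.hs, ← hd.ht, ← hd.hu, ← hd.hv]
      simp only [hV, mon]
      push_cast
      ring
    have hdetR : ZR.det * 9 ^ ((N + 1) * (M * (M + 1) / 2)) =
        ((Matrix.of fun e e' => V (φ e) e').det : ℝ) := by
      rw [← rlM_det F hd.uni, ← Matrix.det_mul, hprod]
      have : ((Matrix.of fun e e' => V (φ e) e').map (Int.cast : ℤ → ℝ)) =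
        (Int.castRingHom ℝ).mapMatrix (Matrix.of fun e e' => V (φ e) e') := rfl
      rw [this, ← RingHom.map_det]
      rfl
    have h1 : (1 : ℝ) ≤ |ZR.det| * 9 ^ ((N + 1) * (M * (M + 1) / 2)) := by
      have h2 : (1 : ℤ) ≤ |(Matrix.of fun e e' => V (φ e) e').det| := Int.one_le_abs hφ
      have h3 : (1 : ℝ) ≤ |((Matrix.of fun e e' => V (φ e) e').det : ℝ)| := by
        exact_mod_cast h2
      rw [← hdetR, abs_mul, abs_of_nonneg (show (0 : ℝ) ≤ 9 ^ ((N + 1) * (M * (M + 1) / 2)) by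
        positivity)] at h3
      exact h3
    -- the upper bound
    set G : E M N → A := fun e => mon M N U₁ U₂ 1 (MvPolynomial.X 0) e with hG
    set S : Finset (Fin 2 →₀ ℕ) := Finset.univ.biUnion fun e => (G e).support with hS
    have hsub : ∀ e, (G e).support ⊆ S := fun e =>
      Finset.subset_biUnion_of_mem (fun e => (G e).support) (Finset.mem_univ e)
    have hZR2 : ZR = Matrix.of fun j k => ∑ x ∈ S,
        (κ (φ j) ^ M * θ (φ j) ^ N * (r (φ j) ^ x 0 * z (φ j) ^ x 1)) * MvPolynomial.coeff x (G k) := by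
      refine Matrix.ext fun j k => ?_
      simp only [hZR, Matrix.of_apply]
      have h2 := axf_mon_hom M N (at2 (r (φ j)) (z (φ j)) U₁) (at2 (r (φ j)) (z (φ j)) U₂) 1 (r (φ j))
        (κ (φ j)) (θ (φ j)) k
      rw [mul_one] at h2
      rw [h2, ← axf_at2_mon, at2_eq _ _ _ S (hsub k), Finset.mul_sum]
      refine Finset.sum_congr rfl fun x _ => ?_
      ring
    have hup := AX.up S
      (fun j x => κ (φ j) ^ M * θ (φ j) ^ N * (r (φ j) ^ x 0 * z (φ j) ^ x 1))
      (fun x k => MvPolynomial.coeff x (G k)) (fun _ => κ₀ ^ M * θ₀ ^ N) (fun _ => max 1 B ^ M)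
      (fun x => ρ ^ x 0 * γ ^ x 1) W (fun _ => by positivity) (fun j x _ => by
        rw [abs_mul, abs_mul, abs_mul, abs_pow, abs_pow, abs_pow, abs_pow]
        exact mul_le_mul (mul_le_mul (pow_le_pow_left₀ (abs_nonneg _) (hd.hκ _) _)
          (pow_le_pow_left₀ (abs_nonneg _) (hd.hθ _) _) (by positivity) (by positivity))
          (mul_le_mul (pow_le_pow_left₀ (abs_nonneg _) (hd.hr _) _)
            (pow_le_pow_left₀ (abs_nonneg _) (hd.hz _) _) (by positivity)
            (pow_nonneg hd.ρ0.le _)) (by positivity) (by positivity))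
      (fun k => by
        have h3 := nrm_mon M N B U₁ U₂ hd.n1 hd.n2 k
        refine le_trans (le_of_eq ?_) h3
        unfold nrm wt
        rw [← Finset.sum_subset (hsub k) fun x _ hx => by
          rw [MvPolynomial.notMem_support_iff.1 hx, abs_zero]]
        refine Finset.sum_congr rfl fun x _ => ?_
        simp only [one_pow, mul_one]
        rfl)
      (fun T _ hT => by
        have hinj : Function.Injective (fun x : Fin 2 →₀ ℕ => (x 0, x 1)) := by
          intro x y hxy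
          simp only [Prod.mk.injEq] at hxy
          ext i
          fin_cases i
          · exact hxy.1
          · exact hxy.2
        have := hW (T.image fun x => (x 0, x 1)) (by
          rw [Finset.card_image_of_injective _ hinj, hT, hcard])
        rwa [Finset.prod_image fun x _ y _ h => hinj h] at this) hW0
    rw [← hZR2, Finset.prod_const, Finset.prod_const, Finset.card_univ, hcard] at hup
    have hfin : |ZR.det| * 9 ^ ((N + 1) * (M * (M + 1) / 2)) < 1 := by
      refine lt_of_le_of_lt (mul_le_mul_of_nonneg_right hup (by positivity)) ?_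
      refine lt_of_le_of_lt (le_of_eq ?_) hlt
      ring
    linarith

end Pool.Agent.Work.MP_f2148a_nt.M56.LD
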