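import Mathlib
import Pool.Agent.Work.MP_f2148a_nt.M56.LD.Defs

set_option autoImplicit false

/-!
# LD/Num (size S-M, elementary real analysis): the choice of the bidegree

PROOF. One may assume `B ≥ 1` (`1 ≤ m ≤ B`). `a = m + ⌊α k⌋`, `c = n + ⌊β k⌋` (`0 ≤ α, β ≤ 1`), `D = dq m n a c = n (a + 1) + m (c + 1) - m n`, so `k ≤ D ≤ k + C` (`n α + m β = 1`) and
`|(a - m + 1) (c - n + 1) - α β k ^ 2| ≤ C k`, with `C` a polynomial in `B`, for `k ≥ 1`. The left side of the conclusion is at least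
`k ^ 2 (w₀ b / (2 w) + om / 2 - (α κ + β l) + h α β) - C k ≥ k ^ 2 μ / (2 w) - C k ≥ k ^ 2 μ / (2 B) - C k`. Choose `k` large (depending on `B, μ`); `D w₀ b / w ≥ k / B ^ 3 ≥ 2 B ≥ w₀ + b` as well.
-/

namespace Pool.Agent.Work.MP_f2148a_nt.M56.LD

private theorem real_num (Bd μ : ℝ) (hB : 1 ≤ Bd)
    (m n w₀ b w κ l h om α β L A C D : ℝ) (hw0 : 1 / Bd ≤ w₀) (hw02 : w₀ ≤ Bd)
    (hb : 1 / Bd ≤ b) (hb2 : b ≤ Bd) (hw : 1 / Bd ≤ w) (hw2 : w ≤ Bd)
    (hκ : |κ| ≤ Bd) (hl : |l| ≤ Bd) (hh : |h| ≤ Bd) (hom : 0 ≤ om) (hom2 : om ≤ Bd)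
    (hm : 1 ≤ m) (hm2 : m ≤ Bd) (hn : 1 ≤ n) (hn2 : n ≤ Bd) (hα : 0 ≤ α) (hβ : 0 ≤ β)
    (hab : n * α + m * β = 1) (hμ : 0 < μ)
    (hst : w * (2 * (α * κ + β * l) - 2 * h * α * β - om) + μ ≤ w₀ * b)
    (hL : 1 ≤ L) (hA0 : 0 ≤ A) (hA1 : A ≤ α * L) (hA2 : α * L - 1 ≤ A)
    (hC0 : 0 ≤ C) (hC1 : C ≤ β * L) (hC2 : β * L - 1 ≤ C)
    (hD : D = n * A + m * C + m * n + m + n) :
    L ≤ D ∧ L ^ 2 * μ / (2 * Bd) - 30 * Bd ^ 4 * L ≤
      D ^ 2 * w₀ * b / (2 * w) - (w₀ + b) * D - D * (κ * (m + A) + l * (n + C)) +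
        h * ((A + 1) * (C + 1)) + om * (D * (D - 1) / 2) := by
  have hBp : 0 < Bd := by linarith
  have hi : 0 < 1 / Bd := by positivity
  have hw00 : 0 < w₀ := by linarith
  have hb0 : 0 < b := by linarith
  have hwp : 0 < w := by linarith
  have hα1 : α ≤ 1 := by nlinarith [mul_nonneg (by linarith : (0:ℝ) ≤ m) hβ]
  have hβ1 : β ≤ 1 := by nlinarith [mul_nonneg (by linarith : (0:ℝ) ≤ n) hα]
  have hmn0 : 1 ≤ m * n := by nlinarith
  have hmn : m * n ≤ Bd ^ 2 := by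
    calc m * n ≤ Bd * Bd := by gcongr
      _ = Bd ^ 2 := by ring
  have hP2 : Bd ≤ Bd ^ 2 := by nlinarith
  have hLsum : n * (α * L) + m * (β * L) = L := by
    calc n * (α * L) + m * (β * L) = (n * α + m * β) * L := by ring
      _ = L := by rw [hab, one_mul]
  have hDle : D ≤ L + 3 * Bd ^ 2 := by
    have h1 : n * A ≤ n * (α * L) := by gcongr
    have h2 : m * C ≤ m * (β * L) := by gcongr
    linarith
  have hDge : L ≤ D := by
    have h1 : n * (α * L - 1) ≤ n * A := by gcongr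
    have h2 : m * (β * L - 1) ≤ m * C := by gcongr
    linarith
  have hD0 : 0 ≤ D := by linarith
  have hDL : D ≤ 4 * Bd ^ 2 * L := by
    have h1 : 1 ≤ Bd ^ 2 := by nlinarith
    nlinarith
  refine ⟨hDge, ?_⟩
  set X := α * κ + β * l with hX
  -- main part
  set G := w₀ * b / w with hG
  have hG0 : 0 ≤ G := by positivity
  have hG1 : 2 * X - 2 * h * α * β - om + μ / Bd ≤ G := by
    rw [hG, le_div_iff₀ hwp]
    have h1 : μ / Bd * w ≤ μ := by
      calc μ / Bd * w ≤ μ / Bd * Bd := by gcongr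
        _ = μ := by field_simp
    nlinarith
  have h1 : L ^ 2 / 2 * (2 * X - 2 * h * α * β + μ / Bd) ≤ D ^ 2 / 2 * (G + om) := by
    have h2 : L ^ 2 / 2 * (2 * X - 2 * h * α * β + μ / Bd) ≤ L ^ 2 / 2 * (G + om) := by
      apply mul_le_mul_of_nonneg_left _ (by positivity)
      linarith
    have h3 : L ^ 2 / 2 * (G + om) ≤ D ^ 2 / 2 * (G + om) := by
      apply mul_le_mul_of_nonneg_right _ (by linarith)
      nlinarith
    linarith
  -- costs
  have hAL : A ≤ L := hA1.trans (by nlinarith)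
  have hCL : C ≤ L := hC1.trans (by nlinarith)
  have key : ∀ (x y ξ z : ℝ), 0 ≤ x → x ≤ ξ * L → ξ * L - 1 ≤ x → x ≤ L → 1 ≤ y → y ≤ Bd →
      |z| ≤ Bd → |D * (z * (y + x)) - L ^ 2 * (ξ * z)| ≤ 8 * Bd ^ 4 * L := by
    intro x y ξ z hx0 hx1 hx2 hxL hy1 hy2 hz
    have h2 : D * (z * (y + x)) - L ^ 2 * (ξ * z) =
        (D * y + (D - L) * x + L * (x - ξ * L)) * z := by ring
    rw [h2, abs_mul]
    have h3 : |D * y + (D - L) * x + L * (x - ξ * L)| ≤ 8 * Bd ^ 3 * L := by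
      have h4 : D * y ≤ 4 * Bd ^ 2 * L * Bd := by gcongr
      have h5 : (D - L) * x ≤ 3 * Bd ^ 2 * L := by
        have h6 : D - L ≤ 3 * Bd ^ 2 := by linarith
        have h7 : 0 ≤ D - L := by linarith
        gcongr
      have h6 : 0 ≤ (D - L) * x := mul_nonneg (by linarith) hx0
      have h7 : 0 ≤ D * y := mul_nonneg hD0 (by linarith)
      have h8 : L * (x - ξ * L) ≤ 0 := mul_nonpos_of_nonneg_of_nonpos (by linarith) (by linarith)
      have h9 : -L ≤ L * (x - ξ * L) := by nlinarith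
      have h10 : Bd ^ 2 * L ≤ Bd ^ 3 * L := by
        apply mul_le_mul_of_nonneg_right _ (by linarith)
        nlinarith [sq_nonneg Bd]
      have h11 : L ≤ Bd ^ 3 * L := by
        have : 1 ≤ Bd ^ 3 := one_le_pow₀ hB
        nlinarith
      rw [abs_le]
      have h12 : 0 ≤ Bd ^ 3 * L := by positivity
      have h13 : Bd ^ 3 * L = Bd ^ 2 * L * Bd := by ring
      constructor
      · linarith
      · linarith
    calc |D * y + (D - L) * x + L * (x - ξ * L)| * |z| ≤ 8 * Bd ^ 3 * L * Bd := by gcongr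
      _ = 8 * Bd ^ 4 * L := by ring
  have k1 := (abs_le.1 (key A m α κ hA0 hA1 hA2 hAL hm hm2 hκ)).2
  have k2 := (abs_le.1 (key C n β l hC0 hC1 hC2 hCL hn hn2 hl)).2
  have k3 : |h * ((A + 1) * (C + 1)) - L ^ 2 * (h * α * β)| ≤ 3 * Bd * L := by
    have h2 : h * ((A + 1) * (C + 1)) - L ^ 2 * (h * α * β) =
        h * ((A + 1) * (C + 1) - α * L * (β * L)) := by ring
    rw [h2, abs_mul]
    have h3 : |(A + 1) * (C + 1) - α * L * (β * L)| ≤ 3 * L := by
      have h4 : α * L * (β * L) ≤ (A + 1) * (C + 1) := by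
        apply mul_le_mul (by linarith) (by linarith) (by positivity) (by linarith)
      have h5 : (A + 1) * (C + 1) ≤ (α * L + 1) * (β * L + 1) := by gcongr
      have h6 : α * L ≤ L := by nlinarith
      have h7 : β * L ≤ L := by nlinarith
      rw [abs_le]
      constructor
      · linarith
      · nlinarith
    calc |h| * |(A + 1) * (C + 1) - α * L * (β * L)| ≤ Bd * (3 * L) := by gcongr
      _ = 3 * Bd * L := by ring
  have k3' := (abs_le.1 k3).1
  have k4 : (w₀ + b) * D ≤ 8 * Bd ^ 3 * L := by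
    calc (w₀ + b) * D ≤ (Bd + Bd) * (4 * Bd ^ 2 * L) := by gcongr
      _ = 8 * Bd ^ 3 * L := by ring
  have k5 : om * D / 2 ≤ 2 * Bd ^ 3 * L := by
    have : om * D ≤ Bd * (4 * Bd ^ 2 * L) := by gcongr
    nlinarith
  have hp3 : Bd ^ 3 * L ≤ Bd ^ 4 * L := by
    apply mul_le_mul_of_nonneg_right _ (by linarith)
    exact pow_le_pow_right₀ hB (by norm_num)
  have hp1 : Bd * L ≤ Bd ^ 4 * L := by
    apply mul_le_mul_of_nonneg_right _ (by linarith)
    calc Bd = Bd ^ 1 := by ring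
      _ ≤ Bd ^ 4 := pow_le_pow_right₀ hB (by norm_num)
  have e1 : D ^ 2 * w₀ * b / (2 * w) = D ^ 2 / 2 * G := by
    rw [hG]; field_simp
  have e2 : L ^ 2 * μ / (2 * Bd) = L ^ 2 / 2 * (μ / Bd) := by field_simp
  rw [e1, e2]
  have e3 : L ^ 2 * (α * κ) + L ^ 2 * (β * l) = L ^ 2 * X := by rw [hX]; ring
  have hp0 : 0 ≤ Bd ^ 4 * L := by positivity
  linarith

theorem num (B μ : ℝ) (hμ : 0 < μ) : ∃ Am : ℕ, ∀ (m n : ℕ), 1 ≤ m → 1 ≤ n → (m : ℝ) ≤ B →
    (n : ℝ) ≤ B → ∀ (w₀ b w κ l h om α β : ℝ), 1 / B ≤ w₀ → w₀ ≤ B → 1 / B ≤ b → b ≤ B →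
    1 / B ≤ w → w ≤ B → |κ| ≤ B → |l| ≤ B → |h| ≤ B → 0 ≤ om → om ≤ B → 0 ≤ α → 0 ≤ β →
    n * α + m * β = 1 → w * (2 * (α * κ + β * l) - 2 * h * α * β - om) + μ ≤ w₀ * b →
    ∃ a c : ℕ, m ≤ a ∧ a ≤ Am ∧ n ≤ c ∧ c ≤ Am ∧ w₀ + b ≤ dq m n a c * w₀ * b / w ∧
      1 ≤ (dq m n a c : ℝ) ^ 2 * w₀ * b / (2 * w) - (w₀ + b) * dq m n a c -
        dq m n a c * (κ * a + l * c) + h * (((a - m + 1) * (c - n + 1) : ℕ) : ℝ) +
        om * ((dq m n a c * (dq m n a c - 1) / 2 : ℕ) : ℝ) := by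
  by_cases hB : 1 ≤ B
  swap
  · refine ⟨0, ?_⟩
    intro m n hm hn hmB hnB
    exfalso
    have : (1 : ℝ) ≤ m := by exact_mod_cast hm
    linarith
  obtain ⟨L, hL⟩ := exists_nat_ge (max 1 (max (2 * B ^ 4) ((2 * B / μ) * (30 * B ^ 4 + 1))))
  have hL1 : (1 : ℝ) ≤ L := (le_max_left _ _).trans hL
  have hL2 : 2 * B ^ 4 ≤ L := ((le_max_left _ _).trans (le_max_right _ _)).trans hL
  have hL3 : (2 * B / μ) * (30 * B ^ 4 + 1) ≤ L :=
    ((le_max_right _ _).trans (le_max_right _ _)).trans hL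
  have hBp : 0 < B := by linarith
  obtain ⟨N, hN⟩ := exists_nat_ge B
  refine ⟨N + L, ?_⟩
  intro m n hm hn hmB hnB w₀ b w κ l h om α β hw0 hw02 hb hb2 hw hw2 hκ hl hh hom hom2 hα hβ hab
    hst
  have hi : 0 < 1 / B := by positivity
  have hw00 : 0 < w₀ := by linarith
  have hb0 : 0 < b := by linarith
  have hwp : 0 < w := by linarith
  have hm' : (1 : ℝ) ≤ m := by exact_mod_cast hm
  have hn' : (1 : ℝ) ≤ n := by exact_mod_cast hn
  have hα1 : α ≤ 1 := by nlinarith [mul_nonneg (by linarith : (0:ℝ) ≤ m) hβ]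
  have hβ1 : β ≤ 1 := by nlinarith [mul_nonneg (by linarith : (0:ℝ) ≤ n) hα]
  set A : ℕ := ⌊α * L⌋₊ with hA
  set C : ℕ := ⌊β * L⌋₊ with hC
  have hA1 : (A : ℝ) ≤ α * L := Nat.floor_le (by positivity)
  have hC1 : (C : ℝ) ≤ β * L := Nat.floor_le (by positivity)
  have hA2 : α * L - 1 ≤ A := by
    have := Nat.lt_floor_add_one (α * (L : ℝ))
    rw [← hA] at this
    linarith
  have hC2 : β * L - 1 ≤ C := by
    have := Nat.lt_floor_add_one (β * (L : ℝ))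
    rw [← hC] at this
    linarith
  have hAL : A ≤ L := by
    have h1 : (A : ℝ) ≤ L := hA1.trans (by nlinarith)
    exact_mod_cast h1
  have hCL : C ≤ L := by
    have h1 : (C : ℝ) ≤ L := hC1.trans (by nlinarith)
    exact_mod_cast h1
  have hmN : m ≤ N := by
    have h1 : (m : ℝ) ≤ N := by linarith
    exact_mod_cast h1
  have hnN : n ≤ N := by
    have h1 : (n : ℝ) ≤ N := by linarith
    exact_mod_cast h1
  have hdq : dq m n (m + A) (n + C) = n * A + m * C + m * n + m + n := by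
    unfold dq
    have h1 : m + A - m + 1 = A + 1 := by omega
    have h2 : n + C - n + 1 = C + 1 := by omega
    rw [h1, h2]
    have h3 : (m + A + 1) * (n + C + 1) = (n * A + m * C + m * n + m + n) + (A + 1) * (C + 1) := by
      ring
    rw [h3, Nat.add_sub_cancel]
  obtain ⟨r1, r2⟩ := real_num B μ hB m n w₀ b w κ l h om α β L A C
    ((n : ℝ) * A + m * C + m * n + m + n) hw0 hw02 hb hb2 hw hw2 hκ hl hh hom hom2 hm' hmB hn' hnB
    hα hβ hab hμ hst hL1 (by positivity) hA1 hA2 (by positivity) hC1 hC2 rfl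
  have hdqr : (dq m n (m + A) (n + C) : ℝ) = (n : ℝ) * A + m * C + m * n + m + n := by
    rw [hdq]; push_cast; ring
  set D : ℕ := dq m n (m + A) (n + C) with hDdef
  rw [← hdqr] at r1 r2
  refine ⟨m + A, n + C, by omega, by omega, by omega, by omega, ?_, ?_⟩
  · rw [le_div_iff₀ hwp]
    have h1 : (w₀ + b) * w ≤ 2 * B * B := by
      calc (w₀ + b) * w ≤ (B + B) * B := by gcongr
        _ = 2 * B * B := by ring
    have h2 : 2 * B ^ 4 * (1 / B) * (1 / B) ≤ (D : ℝ) * w₀ * b := by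
      have : 2 * B ^ 4 ≤ (D : ℝ) := by linarith
      gcongr
    have h3 : 2 * B ^ 4 * (1 / B) * (1 / B) = 2 * B * B := by field_simp
    linarith
  · have h1 : ((m + A - m + 1) * (n + C - n + 1) : ℕ) = (A + 1) * (C + 1) := by
      have h1 : m + A - m + 1 = A + 1 := by omega
      have h2 : n + C - n + 1 = C + 1 := by omega
      rw [h1, h2]
    rw [h1]
    have h2 : ((D * (D - 1) / 2 : ℕ) : ℝ) = (D : ℝ) * (D - 1) / 2 := by
      have h3 : 2 ∣ D * (D - 1) := by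
        rcases Nat.even_or_odd D with hD | hD
        · exact dvd_mul_of_dvd_left hD.two_dvd _
        · exact dvd_mul_of_dvd_right (Nat.Odd.sub_odd hD odd_one).two_dvd _
      rw [Nat.cast_div h3 (by norm_num)]
      have h4 : 1 ≤ D := by
        have : (1 : ℝ) ≤ D := hL1.trans r1
        exact_mod_cast this
      rw [Nat.cast_mul, Nat.cast_sub h4]
      norm_num
    rw [h2]
    push_cast
    have h5 : 1 ≤ (L : ℝ) ^ 2 * μ / (2 * B) - 30 * B ^ 4 * L := by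
      have h6 : 30 * B ^ 4 + 1 ≤ L * μ / (2 * B) := by
        have h7 := mul_le_mul_of_nonneg_right hL3 (by positivity : (0:ℝ) ≤ μ / (2 * B))
        have h8 : 2 * B / μ * (30 * B ^ 4 + 1) * (μ / (2 * B)) = 30 * B ^ 4 + 1 := by
          field_simp
        have h9 : (L : ℝ) * (μ / (2 * B)) = L * μ / (2 * B) := by ring
        linarith
      have h10 : (L : ℝ) ^ 2 * μ / (2 * B) = L * (L * μ / (2 * B)) := by ring
      rw [h10]
      nlinarith
    linarith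

end Pool.Agent.Work.MP_f2148a_nt.M56.LD
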