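import Mathlib

set_option autoImplicit false

/-!
# LD/Wt (size S-M, Mathlib only): the weights of the monomials

Weight of `x : ℕ × ℕ`: `g x = w₀ x.1 + b x.2`.

`card_lt`: the number of `x` in the square with `g x < T` is at most `(T + w₀ + b) ^ 2 / (2 w₀ b)`. PROOF. For fixed `x.1 = i` with `w₀ i < T` the number of `j ≥ 0` with `b j < T - w₀ i` is at most
`(T - w₀ i) / b + 1 = (T + b - w₀ i) / b`, and `(A - w₀ i) ≤ ((A + w₀ - w₀ i) ^ 2 - (A - w₀ i) ^ 2) / (2 w₀)` for `A = T + b` (difference `w₀ / 2 ≥ 0`); telescoping over the `i` with `w₀ i < T`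
(at the last one `A - w₀ i > 0`): at most `(A + w₀) ^ 2 / (2 w₀)`.

`wt_gap`. `∑_M g ≥ T |M| - ∑_(x ∈ S) max 0 (T - g x)`, `S = range Z ×ˢ range Z` (outside `S`: `g ≥ T`). `|M| = D + |E'|`, so
`∑_M g - ∑_E' g - w |E'| ≥ T D + ∑_E' (T - w - g) - ∑_S max 0 (T - g)` and `E'` is the subset of `S` where `g < T - w`, so `∑_E' (T - w - g) = ∑_S max 0 (T - w - g)`; and
`max 0 (T - g) - max 0 (T - w - g) ≤ w` if `g < T`, and `= 0` if `g ≥ T`. So the difference is at least `T D - w * #{x ∈ S | g x < T}`; `card_lt`.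
-/

namespace Pool.Agent.Work.MP_f2148a_nt.M56.LD

private theorem row_le (b A : ℝ) (hb : 0 < b) (hA : 0 < A) (Z : ℕ) :
    (((Finset.range Z).filter (fun j : ℕ => b * (j : ℝ) < A)).card : ℝ) ≤ A / b + 1 := by
  have hsub : (Finset.range Z).filter (fun j : ℕ => b * (j : ℝ) < A) ⊆ Finset.range ⌈A / b⌉₊ := by
    intro j hj
    rw [Finset.mem_filter] at hj
    rw [Finset.mem_range, Nat.lt_ceil, lt_div_iff₀ hb]
    linarith [hj.2, mul_comm b (j : ℝ)]
  have h1 := Finset.card_le_card hsub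
  rw [Finset.card_range] at h1
  have h2 : ((⌈A / b⌉₊ : ℕ) : ℝ) < A / b + 1 := Nat.ceil_lt_add_one (by positivity)
  have h3 : (((Finset.range Z).filter (fun j : ℕ => b * (j : ℝ) < A)).card : ℝ) ≤ (⌈A / b⌉₊ : ℕ) := by
    exact_mod_cast h1
  linarith

theorem card_lt (w₀ b T : ℝ) (hw₀ : 0 < w₀) (hb : 0 < b) (hT : 0 ≤ T) (Z : ℕ) :
    (((Finset.range Z ×ˢ Finset.range Z).filter
      (fun x : ℕ × ℕ => w₀ * x.1 + b * x.2 < T)).card : ℝ) ≤ (T + w₀ + b) ^ 2 / (2 * w₀ * b) := by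
  classical
  set c : ℕ → ℕ := fun i => ((Finset.range Z).filter (fun j : ℕ => b * (j : ℝ) < T - w₀ * i)).card
    with hc
  have hcard : (((Finset.range Z ×ˢ Finset.range Z).filter
      (fun x : ℕ × ℕ => w₀ * x.1 + b * x.2 < T)).card : ℝ) = ∑ i ∈ Finset.range Z, (c i : ℝ) := by
    rw [Finset.card_filter, Finset.sum_product, Nat.cast_sum]
    refine Finset.sum_congr rfl fun i _ => ?_
    rw [hc]
    simp only
    rw [Finset.card_filter]
    congr 1
    refine Finset.sum_congr rfl fun j _ => ?_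
    have e : (w₀ * (i : ℝ) + b * (j : ℝ) < T) ↔ (b * (j : ℝ) < T - w₀ * i) := by
      constructor <;> intro h <;> linarith
    by_cases h : b * (j : ℝ) < T - w₀ * i
    · rw [if_pos h, if_pos (e.mpr h)]
    · rw [if_neg h, if_neg (fun h' => h (e.mp h'))]
  rw [hcard]
  set Φ : ℕ → ℝ := fun i => (max 0 (T + b + w₀ - w₀ * i)) ^ 2 / (2 * w₀ * b) with hΦ
  have hstep : ∀ i : ℕ, (c i : ℝ) ≤ Φ i - Φ (i + 1) := by
    intro i
    have hwb : 0 < 2 * w₀ * b := by positivity
    by_cases h : w₀ * (i : ℝ) < T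
    · have h1 := row_le b (T - w₀ * i) hb (by linarith) Z
      have e1 : max 0 (T + b + w₀ - w₀ * (i : ℝ)) = T + b + w₀ - w₀ * i := max_eq_right (by linarith)
      have e2 : max 0 (T + b + w₀ - w₀ * ((i + 1 : ℕ) : ℝ)) = T + b - w₀ * i := by
        push_cast
        rw [max_eq_right (by nlinarith)]
        ring
      have h2 : (c i : ℝ) ≤ (T - w₀ * i) / b + 1 := h1
      have h3 : Φ i - Φ (i + 1) = ((T + b + w₀ - w₀ * i) ^ 2 - (T + b - w₀ * i) ^ 2) / (2 * w₀ * b) := by
        rw [hΦ]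
        simp only
        rw [e1, e2]
        ring
      rw [h3]
      refine h2.trans ?_
      rw [le_div_iff₀ hwb]
      have h4 : ((T - w₀ * (i : ℝ)) / b + 1) * (2 * w₀ * b) = 2 * w₀ * (T - w₀ * i + b) := by
        field_simp
      rw [h4]
      nlinarith
    · have h0 : c i = 0 := by
        rw [hc]
        simp only
        rw [Finset.card_eq_zero, Finset.filter_eq_empty_iff]
        intro j _ hj
        have : 0 ≤ b * (j : ℝ) := by positivity
        exact h (by linarith)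
      rw [h0, Nat.cast_zero, sub_nonneg]
      rw [hΦ]
      simp only
      refine div_le_div_of_nonneg_right ?_ hwb.le
      refine pow_le_pow_left₀ (le_max_left _ _) ?_ 2
      refine max_le_max le_rfl ?_
      push_cast
      nlinarith
  have hsum : ∑ i ∈ Finset.range Z, (c i : ℝ) ≤ Φ 0 - Φ Z := by
    calc ∑ i ∈ Finset.range Z, (c i : ℝ) ≤ ∑ i ∈ Finset.range Z, (Φ i - Φ (i + 1)) :=
          Finset.sum_le_sum fun i _ => hstep i
      _ = Φ 0 - Φ Z := Finset.sum_range_sub' Φ Z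
  have hZ0 : 0 ≤ Φ Z := by
    rw [hΦ]
    positivity
  have h00 : Φ 0 = (T + w₀ + b) ^ 2 / (2 * w₀ * b) := by
    rw [hΦ]
    simp only
    rw [Nat.cast_zero, mul_zero, sub_zero, max_eq_right (by linarith)]
    ring
  linarith

theorem wt_gap (w₀ b w T : ℝ) (hw₀ : 0 < w₀) (hb : 0 < b) (hw : 0 < w) (hT : 0 ≤ T) (Z : ℕ)
    (hZ : ∀ x : ℕ × ℕ, w₀ * x.1 + b * x.2 < T → x.1 < Z ∧ x.2 < Z) (D : ℕ)
    (E' M : Finset (ℕ × ℕ)) (hE : E' = (Finset.range Z ×ˢ Finset.range Z).filter
      (fun x : ℕ × ℕ => w₀ * x.1 + b * x.2 < T - w)) (hM : M.card = D + E'.card) :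
    T * D - w * ((T + w₀ + b) ^ 2 / (2 * w₀ * b)) ≤
      ∑ x ∈ M, (w₀ * x.1 + b * x.2) - ∑ x ∈ E', (w₀ * x.1 + b * x.2) - w * E'.card := by
  classical
  set g : ℕ × ℕ → ℝ := fun x => w₀ * x.1 + b * x.2 with hg
  set S : Finset (ℕ × ℕ) := Finset.range Z ×ˢ Finset.range Z with hS
  have hcl := card_lt w₀ b T hw₀ hb hT Z
  have h1 : ∑ x ∈ M, max 0 (T - g x) ≤ ∑ x ∈ S, max 0 (T - g x) := by
    have hz : ∑ x ∈ S, max 0 (T - g x) = ∑ x ∈ M ∪ S, max 0 (T - g x) := by
      refine Finset.sum_subset Finset.subset_union_right fun x _ hx => ?_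
      refine max_eq_left ?_
      by_contra hlt
      push Not at hlt
      have h := hZ x (by simp only [hg] at hlt; linarith)
      exact hx (by rw [hS, Finset.mem_product, Finset.mem_range, Finset.mem_range]; exact h)
    rw [hz]
    exact Finset.sum_le_sum_of_subset_of_nonneg Finset.subset_union_left
      fun x _ _ => le_max_left _ _
  have h2 : T * M.card - ∑ x ∈ M, max 0 (T - g x) ≤ ∑ x ∈ M, g x := by
    have e : T * (M.card : ℝ) = ∑ x ∈ M, T := by
      rw [Finset.sum_const, nsmul_eq_mul, mul_comm]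
    rw [e, ← Finset.sum_sub_distrib]
    refine Finset.sum_le_sum fun x _ => ?_
    have := le_max_right 0 (T - g x)
    linarith
  have h3 : ∑ x ∈ E', (T - w - g x) = ∑ x ∈ S, max 0 (T - w - g x) := by
    rw [hE, Finset.sum_filter]
    refine Finset.sum_congr rfl fun x _ => ?_
    split_ifs with h
    · exact (max_eq_right (by simp only [hg]; linarith)).symm
    · exact (max_eq_left (by simp only [hg]; linarith)).symm
  have h4 : ∑ x ∈ E', (T - w - g x) = (T - w) * E'.card - ∑ x ∈ E', g x := by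
    rw [Finset.sum_sub_distrib, Finset.sum_const, nsmul_eq_mul]
    ring
  have h5 : ∑ x ∈ S, max 0 (T - g x) - ∑ x ∈ S, max 0 (T - w - g x) ≤
      w * ((S.filter (fun x : ℕ × ℕ => w₀ * x.1 + b * x.2 < T)).card : ℝ) := by
    rw [← Finset.sum_sub_distrib]
    have e : w * ((S.filter (fun x : ℕ × ℕ => w₀ * x.1 + b * x.2 < T)).card : ℝ) =
        ∑ x ∈ S, if w₀ * (x.1 : ℝ) + b * x.2 < T then w else 0 := by
      rw [← Finset.sum_filter, Finset.sum_const, nsmul_eq_mul, mul_comm]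
    rw [e]
    refine Finset.sum_le_sum fun x _ => ?_
    split_ifs with h
    · have e1 : max 0 (T - g x) = T - g x := max_eq_right (by simp only [hg]; linarith)
      have := le_max_right 0 (T - w - g x)
      rw [e1]
      linarith
    · have e1 : max 0 (T - g x) = 0 := max_eq_left (by simp only [hg]; linarith)
      have := le_max_left 0 (T - w - g x)
      rw [e1]
      linarith
  have h6 : (M.card : ℝ) = D + E'.card := by
    exact_mod_cast hM
  have h7 : w * ((S.filter (fun x : ℕ × ℕ => w₀ * x.1 + b * x.2 < T)).card : ℝ) ≤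
      w * ((T + w₀ + b) ^ 2 / (2 * w₀ * b)) := mul_le_mul_of_nonneg_left hcl hw.le
  have h8 : T * (M.card : ℝ) = T * D + T * E'.card := by
    rw [h6]
    ring
  have h9 : T * D - w * ((T + w₀ + b) ^ 2 / (2 * w₀ * b)) ≤
      ∑ x ∈ M, g x - ∑ x ∈ E', g x - w * E'.card := by
    have h4' : (T - w) * (E'.card : ℝ) = T * E'.card - w * E'.card := by ring
    linarith
  exact h9

end Pool.Agent.Work.MP_f2148a_nt.M56.LD
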