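import Mathlib
import Pool.Agent.Work.MP_f2148a_nt.M56.LD.Main
import Pool.Agent.Work.MP_f2148a_nt.M56.LD.Num
import Pool.Agent.Work.MP_f2148a_nt.M56.LD.Wt

set_option autoImplicit false

/-!
# LD/Fin (helper10): bounded number of points on an irreducible curve

Exponents in units of `log σ = Λ`: `ρ = σ ^ (-w₀)`, `γ = σ ^ (-b)`, `κ₀ = σ ^ κe`, `θ₀ = σ ^ l`, `p ≥ σ ^ om`, height `σ ^ h`, norm of the form on the box `≥ σ ^ (h - w)`.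
-/

namespace Pool.Agent.Work.MP_f2148a_nt.M56.LD

open Polynomial

private theorem unif {τ : Type} (S : Finset τ) (Q : τ → ℝ → Prop)
    (hmono : ∀ t C C', C ≤ C' → Q t C → Q t C') (h : ∀ t ∈ S, ∃ C, 0 < C ∧ Q t C) :
    ∃ C, 0 < C ∧ ∀ t ∈ S, Q t C := by
  classical
  induction S using Finset.induction_on with
  | empty => exact ⟨1, one_pos, fun t ht => absurd ht (Finset.notMem_empty t)⟩
  | insert x S _ ih =>
    obtain ⟨C, hC, hC2⟩ := ih fun t ht => h t (Finset.mem_insert_of_mem ht)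
    obtain ⟨C', hC', hC2'⟩ := h x (Finset.mem_insert_self _ _)
    refine ⟨max C C', lt_max_of_lt_left hC, fun t ht => ?_⟩
    rcases Finset.mem_insert.mp ht with rfl | ht
    · exact hmono _ _ _ (le_max_right _ _) hC2'
    · exact hmono _ _ _ (le_max_left _ _) (hC2 t ht)

/-- the statement of `main` with the constant `C` -/
private def Q (B : ℝ) (d : ℕ) (t : ℕ × ℕ × ℕ × ℕ × Finset (ℕ × ℕ)) (C : ℝ) : Prop :=
  t.1 ≤ t.2.2.1 → t.2.1 ≤ t.2.2.2.1 → ∀ (F : Frame) (g : ℤ[X][X]), Irr t.1 t.2.1 g →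
    ∀ (ι : Type) [Fintype ι] (P : Pts ι), P.On t.1 t.2.1 g →
      t.2.1 * t.2.2.1 + t.1 * t.2.2.2.1 < Fintype.card ι →
      ∀ p : ℕ, P.Dv p → ∀ (U₁ U₂ : A) (ρ γ κ₀ θ₀ : ℝ) (κ θ r z : ι → ℝ), 0 < κ₀ → 0 < θ₀ →
      Dat F P U₁ U₂ B d ρ γ κ₀ θ₀ κ θ r z → ∀ W : ℝ, 0 ≤ W →
      (∀ M : Finset (ℕ × ℕ), M.card = dq t.1 t.2.1 t.2.2.1 t.2.2.2.1 + t.2.2.2.2.card →
        ∏ x ∈ M, (ρ ^ x.1 * γ ^ x.2) ≤ W) →
      ht (cf (rl F t.1 t.2.1 g) : E t.1 t.2.1 → ℝ) ^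
            ((t.2.2.1 - t.1 + 1) * (t.2.2.2.1 - t.2.1 + 1)) *
          (p : ℝ) ^ (dq t.1 t.2.1 t.2.2.1 t.2.2.2.1 * (dq t.1 t.2.1 t.2.2.1 t.2.2.2.1 - 1) / 2) *
          nrm ρ γ (psi U₁ U₂ t.1 t.2.1 (rl F t.1 t.2.1 g)) ^ t.2.2.2.2.card *
          ∏ x ∈ t.2.2.2.2, (ρ ^ x.1 * γ ^ x.2) ≤
        C * ht (cf (rl F t.1 t.2.1 g) : E t.1 t.2.1 → ℝ) ^ t.2.2.2.2.card *
          (κ₀ ^ t.2.2.1 * θ₀ ^ t.2.2.2.1) ^ dq t.1 t.2.1 t.2.2.1 t.2.2.2.1 * W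

private theorem prod_exp (Λ w₀ b : ℝ) (M : Finset (ℕ × ℕ)) :
    ∏ x ∈ M, (Real.exp (-(Λ * w₀)) ^ x.1 * Real.exp (-(Λ * b)) ^ x.2) =
      Real.exp (-(Λ * ∑ x ∈ M, (w₀ * x.1 + b * x.2))) := by
  rw [Finset.mul_sum, ← Finset.sum_neg_distrib, Real.exp_sum]
  refine Finset.prod_congr rfl fun x _ => ?_
  rw [← Real.exp_nat_mul, ← Real.exp_nat_mul, ← Real.exp_add]
  congr 1
  ring

theorem fin (B μ : ℝ) (hμ : 0 < μ) (d : ℕ) : ∃ (J : ℕ) (Λ₀ : ℝ), ∀ Λ : ℝ, Λ₀ ≤ Λ →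
    ∀ (m n : ℕ), 1 ≤ m → 1 ≤ n → (m : ℝ) ≤ B → (n : ℝ) ≤ B →
    ∀ (w₀ b w κe l h om α β : ℝ), 1 / B ≤ w₀ → w₀ ≤ B → 1 / B ≤ b → b ≤ B →
    1 / B ≤ w → w ≤ B → |κe| ≤ B → |l| ≤ B → |h| ≤ B → 0 ≤ om → om ≤ B →
    0 ≤ α → 0 ≤ β → n * α + m * β = 1 →
    w * (2 * (α * κe + β * l) - 2 * h * α * β - om) + μ ≤ w₀ * b →
    ∀ (F : Frame) (g : ℤ[X][X]), Irr m n g → ∀ (ι : Type) [Fintype ι] (P : Pts ι),
      P.On m n g → ∀ p : ℕ, P.Dv p → Real.exp (Λ * om) ≤ p →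
      ∀ (U₁ U₂ : A) (κ θ r z : ι → ℝ), Dat F P U₁ U₂ B d (Real.exp (-(Λ * w₀)))
        (Real.exp (-(Λ * b))) (Real.exp (Λ * κe)) (Real.exp (Λ * l)) κ θ r z →
      ht (cf (rl F m n g) : E m n → ℝ) = Real.exp (Λ * h) →
      Real.exp (Λ * (h - w)) ≤ nrm (Real.exp (-(Λ * w₀))) (Real.exp (-(Λ * b)))
        (psi U₁ U₂ m n (rl F m n g)) → Fintype.card ι ≤ J := by
  classical
  rcases lt_or_ge B 1 with hB | hB
  · refine ⟨0, 0, ?_⟩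
    intro Λ _ m n hm _ hmB
    have h1 : (1 : ℝ) ≤ m := by exact_mod_cast hm
    linarith
  obtain ⟨Am, hnum⟩ := num B μ hμ
  obtain ⟨Z, hZ⟩ : ∃ Z : ℕ, ((Am + 1 : ℕ) : ℝ) ^ 2 * B ^ 4 ≤ Z := exists_nat_ge _
  obtain ⟨C, hC, hQ⟩ := unif ((Finset.range (Am + 1)) ×ˢ (Finset.range (Am + 1)) ×ˢ
    (Finset.range (Am + 1)) ×ˢ (Finset.range (Am + 1)) ×ˢ
      (Finset.range Z ×ˢ Finset.range Z).powerset) (Q B d) (by
      intro t C C' hCC h h1 h2 F g hg ι _ P hP hc p hD U₁ U₂ ρ γ κ₀ θ₀ κ θ r z hκ hθ hDat W hW hM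
      refine (h h1 h2 F g hg ι P hP hc p hD U₁ U₂ ρ γ κ₀ θ₀ κ θ r z hκ hθ hDat W hW hM).trans ?_
      have h0 : 0 ≤ ht (cf (rl F t.1 t.2.1 g) : E t.1 t.2.1 → ℝ) :=
        Finset.sum_nonneg fun _ _ => abs_nonneg _
      gcongr) (by
      intro t _
      by_cases h1 : t.1 ≤ t.2.2.1
      · by_cases h2 : t.2.1 ≤ t.2.2.2.1
        · obtain ⟨C, hC, hC2⟩ := main t.1 t.2.1 t.2.2.1 t.2.2.2.1 h1 h2 B d t.2.2.2.2
          refine ⟨C, hC, ?_⟩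
          intro _ _ F g hg ι _ P hP hc p hD U₁ U₂ ρ γ κ₀ θ₀ κ θ r z _ _ hDat W hW hM
          exact hC2 F g hg ι P hP hc p hD U₁ U₂ ρ γ κ₀ θ₀ κ θ r z hDat W hW hM
        · exact ⟨1, one_pos, fun _ h => absurd h h2⟩
      · exact ⟨1, one_pos, fun h => absurd h h1⟩)
  refine ⟨2 * Am * Am, max 1 (Real.log C + 1), ?_⟩
  intro Λ hΛ m n hm hn hmB hnB w₀ b w κe l h om α β hw₀ hw₀' hb hb' hw hw' hκe hl hh hom hom' hα hβ
    hαβ hkey F g hg ι _ P hP p hDv hp U₁ U₂ κ θ r z hDat hH hnrm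
  obtain ⟨a, c, hma, haA, hnc, hcA, hT0, hineq⟩ := hnum m n hm hn hmB hnB w₀ b w κe l h om α β hw₀ hw₀'
    hb hb' hw hw' hκe hl hh hom hom' hα hβ hαβ hkey
  by_contra hcon
  have hBpos : 0 < B := by linarith
  have h1B : 0 < 1 / B := by positivity
  have hw₀p : 0 < w₀ := lt_of_lt_of_le h1B hw₀
  have hbp : 0 < b := lt_of_lt_of_le h1B hb
  have hwp : 0 < w := lt_of_lt_of_le h1B hw
  have hΛ1 : 1 ≤ Λ := (le_max_left _ _).trans hΛ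
  have hΛ2 : Real.log C + 1 ≤ Λ := (le_max_right _ _).trans hΛ
  have hcard : n * a + m * c < Fintype.card ι := by
    have e1 : n * a ≤ Am * Am := Nat.mul_le_mul (hnc.trans hcA) haA
    have e2 : m * c ≤ Am * Am := Nat.mul_le_mul (hma.trans haA) hcA
    have e3 : 2 * Am * Am = Am * Am + Am * Am := by ring
    omega
  obtain ⟨D, hDdef⟩ : ∃ D : ℕ, D = dq m n a c := ⟨_, rfl⟩
  obtain ⟨T, hT⟩ : ∃ T : ℝ, T = D * w₀ * b / w - (w₀ + b) := ⟨_, rfl⟩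
  rw [← hDdef] at hT0 hineq
  have hT0' : 0 ≤ T := by
    rw [hT]
    linarith
  have hDle : (D : ℝ) ≤ ((Am + 1 : ℕ) : ℝ) ^ 2 := by
    have h1 : D ≤ (Am + 1) ^ 2 := by
      rw [hDdef, dq, sq]
      exact (Nat.sub_le _ _).trans (Nat.mul_le_mul (by omega) (by omega))
    exact_mod_cast h1
  have hTle : T ≤ ((Am + 1 : ℕ) : ℝ) ^ 2 * B ^ 3 := by
    have h1 : D * w₀ * b / w ≤ ((Am + 1 : ℕ) : ℝ) ^ 2 * B * B * B := by
      rw [div_le_iff₀ hwp]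
      have h2 : 1 ≤ B * w := by
        rw [div_le_iff₀ hBpos] at hw
        linarith [mul_comm w B]
      have h3 : (D : ℝ) * w₀ * b ≤ ((Am + 1 : ℕ) : ℝ) ^ 2 * B * B := by gcongr
      have h4 : 0 ≤ ((Am + 1 : ℕ) : ℝ) ^ 2 * B * B := by positivity
      calc (D : ℝ) * w₀ * b ≤ ((Am + 1 : ℕ) : ℝ) ^ 2 * B * B * 1 := by rw [mul_one]; exact h3
        _ ≤ ((Am + 1 : ℕ) : ℝ) ^ 2 * B * B * (B * w) := mul_le_mul_of_nonneg_left h2 h4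
        _ = ((Am + 1 : ℕ) : ℝ) ^ 2 * B * B * B * w := by ring
    have h2 : ((Am + 1 : ℕ) : ℝ) ^ 2 * B * B * B = ((Am + 1 : ℕ) : ℝ) ^ 2 * B ^ 3 := by ring
    rw [hT, ← h2]
    linarith
  have hZ' : ∀ x : ℕ × ℕ, w₀ * x.1 + b * x.2 < T → x.1 < Z ∧ x.2 < Z := by
    intro x hx
    have haux : ∀ (v : ℝ) (k : ℕ), 1 / B ≤ v → v * k < T → k < Z := by
      intro v k hv hk
      have h1 : (1 / B) * k ≤ v * k := mul_le_mul_of_nonneg_right hv (Nat.cast_nonneg k)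
      have h2 : (1 / B) * k < ((Am + 1 : ℕ) : ℝ) ^ 2 * B ^ 3 := by linarith
      have h3 : (k : ℝ) < ((Am + 1 : ℕ) : ℝ) ^ 2 * B ^ 4 := by
        have h4 := mul_lt_mul_of_pos_left h2 hBpos
        calc (k : ℝ) = B * ((1 / B) * k) := by field_simp
          _ < B * (((Am + 1 : ℕ) : ℝ) ^ 2 * B ^ 3) := h4
          _ = _ := by ring
      exact_mod_cast lt_of_lt_of_le h3 hZ
    have hx1 : (0 : ℝ) ≤ w₀ * x.1 := by positivity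
    have hx2 : (0 : ℝ) ≤ b * x.2 := by positivity
    exact ⟨haux w₀ x.1 hw₀ (by linarith), haux b x.2 hb (by linarith)⟩
  obtain ⟨E', hE'⟩ : ∃ E' : Finset (ℕ × ℕ), E' = (Finset.range Z ×ˢ Finset.range Z).filter
      (fun x : ℕ × ℕ => w₀ * x.1 + b * x.2 < T - w) := ⟨_, rfl⟩
  have hmem : ((m, n, a, c, E') : ℕ × ℕ × ℕ × ℕ × Finset (ℕ × ℕ)) ∈ (Finset.range (Am + 1)) ×ˢ
    (Finset.range (Am + 1)) ×ˢ (Finset.range (Am + 1)) ×ˢ (Finset.range (Am + 1)) ×ˢ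
      (Finset.range Z ×ˢ Finset.range Z).powerset := by
    simp only [Finset.mem_product, Finset.mem_range, Finset.mem_powerset]
    refine ⟨by omega, by omega, by omega, by omega, ?_⟩
    rw [hE']
    exact Finset.filter_subset _ _
  have hsq : w * ((T + w₀ + b) ^ 2 / (2 * w₀ * b)) = (D : ℝ) ^ 2 * w₀ * b / (2 * w) := by
    rw [hT]
    field_simp
    ring
  have key := hQ _ hmem hma hnc F g hg ι P hP hcard p hDv U₁ U₂ _ _ _ _ κ θ r z (Real.exp_pos _)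
    (Real.exp_pos _) hDat (Real.exp (-(Λ * (T * D - w * ((T + w₀ + b) ^ 2 / (2 * w₀ * b)) +
      ∑ x ∈ E', (w₀ * x.1 + b * x.2) + w * E'.card)))) (Real.exp_pos _).le (by
      intro M hM
      simp only at hM
      rw [prod_exp, Real.exp_le_exp, neg_le_neg_iff]
      refine mul_le_mul_of_nonneg_left ?_ (by linarith)
      have h1 := wt_gap w₀ b w T hw₀p hbp hwp hT0' Z hZ' D E' M hE' (by rw [hM, hDdef])
      linarith)
  simp only at key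
  rw [prod_exp, hH, hsq, ← hDdef] at key
  obtain ⟨S, hS⟩ : ∃ S : ℝ, S = ∑ x ∈ E', (w₀ * (x.1 : ℝ) + b * (x.2 : ℝ)) := ⟨_, rfl⟩
  rw [← hS] at key
  -- lower bound of the left side
  have hlow : Real.exp (Λ * h) ^ ((a - m + 1) * (c - n + 1)) *
      Real.exp (Λ * om) ^ (D * (D - 1) / 2) * Real.exp (Λ * (h - w)) ^ E'.card *
      Real.exp (-(Λ * S)) ≤ C * Real.exp (Λ * h) ^ E'.card *
        (Real.exp (Λ * κe) ^ a * Real.exp (Λ * l) ^ c) ^ D *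
        Real.exp (-(Λ * (T * D - (D : ℝ) ^ 2 * w₀ * b / (2 * w) + S + w * E'.card))) := by
    refine le_trans ?_ key
    gcongr
  rw [← Real.exp_nat_mul, ← Real.exp_nat_mul, ← Real.exp_nat_mul, ← Real.exp_nat_mul,
    ← Real.exp_nat_mul, ← Real.exp_nat_mul, ← Real.exp_add, ← Real.exp_add, ← Real.exp_add,
    ← Real.exp_add, ← Real.exp_nat_mul, mul_assoc, mul_assoc, ← Real.exp_add, ← Real.exp_add] at hlow
  have hCexp : C = Real.exp (Real.log C) := (Real.exp_log hC).symm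
  rw [hCexp, ← Real.exp_add, Real.exp_le_exp] at hlow
  have hTD : T * D = (D : ℝ) ^ 2 * w₀ * b / w - (w₀ + b) * D := by
    rw [hT]
    field_simp
  have hhalf : (D : ℝ) ^ 2 * w₀ * b / w = 2 * ((D : ℝ) ^ 2 * w₀ * b / (2 * w)) := by
    field_simp
  rw [hTD, hhalf] at hlow
  obtain ⟨R, hR⟩ : ∃ R : ℝ, R = (D : ℝ) ^ 2 * w₀ * b / (2 * w) := ⟨_, rfl⟩
  rw [← hR] at hlow hineq
  have hfin := mul_le_mul_of_nonneg_left hineq (by linarith : (0 : ℝ) ≤ Λ)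
  have : Λ ≤ Real.log C := by
    nlinarith [hlow, hfin]
  linarith

end Pool.Agent.Work.MP_f2148a_nt.M56.LD
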