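import Mathlib
import Pool.Agent.Work.MP_f2148a_nt.M56.LD.Uni

set_option autoImplicit false

/-!
# LD/Hgt (size M): the coefficients of an irreducible form with many integral zeros are bounded

PROOF. Let `Z : Matrix ι (E m n) ℤ`, `Z i e = mon m n (s i) (t i) (u i) (v i) e`. Its kernel is `ℤ cf g`: `cf g` is in the kernel (`On.zero`, definition of `ev`), and if `c` is in the kernel, then
`f = ∑ monomial e.2 (monomial e.1 (c e))` vanishes at all points, so `g ∣ f` by `bez` (`2 m n = n m + m n`), and the quotient has bidegree `(0, 0)` (exact bidegree of `g`): `c = k • cf g`. So the rank over `ℚ` is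
`card E - 1`: there are `card E - 1` rows that are independent. The vector of the signed minors of these rows is a nonzero integral vector in the kernel (or: add a row, `Matrix.adjugate`, `Matrix.cramer`), so it is
`k • cf g` with `k ≠ 0`, and `|cf g e| ≤ |minor| ≤ (card E)! * Y ^ ((m + n) * card E)` because every entry of `Z` is at most `Y ^ (m + n)`.
-/

namespace Pool.Agent.Work.MP_f2148a_nt.M56.LD

open Polynomial

private theorem cf_sum' {m n : ℕ} (c : E m n → ℤ) (e : E m n) :
    cf (∑ e' : E m n, monomial (e'.2 : ℕ) (monomial (e'.1 : ℕ) (c e'))) e = c e := by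
  unfold cf
  rw [Polynomial.finsetSum_coeff, Polynomial.finsetSum_coeff, Finset.sum_eq_single e]
  · simp
  · intro b _ hb
    rw [Polynomial.coeff_monomial]
    split_ifs with h
    · rw [Polynomial.coeff_monomial]
      split_ifs with h'
      · exfalso
        apply hb
        exact Prod.ext (Fin.ext h') (Fin.ext h)
      · rfl
    · simp
  · intro h
    exact absurd (Finset.mem_univ _) h

private theorem ker_eq (m n : ℕ) {g : ℤ[X][X]} (hg : Irr m n g) {ι : Type*} [Fintype ι] {P : Pts ι}
    (hP : P.On m n g) (hc : 2 * m * n < Fintype.card ι) (c : E m n → ℤ)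
    (h0 : ∀ i, ∑ e, mon m n (P.s i) (P.t i) (P.u i) (P.v i) e * c e = 0) :
    ∃ k : ℤ, ∀ e, c e = k * cf g e := by
  set f : ℤ[X][X] := ∑ e' : E m n, monomial (e'.2 : ℕ) (monomial (e'.1 : ℕ) (c e')) with hf
  have hfc : ∀ e : E m n, cf f e = c e := fun e => cf_sum' c e
  have hbd : Bd m n f := Bd.sum _ _ fun e _ => Bd.monomial e (c e)
  have hdvd : g ∣ f := by
    refine bez hg hP (a := m) (b := n) ?_ hbd ?_
    · calc n * m + m * n = 2 * m * n := by ring
        _ < _ := hc
    · intro i
      unfold ev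
      rw [← h0 i]
      refine Finset.sum_congr rfl fun e _ => ?_
      rw [hfc e]
      simp only [algebraMap_int_eq, eq_intCast, Int.cast_id]
      ring
  obtain ⟨q, hq⟩ := hdvd
  by_cases hf0 : f = 0
  · refine ⟨0, fun e => ?_⟩
    rw [← hfc e, hf0]
    simp [cf]
  have hg0 : g ≠ 0 := hg.irr.ne_zero
  have hq0 : q ≠ 0 := by
    rintro rfl
    exact hf0 (by rw [hq, mul_zero])
  have hdq : q.natDegree = 0 := by
    have h1 : f.natDegree = g.natDegree + q.natDegree := by rw [hq, natDegree_mul hg0 hq0]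
    have h2 := hbd.1
    have h3 := hg.ex.top
    omega
  obtain ⟨q0, hq0'⟩ : ∃ q0, q = C q0 := ⟨_, eq_C_of_natDegree_eq_zero hdq⟩
  have hq00 : q0 ≠ 0 := by
    rintro rfl
    exact hq0 (by rw [hq0', C_0])
  obtain ⟨j, hj0, hjm⟩ : ∃ j, g.coeff j ≠ 0 ∧ (g.coeff j).natDegree = m := by
    obtain ⟨j, hj⟩ := hg.ex.wid
    by_cases hz : g.coeff j = 0
    · have hm : m = 0 := by rw [← hj, hz, natDegree_zero]
      refine ⟨g.natDegree, ?_, ?_⟩
      · exact leadingCoeff_ne_zero.mpr hg0
      · have := hg.ex.bd.2 g.natDegree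
        omega
    · exact ⟨j, hz, hj⟩
  have hd0 : q0.natDegree = 0 := by
    have h1 : f.coeff j = g.coeff j * q0 := by rw [hq, hq0', coeff_mul_C]
    have h2 := hbd.2 j
    rw [h1, natDegree_mul hj0 hq00] at h2
    omega
  obtain ⟨k, hk⟩ : ∃ k, q0 = C k := ⟨_, eq_C_of_natDegree_eq_zero hd0⟩
  refine ⟨k, fun e => ?_⟩
  rw [← hfc e, hq, hq0', hk, mul_comm g, cf_C_mul]

private theorem exists_rows {κ ι : Type*} [Fintype κ] [DecidableEq κ] (Z : ι → κ → ℤ) (c0 : κ → ℤ) (e0 : κ)
    (he0 : c0 e0 ≠ 0)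
    (hker : ∀ c : κ → ℤ, (∀ i, ∑ e, Z i e * c e = 0) → ∃ k : ℤ, ∀ e, c e = k * c0 e) :
    ∃ W : Matrix κ κ ℤ, W e0 = Pi.single e0 1 ∧ (∀ e, e ≠ e0 → ∃ i, W e = Z i) ∧ W.det ≠ 0 := by
  classical
  set z : ι → κ → ℚ := fun i e => (Z i e : ℚ) with hz
  set u0 : κ → ℚ := Pi.single e0 1 with hu0
  have hu00 : u0 ≠ 0 := by
    intro h
    have := congrFun h e0
    simp [hu0] at this
  set t : Set (κ → ℚ) := insert u0 (Set.range z) with ht
  have hspan : Submodule.span ℚ t = ⊤ := by
    by_contra hne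
    obtain ⟨f, hf0, hfk⟩ := Submodule.exists_le_ker_of_lt_top _ (lt_top_iff_ne_top.mpr hne)
    set x : κ → ℚ := fun e => f (Pi.single e 1) with hx
    have hfx : ∀ v : κ → ℚ, f v = ∑ e, v e * x e := by
      intro v
      have hv : v = ∑ e, v e • (Pi.single e 1 : κ → ℚ) := by
        ext e'
        simp [Finset.sum_apply, Pi.single_apply]
      conv_lhs => rw [hv]
      rw [map_sum]
      refine Finset.sum_congr rfl fun e _ => ?_
      rw [map_smul, smul_eq_mul]
    obtain ⟨b, hb⟩ := IsLocalization.exist_integer_multiples_of_finite (nonZeroDivisors ℤ) x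
    choose c hc using hb
    have hb0 : ((b : ℤ) : ℚ) ≠ 0 := by
      have := nonZeroDivisors.ne_zero b.2
      exact_mod_cast this
    have hcx : ∀ e, (c e : ℚ) = (b : ℤ) * x e := by
      intro e
      have := hc e
      simp only [algebraMap_int_eq, eq_intCast] at this
      rw [this, zsmul_eq_mul]
    have hk := hker c (by
      intro i
      have h1 : f (z i) = 0 := hfk (Submodule.subset_span (Set.mem_insert_of_mem _ ⟨i, rfl⟩))
      rw [hfx] at h1
      have h2 : ((∑ e, Z i e * c e : ℤ) : ℚ) = 0 := by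
        push_cast
        calc ∑ e, (Z i e : ℚ) * (c e : ℚ) = (b : ℤ) * ∑ e, z i e * x e := by
              rw [Finset.mul_sum]
              refine Finset.sum_congr rfl fun e _ => ?_
              rw [hcx e]
              simp only [hz]
              ring
          _ = 0 := by rw [h1, mul_zero]
      exact_mod_cast h2)
    obtain ⟨k, hk⟩ := hk
    have hx0 : x e0 = 0 := by
      have : f u0 = 0 := hfk (Submodule.subset_span (Set.mem_insert _ _))
      exact this
    have hc0 : c e0 = 0 := by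
      have := hcx e0
      rw [hx0, mul_zero] at this
      exact_mod_cast this
    have hk0 : k = 0 := by
      have h := hk e0
      rw [hc0] at h
      rcases mul_eq_zero.mp h.symm with h | h
      · exact h
      · exact absurd h he0
    apply hf0
    ext e
    have h := hcx e
    rw [hk e, hk0] at h
    simp only [zero_mul, Int.cast_zero] at h
    have h' : x e = 0 := by
      rcases mul_eq_zero.mp h.symm with h | h
      · exact absurd h hb0
      · exact h
    simpa [hx] using h'
  obtain ⟨B, hBt, hsB, htB, hli⟩ := exists_linearIndepOn_extension (K := ℚ) (v := id)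
    (s := {u0}) (t := t) (LinearIndepOn.singleton hu00) (by
      intro y hy
      rw [Set.mem_singleton_iff] at hy
      rw [hy]
      exact Set.mem_insert _ _)
  have hBspan : ⊤ ≤ Submodule.span ℚ (Set.range ((↑) : B → κ → ℚ)) := by
    rw [Subtype.range_coe, ← hspan]
    refine Submodule.span_le.mpr ?_
    simpa using htB
  have hli' : LinearIndependent ℚ ((↑) : B → κ → ℚ) := hli
  let bas : Module.Basis B ℚ (κ → ℚ) := Module.Basis.mk hli' hBspan
  let σ0 : κ ≃ B := (Pi.basisFun ℚ κ).indexEquiv bas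
  have hu0B : u0 ∈ B := hsB rfl
  let σ : κ ≃ B := (Equiv.swap (σ0.symm ⟨u0, hu0B⟩) e0).trans σ0
  have hσ : σ e0 = ⟨u0, hu0B⟩ := by
    simp [σ]
  have hσ' : ∀ e, e ≠ e0 → ∃ i, ((σ e : B) : κ → ℚ) = z i := by
    intro e he
    have h1 : ((σ e : B) : κ → ℚ) ∈ t := hBt (σ e).2
    rcases h1 with h1 | ⟨i, hi⟩
    · exfalso
      apply he
      apply σ.injective
      rw [hσ]
      exact Subtype.ext h1
    · exact ⟨i, hi.symm⟩
  choose φ hφ using hσ'
  let W : Matrix κ κ ℤ := fun e => if h : e = e0 then Pi.single e0 1 else Z (φ e h)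
  have hWmap : (W.map (Int.cast : ℤ → ℚ)) = fun e => ((σ e : B) : κ → ℚ) := by
    funext e e'
    simp only [Matrix.map_apply, W]
    split_ifs with h
    · rw [h, hσ]
      simp only [hu0, Pi.single_apply]
      split_ifs <;> simp
    · rw [hφ e h]
  refine ⟨W, by simp [W], fun e he => ⟨φ e he, by simp [W, he]⟩, ?_⟩
  intro hdet
  have h1 : (W.map (Int.cast : ℤ → ℚ)).det = 0 := by
    have := Int.cast_det (R := ℚ) W
    rw [← this, hdet, Int.cast_zero]
  have h2 : LinearIndependent ℚ (fun e => ((σ e : B) : κ → ℚ)) := hli'.comp σ σ.injective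
  have h3 : IsUnit (W.map (Int.cast : ℤ → ℚ)) := by
    rw [← Matrix.linearIndependent_rows_iff_isUnit]
    have : (W.map (Int.cast : ℤ → ℚ)).row = fun e => ((σ e : B) : κ → ℚ) := hWmap
    rw [this]
    exact h2
  rw [Matrix.isUnit_iff_isUnit_det, h1] at h3
  exact not_isUnit_zero h3

theorem hgt (m n : ℕ) {g : ℤ[X][X]} (hg : Irr m n g) {ι : Type*} [Fintype ι] {P : Pts ι}
    (hP : P.On m n g) (hc : 2 * m * n < Fintype.card ι) (Y : ℤ) (hY : 1 ≤ Y)
    (hb : ∀ i, |P.s i| ≤ Y ∧ |P.t i| ≤ Y ∧ |P.u i| ≤ Y ∧ |P.v i| ≤ Y) (e : E m n) :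
    |cf g e| ≤ ((m + 1) * (n + 1)).factorial * Y ^ ((m + n) * ((m + 1) * (n + 1))) := by
  classical
  set Z : ι → E m n → ℤ := fun i e => mon m n (P.s i) (P.t i) (P.u i) (P.v i) e with hZ
  have hg0 : g ≠ 0 := hg.irr.ne_zero
  obtain ⟨e0, he0⟩ : ∃ e0 : E m n, cf g e0 ≠ 0 := by
    by_contra hne
    push Not at hne
    apply hg0
    rw [eq_sum hg.ex.bd]
    refine Finset.sum_eq_zero fun e _ => ?_
    rw [hne e, map_zero, map_zero]
  have hgk : ∀ i, ∑ e, Z i e * cf g e = 0 := by
    intro i
    have := hP.zero i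
    unfold ev at this
    rw [← this]
    refine Finset.sum_congr rfl fun e _ => ?_
    simp only [hZ, algebraMap_int_eq, eq_intCast, Int.cast_id]
    ring
  obtain ⟨W, hW0, hW1, hWd⟩ := exists_rows Z (cf g) e0 he0 (fun c h => ker_eq m n hg hP hc c h)
  have hWc : W.mulVec (cf g) = Pi.single e0 (cf g e0) := by
    funext e'
    by_cases h : e' = e0
    · subst h
      simp [Matrix.mulVec, dotProduct, hW0, Pi.single_apply]
    · obtain ⟨i, hi⟩ := hW1 e' h
      simp only [Matrix.mulVec, dotProduct, hi]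
      rw [hgk i, Pi.single_eq_of_ne h]
  set a : E m n → ℤ := fun e => W.adjugate e e0 with ha
  have hac : ∀ e, W.det * cf g e = a e * cf g e0 := by
    intro e
    have h1 : (W.adjugate * W).mulVec (cf g) = W.adjugate.mulVec (Pi.single e0 (cf g e0)) := by
      rw [← hWc, Matrix.mulVec_mulVec]
    rw [Matrix.adjugate_mul, Matrix.smul_mulVec, Matrix.one_mulVec] at h1
    have h2 := congrFun h1 e
    rw [Matrix.mulVec_single] at h2
    simpa [ha] using h2
  have hak : ∀ i, ∑ e, Z i e * a e = 0 := by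
    intro i
    have h1 : (∑ e, Z i e * a e) * cf g e0 = 0 := by
      rw [Finset.sum_mul]
      calc ∑ e, Z i e * a e * cf g e0 = W.det * ∑ e, Z i e * cf g e := by
            rw [Finset.mul_sum]
            refine Finset.sum_congr rfl fun e _ => ?_
            rw [mul_assoc, ← hac e]
            ring
        _ = 0 := by rw [hgk i, mul_zero]
    rcases mul_eq_zero.mp h1 with h | h
    · exact h
    · exact absurd h he0
  obtain ⟨k, hk⟩ := ker_eq m n hg hP hc a hak
  have hk0 : k ≠ 0 := by
    rintro rfl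
    have h1 := hac e0
    rw [hk e0, zero_mul, zero_mul] at h1
    rcases mul_eq_zero.mp h1 with h | h
    · exact hWd h
    · exact he0 h
  have hle : |cf g e| ≤ |a e| := by
    rw [hk e, abs_mul]
    have h1 : 1 ≤ |k| := Int.one_le_abs hk0
    nlinarith [abs_nonneg (cf g e)]
  have hY0 : (0 : ℤ) ≤ Y := by omega
  have hYp : (1 : ℤ) ≤ Y ^ (m + n) := one_le_pow₀ hY
  have hent : ∀ i j, |(W.updateRow e0 (Pi.single e 1)) i j| ≤ Y ^ (m + n) := by
    intro i j
    by_cases h : i = e0
    · subst h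
      rw [Matrix.updateRow_self, Pi.single_apply]
      split_ifs
      · simpa using hYp
      · simp only [abs_zero]
        linarith
    · rw [Matrix.updateRow_ne h]
      obtain ⟨l, hl⟩ := hW1 i h
      rw [hl]
      simp only [hZ, mon, abs_mul, abs_pow]
      obtain ⟨h1, h2, h3, h4⟩ := hb l
      have hj1 : (j.1 : ℕ) ≤ m := Nat.lt_succ_iff.mp j.1.2
      have hj2 : (j.2 : ℕ) ≤ n := Nat.lt_succ_iff.mp j.2.2
      have e1 : Y ^ (m + n) = Y ^ (j.1 : ℕ) * Y ^ (m - j.1) * (Y ^ (j.2 : ℕ) * Y ^ (n - j.2)) := by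
        rw [← pow_add, ← pow_add, ← pow_add]
        congr 1
        omega
      rw [e1]
      gcongr
  have hdet : |a e| ≤ ((m + 1) * (n + 1)).factorial * Y ^ ((m + n) * ((m + 1) * (n + 1))) := by
    have h1 : a e = (W.updateRow e0 (Pi.single e 1)).det := by
      simp only [ha]
      rw [Matrix.adjugate_apply]
    rw [h1]
    have h2 := Matrix.det_le (A := W.updateRow e0 (Pi.single e 1)) (abv := AbsoluteValue.abs)
      (x := Y ^ (m + n)) (by intro i j; simpa using hent i j)
    have h3 : Fintype.card (E m n) = (m + 1) * (n + 1) := by simp [E]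
    rw [h3] at h2
    rw [pow_mul]
    simpa using h2
  exact hle.trans hdet

end Pool.Agent.Work.MP_f2148a_nt.M56.LD
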