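import Mathlib
import Pool.Agent.Work.MP_f2148a_nt.M56.LD.Ev

set_option autoImplicit false

/-!
# LD/Pad (size M-L): divisibility of determinants of values at points in one nonsingular class modulo `p`

`det_poly`: if `F k` are integral polynomials in one variable and `p ∣ x j` for all `j`, then `p ^ (D (D - 1) / 2) ∣ det (F k (x j))`: expand by multilinearity in the columns
(`F k = ∑ c X ^ r`): the determinant is an integral combination of `det (x j ^ r k)`, which is `0` if two of the `r k` agree, and otherwise divisible by `p ^ (∑ r k)`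
(`p ^ (r k)` divides the column `k`), and `∑ r k ≥ 0 + 1 + ... + (D - 1)` for different `r k`.

`pad`. Let `N = D (D - 1) / 2` and `N ≥ 1`. Put `P₀ = (s₀, t₀; u₀, v₀)` = the point `i₀`. Choose integers `s', t'` with `p` not dividing `s₀ t' - t₀ s'` (one of `(1, 0)`, `(0, 1)`), the same for
`u', v'`. Modulo `q = p ^ N` the determinant is invertible, so for every `i` there are integers with `(s i, t i) ≡ α (s₀, t₀) + β (s', t')`, `(u i, v i) ≡ α' (u₀, v₀) + β' (u', v')` mod `q`;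
by `h1`, `h2` `p ∣ β`, `p ∣ β'`, and `α, α'` are prime to `p` (`h3`, `h4`). Let `x i ≡ β / α`, `y i ≡ β' / α'` mod `q` (integers divisible by `p`). For a form `f` let
`f' (x, y) = ev a b f (s₀ + x s') (t₀ + x t') (u₀ + y u') (v₀ + y v')`, a polynomial in `ℤ[X][X]` (`ev_map`); then `ev a b f (P i) ≡ α ^ a α' ^ b f' (x i, y i)` mod `q` (`ev_hom`).
So it is enough to show that `q` divides `det (f'_k (x i, y i))` modulo `q` (take out the row factors). For `g`: `g' (x i, y i) ≡ 0` mod `q`, and `hns` with the linearity of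
`dir` in the direction, `dir` in the direction `(s₀, t₀; 0, 0)` is `m g (P₀) = 0`, in the direction `(0, 0; u₀, v₀)` is `n g (P₀) = 0` (Euler; differentiate `ev_hom`), shows that one of the partial
derivatives `g'_x (0, 0)`, `g'_y (0, 0)` is prime to `p`. Say `g'_y (0, 0)`; `c g'_y (0, 0) ≡ 1` mod `p`. HENSEL: `φ_0 = 0`, `φ_(k+1) = φ_k - c g' (x, φ_k) ∈ ℤ[X]`; claim `y i ≡ φ_k (x i)` mod `p ^ (k + 1)` for `k < N`, all `i`:
`g' (x i, φ_k) = g' (x i, φ_k) - g' (x i, y i) ≡ (φ_k (x i) - y i) * e` mod `q` with `e ≡ g'_y (x i, y i) ≡ g'_y (0, 0)` mod `p`, so `φ_(k+1) (x i) - y i ≡ (φ_k (x i) - y i) (1 - c e)`.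
Then `f' (x i, y i) ≡ F (x i)` mod `q` with `F (x) = f' (x, φ_(N-1) (x)) ∈ ℤ[X]`, and `det_poly` applies. If only `g'_x (0, 0)` is prime to `p`, exchange the roles of `x` and `y`.
-/

namespace Pool.Agent.Work.MP_f2148a_nt.M56.LD

open Polynomial

private theorem sum_lb {n : ℕ} (s : Finset ℕ) (h : s.card = n) : ∑ i ∈ Finset.range n, i ≤ ∑ x ∈ s, x := by
  classical
  induction n generalizing s with
  | zero => simp
  | succ n ih =>
    have hne : s.Nonempty := by
      rw [← Finset.card_pos]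
      omega
    have hm := Finset.max'_mem s hne
    have hc : (s.erase (s.max' hne)).card = n := by
      rw [Finset.card_erase_of_mem hm]
      omega
    have h1 := ih _ hc
    have h2 : s ⊆ Finset.range (s.max' hne + 1) := fun x hx => by
      rw [Finset.mem_range]
      have := Finset.le_max' s x hx
      omega
    have h3 := Finset.card_le_card h2
    rw [Finset.card_range] at h3
    have h4 := Finset.add_sum_erase s (fun x => x) hm
    rw [Finset.sum_range_succ]
    omega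

private theorem det_gen {R : Type*} [CommRing R] (π : R) (D : ℕ) (F : Fin D → R[X]) (x : Fin D → R)
    (hx : ∀ j, π ∣ x j) : π ^ (D * (D - 1) / 2) ∣ Matrix.det (Matrix.of fun j k => (F k).eval (x j)) := by
  classical
  obtain ⟨M, hM⟩ : ∃ M, ∀ k, (F k).natDegree < M := by
    refine ⟨(Finset.univ.sup fun k => (F k).natDegree) + 1, fun k => ?_⟩
    have := Finset.le_sup (f := fun k => (F k).natDegree) (Finset.mem_univ k)
    omega
  rw [← Matrix.det_transpose]
  have e1 : (Matrix.of fun j k => (F k).eval (x j)).transpose =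
      fun k => ∑ r ∈ Finset.range M, (F k).coeff r • (fun j => x j ^ r) := by
    ext k j
    rw [Matrix.transpose_apply, Matrix.of_apply, Finset.sum_apply,
      eval_eq_sum_range' (hM k)]
    rfl
  rw [e1]
  have e2 := (Matrix.detRowAlternating (R := R) (n := Fin D)).toMultilinearMap.map_sum_finset
    (fun k r => (F k).coeff r • (fun j => x j ^ r)) (fun _ => Finset.range M)
  have e3 : Matrix.det (fun k => ∑ r ∈ Finset.range M, (F k).coeff r • (fun j => x j ^ r)) =
      ∑ r ∈ Fintype.piFinset fun _ : Fin D => Finset.range M,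
        Matrix.det (fun k => (F k).coeff (r k) • (fun j => x j ^ (r k))) := e2
  rw [e3]
  refine Finset.dvd_sum fun r _ => ?_
  choose y hy using hx
  have e4 : Matrix.det (fun k => (F k).coeff (r k) • (fun j => x j ^ (r k))) =
      (∏ k, (F k).coeff (r k)) * ((∏ k, π ^ r k) * Matrix.det (Matrix.of fun k j => y j ^ r k)) := by
    rw [← Matrix.det_mul_column, ← Matrix.det_mul_column]
    congr 1
    ext k j
    simp only [Matrix.of_apply, Pi.smul_apply, smul_eq_mul]
    rw [hy j, mul_pow]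
  rw [e4]
  refine Dvd.dvd.mul_left ?_ _
  by_cases hinj : Function.Injective r
  · refine Dvd.dvd.mul_right ?_ _
    rw [Finset.prod_pow_eq_pow_sum]
    refine pow_dvd_pow _ ?_
    have h1 := sum_lb (n := D) (Finset.univ.image r) (by
      rw [Finset.card_image_of_injective _ hinj, Finset.card_univ, Fintype.card_fin])
    rw [Finset.sum_image (fun a _ b _ h => hinj h), Finset.sum_range_id] at h1
    exact h1
  · have h0 : Matrix.det (Matrix.of fun k j => y j ^ r k) = 0 := by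
      unfold Function.Injective at hinj
      push Not at hinj
      obtain ⟨a, b, hab, hne⟩ := hinj
      refine Matrix.det_zero_of_row_eq hne ?_
      ext j
      simp only [Matrix.of_apply]
      rw [hab]
    rw [h0, mul_zero]
    exact dvd_zero _

private theorem hens1 {R : Type*} [CommRing R] (π : R) (H : R[X]) (y y' : R) (hy : π ∣ y)
    (hy' : π ∣ y') : ∃ e, H.eval y - H.eval y' = (y - y') * e ∧ π ∣ e - H.coeff 1 := by
  have hd : ∀ z, H.eval z = H.divX.eval z * z + H.coeff 0 := by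
    intro z
    conv_lhs => rw [← divX_mul_X_add H]
    simp
  obtain ⟨q, hq⟩ := H.divX.sub_dvd_eval_sub y y'
  obtain ⟨q0, hq0⟩ := H.divX.sub_dvd_eval_sub y 0
  have h0 : H.divX.eval 0 = H.coeff 1 := by
    rw [← coeff_zero_eq_eval_zero, coeff_divX]
  refine ⟨H.divX.eval y + y' * q, ?_, ?_⟩
  · rw [hd y, hd y']
    linear_combination y' * hq
  · have : H.divX.eval y + y' * q - H.coeff 1 = y * q0 + y' * q := by
      rw [← h0]
      linear_combination hq0
    rw [this]
    exact dvd_add (hy.mul_right _) (hy'.mul_right _)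

private theorem evm {R : Type*} [CommRing R] (G : R[X][X]) (φ : R[X]) (x : R) :
    (G.eval φ).eval x = (G.map (evalRingHom x)).eval (φ.eval x) := by
  have h := hom_eval₂ G (RingHom.id R[X]) (evalRingHom x) φ
  rw [eval_map]
  rw [RingHom.comp_id] at h
  exact h

private theorem core {R : Type*} [CommRing R] (π : R) (N D : ℕ) (hN : 1 ≤ N) (hπ : π ^ N = 0)
    (hU : ∀ r : R, IsUnit r ∨ π ∣ r) (G : R[X][X]) (f : Fin D → R[X][X]) (x y : Fin D → R)
    (hx : ∀ j, π ∣ x j) (hy : ∀ j, π ∣ y j) (hG : ∀ j, (G.map (evalRingHom (x j))).eval (y j) = 0)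
    (hu : ¬ π ∣ (G.coeff 1).coeff 0) : π ^ (D * (D - 1) / 2) ∣
      Matrix.det (Matrix.of fun j k => ((f k).map (evalRingHom (x j))).eval (y j)) := by
  obtain ⟨c, hc⟩ : ∃ c, (G.coeff 1).coeff 0 * c = 1 :=
    ((hU _).resolve_right hu).exists_right_inv
  have key : ∀ k : ℕ, ∃ φ : R[X], ∀ j, π ^ (k + 1) ∣ φ.eval (x j) - y j := by
    intro k
    induction k with
    | zero =>
      refine ⟨0, fun j => ?_⟩
      rw [eval_zero, zero_sub, zero_add, pow_one]
      exact (hy j).neg_right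
    | succ k ih =>
      obtain ⟨φ, hφ⟩ := ih
      refine ⟨φ - C c * G.eval φ, fun j => ?_⟩
      have h1 : π ∣ φ.eval (x j) := by
        have h := (dvd_pow_self π (Nat.succ_ne_zero k)).trans (hφ j)
        have := dvd_add h (hy j)
        rwa [sub_add_cancel] at this
      obtain ⟨e, he, he'⟩ := hens1 π (G.map (evalRingHom (x j))) (φ.eval (x j)) (y j) h1 (hy j)
      rw [hG j, sub_zero] at he
      have h2 : (G.map (evalRingHom (x j))).coeff 1 = (G.coeff 1).eval (x j) := by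
        rw [coeff_map]
        rfl
      have h3 : π ∣ (G.coeff 1).eval (x j) - (G.coeff 1).coeff 0 := by
        have h := (G.coeff 1).sub_dvd_eval_sub (x j) 0
        rw [sub_zero, ← coeff_zero_eq_eval_zero] at h
        exact (hx j).trans h
      have h4 : π ∣ 1 - c * e := by
        have h5 : (1 : R) - c * e = - c * ((e - (G.map (evalRingHom (x j))).coeff 1) +
            ((G.coeff 1).eval (x j) - (G.coeff 1).coeff 0)) := by
          rw [h2]
          linear_combination - hc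
        rw [h5]
        exact (dvd_add he' h3).mul_left _
      have h6 : (φ - C c * G.eval φ).eval (x j) - y j = (φ.eval (x j) - y j) * (1 - c * e) := by
        rw [eval_sub, eval_mul, eval_C, evm]
        linear_combination - c * he
      rw [h6, pow_succ]
      exact mul_dvd_mul (hφ j) h4
  obtain ⟨φ, hφ⟩ := key (N - 1)
  have hφ' : ∀ j, φ.eval (x j) = y j := by
    intro j
    have h := hφ j
    rw [Nat.sub_add_cancel hN, hπ] at h
    exact sub_eq_zero.mp (zero_dvd_iff.mp h)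
  have h := det_gen π D (fun k => (f k).eval φ) x hx
  have e : (Matrix.of fun j k => ((f k).eval φ).eval (x j)) =
      Matrix.of fun j k => ((f k).map (evalRingHom (x j))).eval (y j) := by
    ext j k
    rw [Matrix.of_apply, Matrix.of_apply, evm, hφ']
  rw [e] at h
  exact h

/-- evaluation with casts -/
private noncomputable def ew {S : Type*} [CommRing S] (a b : ℕ) (f : ℤ[X][X]) (s t u v : S) : S :=
  ∑ e : E a b, ((cf f e : ℤ) : S) * mon a b s t u v e

private theorem ev_eq {S : Type*} [CommRing S] [Algebra ℤ S] (a b : ℕ) (f : ℤ[X][X]) (s t u v : S) :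
    ev a b f s t u v = ew a b f s t u v := by
  unfold ev ew
  refine Finset.sum_congr rfl fun e _ => ?_
  rw [eq_intCast]

private theorem ew_map {S S' : Type*} [CommRing S] [CommRing S'] (φ : S →+* S') (a b : ℕ)
    (f : ℤ[X][X]) (s t u v : S) :
    ew a b f (φ s) (φ t) (φ u) (φ v) = φ (ew a b f s t u v) := by
  unfold ew
  rw [map_sum]
  refine Finset.sum_congr rfl fun e _ => ?_
  rw [map_mul, map_intCast, mon_map]

private theorem ew_hom {S : Type*} [CommRing S] (a b : ℕ) (f : ℤ[X][X]) (s t u v κ θ : S) :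
    ew a b f (κ * s) (κ * t) (θ * u) (θ * v) = κ ^ a * θ ^ b * ew a b f s t u v := by
  unfold ew
  rw [Finset.mul_sum]
  refine Finset.sum_congr rfl fun e _ => ?_
  rw [mon_hom]
  ring

/-- partial derivatives -/
private noncomputable def gs {R : Type*} [CommRing R] (a b : ℕ) (f : ℤ[X][X]) (s t u v : R) : R :=
  ∑ e : E a b, ((cf f e : ℤ) : R) * (((e.1 : ℕ) : R) * s ^ ((e.1 : ℕ) - 1) * t ^ (a - e.1) *
    (u ^ (e.2 : ℕ) * v ^ (b - e.2)))

private noncomputable def gt {R : Type*} [CommRing R] (a b : ℕ) (f : ℤ[X][X]) (s t u v : R) : R :=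
  ∑ e : E a b, ((cf f e : ℤ) : R) * (s ^ (e.1 : ℕ) * (((a - e.1 : ℕ) : R) * t ^ (a - e.1 - 1)) *
    (u ^ (e.2 : ℕ) * v ^ (b - e.2)))

private noncomputable def gu {R : Type*} [CommRing R] (a b : ℕ) (f : ℤ[X][X]) (s t u v : R) : R :=
  ∑ e : E a b, ((cf f e : ℤ) : R) * (s ^ (e.1 : ℕ) * t ^ (a - e.1) *
    (((e.2 : ℕ) : R) * u ^ ((e.2 : ℕ) - 1) * v ^ (b - e.2)))

private noncomputable def gv {R : Type*} [CommRing R] (a b : ℕ) (f : ℤ[X][X]) (s t u v : R) : R :=
  ∑ e : E a b, ((cf f e : ℤ) : R) * (s ^ (e.1 : ℕ) * t ^ (a - e.1) *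
    (u ^ (e.2 : ℕ) * (((b - e.2 : ℕ) : R) * v ^ (b - e.2 - 1))))

private theorem ew_c1 {R : Type*} [CommRing R] (a b : ℕ) (f : ℤ[X][X]) (s t u v a₁ a₂ a₃ a₄ : R) :
    (ew a b f (C s + C a₁ * X : R[X]) (C t + C a₂ * X) (C u + C a₃ * X) (C v + C a₄ * X)).coeff 1 =
      a₁ * gs a b f s t u v + a₂ * gt a b f s t u v + a₃ * gu a b f s t u v +
        a₄ * gv a b f s t u v := by
  have hc : ∀ q : R[X], q.coeff 1 = (derivative q).eval 0 := by
    intro q
    rw [← coeff_zero_eq_eval_zero, coeff_derivative]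
    simp
  rw [hc]
  unfold ew gs gt gu gv mon
  rw [derivative_sum, eval_finsetSum, Finset.mul_sum, Finset.mul_sum, Finset.mul_sum,
    Finset.mul_sum, ← Finset.sum_add_distrib, ← Finset.sum_add_distrib, ← Finset.sum_add_distrib]
  refine Finset.sum_congr rfl fun e _ => ?_
  simp only [derivative_mul, derivative_pow, derivative_add, derivative_C, derivative_X,
    derivative_intCast, eval_add, eval_mul, eval_pow, eval_C, eval_X, eval_natCast, eval_intCast,
    eval_zero, eval_one]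
  simp only [mul_zero, add_zero, zero_mul, zero_add, mul_one, map_natCast, eval_natCast]
  ring

private theorem euler_s {R : Type*} [CommRing R] (a b : ℕ) (f : ℤ[X][X]) (s t u v : R) :
    s * gs a b f s t u v + t * gt a b f s t u v = a * ew a b f s t u v := by
  unfold ew gs gt mon
  rw [Finset.mul_sum, Finset.mul_sum, Finset.mul_sum, ← Finset.sum_add_distrib]
  refine Finset.sum_congr rfl fun e _ => ?_
  have h1 : ∀ (z : R) (k : ℕ), z * ((k : R) * z ^ (k - 1)) = k * z ^ k := by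
    intro z k
    rcases k with _ | k
    · simp
    · rw [Nat.add_sub_cancel, pow_succ]
      ring
  have h2 := h1 s (e.1 : ℕ)
  have h3 := h1 t (a - e.1)
  have h4 : (a : R) = ((e.1 : ℕ) : R) + ((a - e.1 : ℕ) : R) := by
    rw [← Nat.cast_add]
    congr 1
    have := e.1.2
    omega
  rw [h4]
  linear_combination ((cf f e : ℤ) : R) * (u ^ (e.2 : ℕ) * v ^ (b - e.2)) * t ^ (a - e.1) * h2 +
    ((cf f e : ℤ) : R) * (u ^ (e.2 : ℕ) * v ^ (b - e.2)) * s ^ (e.1 : ℕ) * h3

private theorem euler_u {R : Type*} [CommRing R] (a b : ℕ) (f : ℤ[X][X]) (s t u v : R) :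
    u * gu a b f s t u v + v * gv a b f s t u v = b * ew a b f s t u v := by
  unfold ew gu gv mon
  rw [Finset.mul_sum, Finset.mul_sum, Finset.mul_sum, ← Finset.sum_add_distrib]
  refine Finset.sum_congr rfl fun e _ => ?_
  have h1 : ∀ (z : R) (k : ℕ), z * ((k : R) * z ^ (k - 1)) = k * z ^ k := by
    intro z k
    rcases k with _ | k
    · simp
    · rw [Nat.add_sub_cancel, pow_succ]
      ring
  have h2 := h1 u (e.2 : ℕ)
  have h3 := h1 v (b - e.2)
  have h4 : (b : R) = ((e.2 : ℕ) : R) + ((b - e.2 : ℕ) : R) := by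
    rw [← Nat.cast_add]
    congr 1
    have := e.2.2
    omega
  rw [h4]
  linear_combination ((cf f e : ℤ) : R) * (s ^ (e.1 : ℕ) * t ^ (a - e.1)) * v ^ (b - e.2) * h2 +
    ((cf f e : ℤ) : R) * (s ^ (e.1 : ℕ) * t ^ (a - e.1)) * u ^ (e.2 : ℕ) * h3

private theorem frame {R : Type*} [CommRing R] (π : R) (hU : ∀ r : R, IsUnit r ∨ π ∣ r) (s₀ t₀ : R)
    (h0 : ¬ (π ∣ s₀ ∧ π ∣ t₀)) : ∃ s' t' c : R, (s₀ * t' - t₀ * s') * c = 1 := by
  rcases hU s₀ with h | h
  · obtain ⟨c, hc⟩ := h.exists_right_inv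
    exact ⟨0, 1, c, by rw [mul_zero, mul_one, sub_zero, hc]⟩
  · rcases hU t₀ with h' | h'
    · obtain ⟨c, hc⟩ := h'.exists_right_inv
      exact ⟨1, 0, - c, by linear_combination hc⟩
    · exact absurd ⟨h, h'⟩ h0

private theorem frame2 {R : Type*} [CommRing R] (π : R) (hU : ∀ r : R, IsUnit r ∨ π ∣ r)
    (s₀ t₀ s' t' c : R) (hc : (s₀ * t' - t₀ * s') * c = 1) (s t : R) (h0 : ¬ (π ∣ s ∧ π ∣ t))
    (h : π ∣ s * t₀ - s₀ * t) :
    ∃ α x : R, IsUnit α ∧ π ∣ x ∧ s = α * (s₀ + s' * x) ∧ t = α * (t₀ + t' * x) := by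
  have hα : IsUnit ((s * t' - t * s') * c) := by
    rcases hU ((s * t' - t * s') * c) with h1 | h1
    · exact h1
    · exfalso
      refine h0 ⟨?_, ?_⟩
      · have e : s = ((s * t' - t * s') * c) * s₀ - c * s' * (s * t₀ - s₀ * t) := by
          linear_combination - s * hc
        rw [e]
        exact dvd_sub (h1.mul_right _) (h.mul_left _)
      · have e : t = ((s * t' - t * s') * c) * t₀ - c * t' * (s * t₀ - s₀ * t) := by
          linear_combination - t * hc
        rw [e]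
        exact dvd_sub (h1.mul_right _) (h.mul_left _)
  obtain ⟨d, hd⟩ := hα.exists_right_inv
  refine ⟨(s * t' - t * s') * c, - (s * t₀ - s₀ * t) * c * d, hα, ?_, ?_, ?_⟩
  · exact (h.neg_right.mul_right c).mul_right d
  · linear_combination - s * hc + (s * t₀ - s₀ * t) * c * s' * hd
  · linear_combination - t * hc + (s * t₀ - s₀ * t) * c * t' * hd

private theorem main {R : Type*} [CommRing R] (π : R) (N D : ℕ) (hN : 1 ≤ N) (hπ : π ^ N = 0)
    (hU : ∀ r : R, IsUnit r ∨ π ∣ r) (m n : ℕ) (g : ℤ[X][X]) (a b : ℕ) (w : Fin D → ℤ[X][X])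
    (s₀ t₀ u₀ v₀ : R) (s t u v : Fin D → R)
    (hz : ∀ i, ew m n g (s i) (t i) (u i) (v i) = 0) (hz0 : ew m n g s₀ t₀ u₀ v₀ = 0)
    (h1 : ∀ i, π ∣ s i * t₀ - s₀ * t i) (h2 : ∀ i, π ∣ u i * v₀ - u₀ * v i)
    (h3 : ∀ i, ¬ (π ∣ s i ∧ π ∣ t i)) (h4 : ∀ i, ¬ (π ∣ u i ∧ π ∣ v i))
    (h30 : ¬ (π ∣ s₀ ∧ π ∣ t₀)) (h40 : ¬ (π ∣ u₀ ∧ π ∣ v₀)) (a₁ a₂ a₃ a₄ : R)
    (hns : ¬ π ∣ (ew m n g (C s₀ + C a₁ * X : R[X]) (C t₀ + C a₂ * X) (C u₀ + C a₃ * X)
      (C v₀ + C a₄ * X)).coeff 1) :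
    π ^ (D * (D - 1) / 2) ∣ Matrix.det (Matrix.of fun j k => ew a b (w k) (s j) (t j) (u j) (v j)) := by
  classical
  obtain ⟨s', t', c, hc⟩ := frame π hU s₀ t₀ h30
  obtain ⟨u', v', c', hc'⟩ := frame π hU u₀ v₀ h40
  choose α x hα hx hs ht using fun i => frame2 π hU s₀ t₀ s' t' c hc (s i) (t i) (h3 i) (h1 i)
  choose β y hβ hy hu hv using fun i => frame2 π hU u₀ v₀ u' v' c' hc' (u i) (v i) (h4 i) (h2 i)
  have hval : ∀ (p q : ℕ) (f : ℤ[X][X]) (i : Fin D), ew p q f (s i) (t i) (u i) (v i) =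
      α i ^ p * β i ^ q * ew p q f (s₀ + s' * x i) (t₀ + t' * x i) (u₀ + u' * y i)
        (v₀ + v' * y i) := by
    intro p q f i
    conv_lhs => rw [hs i, ht i, hu i, hv i]
    exact ew_hom _ _ _ _ _ _ _ _ _
  have hzx : ∀ i, ew m n g (s₀ + s' * x i) (t₀ + t' * x i) (u₀ + u' * y i) (v₀ + v' * y i) = 0 := by
    intro i
    have h := hz i
    rw [hval] at h
    exact (((hα i).pow m).mul ((hβ i).pow n)).mul_right_eq_zero.mp h
  have hdet : Matrix.det (Matrix.of fun j k => ew a b (w k) (s j) (t j) (u j) (v j)) =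
      (∏ j, α j ^ a * β j ^ b) * Matrix.det (Matrix.of fun j k => ew a b (w k) (s₀ + s' * x j)
        (t₀ + t' * x j) (u₀ + u' * y j) (v₀ + v' * y j)) := by
    rw [← Matrix.det_mul_column]
    congr 1
    ext j k
    simp only [Matrix.of_apply]
    exact hval a b (w k) j
  rw [hdet]
  refine Dvd.dvd.mul_left ?_ _
  rw [ew_c1] at hns
  have E1 := euler_s m n g s₀ t₀ u₀ v₀
  have E2 := euler_u m n g s₀ t₀ u₀ v₀
  rw [hz0, mul_zero] at E1 E2
  by_cases hcase : π ∣ u' * gu m n g s₀ t₀ u₀ v₀ + v' * gv m n g s₀ t₀ u₀ v₀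
  · have hcase2 : ¬ π ∣ s' * gs m n g s₀ t₀ u₀ v₀ + t' * gt m n g s₀ t₀ u₀ v₀ := by
      intro h
      have i1 : gs m n g s₀ t₀ u₀ v₀ = - c * t₀ * (s' * gs m n g s₀ t₀ u₀ v₀ +
          t' * gt m n g s₀ t₀ u₀ v₀) := by
        linear_combination - gs m n g s₀ t₀ u₀ v₀ * hc + c * t' * E1
      have i2 : gt m n g s₀ t₀ u₀ v₀ = c * s₀ * (s' * gs m n g s₀ t₀ u₀ v₀ +
          t' * gt m n g s₀ t₀ u₀ v₀) := by
        linear_combination - gt m n g s₀ t₀ u₀ v₀ * hc - c * s' * E1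
      have i3 : gu m n g s₀ t₀ u₀ v₀ = - c' * v₀ * (u' * gu m n g s₀ t₀ u₀ v₀ +
          v' * gv m n g s₀ t₀ u₀ v₀) := by
        linear_combination - gu m n g s₀ t₀ u₀ v₀ * hc' + c' * v' * E2
      have i4 : gv m n g s₀ t₀ u₀ v₀ = c' * u₀ * (u' * gu m n g s₀ t₀ u₀ v₀ +
          v' * gv m n g s₀ t₀ u₀ v₀) := by
        linear_combination - gv m n g s₀ t₀ u₀ v₀ * hc' - c' * u' * E2
      refine hns ?_
      have j1 : π ∣ gs m n g s₀ t₀ u₀ v₀ := by
        rw [i1]
        exact h.mul_left _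
      have j2 : π ∣ gt m n g s₀ t₀ u₀ v₀ := by
        rw [i2]
        exact h.mul_left _
      have j3 : π ∣ gu m n g s₀ t₀ u₀ v₀ := by
        rw [i3]
        exact hcase.mul_left _
      have j4 : π ∣ gv m n g s₀ t₀ u₀ v₀ := by
        rw [i4]
        exact hcase.mul_left _
      exact dvd_add (dvd_add (dvd_add (j1.mul_left _) (j2.mul_left _)) (j3.mul_left _))
        (j4.mul_left _)
    have hmap : ∀ (p q : ℕ) (f : ℤ[X][X]) (j : Fin D), ((ew p q f (C (C s₀) + C (C s') * X : R[X][X])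
        (C (C t₀) + C (C t') * X) (C (C u₀ + C u' * X)) (C (C v₀ + C v' * X))).map
          (evalRingHom (y j))).eval (x j) =
        ew p q f (s₀ + s' * x j) (t₀ + t' * x j) (u₀ + u' * y j) (v₀ + v' * y j) := by
      intro p q f j
      have h := ew_map ((evalRingHom (x j)).comp (mapRingHom (evalRingHom (y j)))) p q f
        (C (C s₀) + C (C s') * X : R[X][X]) (C (C t₀) + C (C t') * X) (C (C u₀ + C u' * X))
        (C (C v₀ + C v' * X))
      simp only [RingHom.comp_apply, coe_mapRingHom, coe_evalRingHom] at h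
      rw [← h]
      simp
    have hco : ((ew m n g (C (C s₀) + C (C s') * X : R[X][X])
        (C (C t₀) + C (C t') * X) (C (C u₀ + C u' * X)) (C (C v₀ + C v' * X))).coeff 1).coeff 0 =
        s' * gs m n g s₀ t₀ u₀ v₀ + t' * gt m n g s₀ t₀ u₀ v₀ := by
      have h := ew_map (mapRingHom (evalRingHom (0 : R))) m n g
        (C (C s₀) + C (C s') * X : R[X][X]) (C (C t₀) + C (C t') * X) (C (C u₀ + C u' * X))
        (C (C v₀ + C v' * X))
      have h' := ew_c1 m n g s₀ t₀ u₀ v₀ s' t' 0 0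
      simp only [coe_mapRingHom, coe_evalRingHom] at h
      rw [coeff_zero_eq_eval_zero]
      have e : ((ew m n g (C (C s₀) + C (C s') * X : R[X][X])
        (C (C t₀) + C (C t') * X) (C (C u₀ + C u' * X)) (C (C v₀ + C v' * X))).coeff 1).eval 0 =
        ((ew m n g (C (C s₀) + C (C s') * X : R[X][X])
        (C (C t₀) + C (C t') * X) (C (C u₀ + C u' * X)) (C (C v₀ + C v' * X))).map
          (evalRingHom 0)).coeff 1 := by
        rw [coeff_map]
        rfl
      rw [e, ← h]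
      simp only [Polynomial.map_add, Polynomial.map_mul, Polynomial.map_C, Polynomial.map_X,
        coe_evalRingHom, eval_C, eval_add, eval_mul, eval_X, mul_zero, add_zero]
      simp only [C_0, zero_mul, add_zero] at h'
      exact h'
    have hfin := core π N D hN hπ hU _ (fun k => ew a b (w k) (C (C s₀) + C (C s') * X : R[X][X])
        (C (C t₀) + C (C t') * X) (C (C u₀ + C u' * X)) (C (C v₀ + C v' * X))) y x hy hx
        (fun j => (hmap m n g j).trans (hzx j)) (by rw [hco]; exact hcase2)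
    simp only [hmap] at hfin
    exact hfin
  · have hmap : ∀ (p q : ℕ) (f : ℤ[X][X]) (j : Fin D), ((ew p q f (C (C s₀ + C s' * X) : R[X][X])
        (C (C t₀ + C t' * X)) (C (C u₀) + C (C u') * X) (C (C v₀) + C (C v') * X)).map
          (evalRingHom (x j))).eval (y j) =
        ew p q f (s₀ + s' * x j) (t₀ + t' * x j) (u₀ + u' * y j) (v₀ + v' * y j) := by
      intro p q f j
      have h := ew_map ((evalRingHom (y j)).comp (mapRingHom (evalRingHom (x j)))) p q f
        (C (C s₀ + C s' * X) : R[X][X]) (C (C t₀ + C t' * X)) (C (C u₀) + C (C u') * X)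
        (C (C v₀) + C (C v') * X)
      simp only [RingHom.comp_apply, coe_mapRingHom, coe_evalRingHom] at h
      rw [← h]
      simp
    have hco : ((ew m n g (C (C s₀ + C s' * X) : R[X][X])
        (C (C t₀ + C t' * X)) (C (C u₀) + C (C u') * X) (C (C v₀) + C (C v') * X)).coeff 1).coeff 0 =
        u' * gu m n g s₀ t₀ u₀ v₀ + v' * gv m n g s₀ t₀ u₀ v₀ := by
      have h := ew_map (mapRingHom (evalRingHom (0 : R))) m n g
        (C (C s₀ + C s' * X) : R[X][X]) (C (C t₀ + C t' * X)) (C (C u₀) + C (C u') * X)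
        (C (C v₀) + C (C v') * X)
      have h' := ew_c1 m n g s₀ t₀ u₀ v₀ 0 0 u' v'
      simp only [coe_mapRingHom, coe_evalRingHom] at h
      rw [coeff_zero_eq_eval_zero]
      have e : ((ew m n g (C (C s₀ + C s' * X) : R[X][X])
        (C (C t₀ + C t' * X)) (C (C u₀) + C (C u') * X) (C (C v₀) + C (C v') * X)).coeff 1).eval 0 =
        ((ew m n g (C (C s₀ + C s' * X) : R[X][X])
        (C (C t₀ + C t' * X)) (C (C u₀) + C (C u') * X) (C (C v₀) + C (C v') * X)).map
          (evalRingHom 0)).coeff 1 := by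
        rw [coeff_map]
        rfl
      rw [e, ← h]
      simp only [Polynomial.map_add, Polynomial.map_mul, Polynomial.map_C, Polynomial.map_X,
        coe_evalRingHom, eval_C, eval_add, eval_mul, eval_X, mul_zero, add_zero]
      simp only [C_0, zero_mul, add_zero, zero_add] at h'
      exact h'
    have hfin := core π N D hN hπ hU _ (fun k => ew a b (w k) (C (C s₀ + C s' * X) : R[X][X])
        (C (C t₀ + C t' * X)) (C (C u₀) + C (C u') * X) (C (C v₀) + C (C v') * X)) x y hx hy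
        (fun j => (hmap m n g j).trans (hzx j)) (by rw [hco]; exact hcase)
    simp only [hmap] at hfin
    exact hfin

private theorem zmod_unit (p N : ℕ) (hp : p.Prime) (r : ZMod (p ^ N)) :
    IsUnit r ∨ (p : ZMod (p ^ N)) ∣ r := by
  haveI : NeZero (p ^ N) := ⟨(pow_pos hp.pos N).ne'⟩
  by_cases h : p ∣ r.val
  · right
    obtain ⟨k, hk⟩ := h
    refine ⟨(k : ZMod (p ^ N)), ?_⟩
    rw [← Nat.cast_mul, ← hk, ZMod.natCast_zmod_val]
  · left
    have hc : Nat.Coprime r.val (p ^ N) := ((Nat.Prime.coprime_iff_not_dvd hp).mpr h).symm.pow_right N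
    have := (ZMod.unitOfCoprime r.val hc).isUnit
    rwa [ZMod.coe_unitOfCoprime, ZMod.natCast_zmod_val] at this

private theorem zmod_dvd (p N : ℕ) (hp : p.Prime) (hN : 1 ≤ N) (z : ℤ)
    (h : (p : ZMod (p ^ N)) ∣ (z : ZMod (p ^ N))) : (p : ℤ) ∣ z := by
  haveI : NeZero (p ^ N) := ⟨(pow_pos hp.pos N).ne'⟩
  obtain ⟨r, hr⟩ := h
  have e : ((z - p * (r.val : ℤ) : ℤ) : ZMod (p ^ N)) = 0 := by
    push_cast
    rw [ZMod.natCast_zmod_val, hr, sub_self]
  rw [ZMod.intCast_zmod_eq_zero_iff_dvd] at e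
  have h1 : (p : ℤ) ∣ z - p * (r.val : ℤ) := by
    refine dvd_trans ?_ e
    push_cast
    exact dvd_pow_self _ (by omega)
  have h2 := dvd_add h1 (Dvd.intro (r.val : ℤ) rfl : (p : ℤ) ∣ p * (r.val : ℤ))
  rwa [sub_add_cancel] at h2

theorem det_poly (p : ℕ) (D : ℕ) (F : Fin D → ℤ[X]) (x : Fin D → ℤ) (hx : ∀ j, (p : ℤ) ∣ x j) :
    ((p ^ (D * (D - 1) / 2) : ℕ) : ℤ) ∣ Matrix.det (Matrix.of fun j k => (F k).eval (x j)) := by
  have h := det_gen (p : ℤ) D F x hx
  push_cast
  exact h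

theorem pad {ι : Type*} (P : Pts ι) (p : ℕ) (hp : p.Prime) (m n : ℕ) (g : ℤ[X][X])
    (hz : ∀ i, ev m n g (P.s i) (P.t i) (P.u i) (P.v i) = 0) (i₀ : ι)
    (h1 : ∀ i, (p : ℤ) ∣ P.s i * P.t i₀ - P.s i₀ * P.t i)
    (h2 : ∀ i, (p : ℤ) ∣ P.u i * P.v i₀ - P.u i₀ * P.v i)
    (h3 : ∀ i, ¬ ((p : ℤ) ∣ P.s i ∧ (p : ℤ) ∣ P.t i))
    (h4 : ∀ i, ¬ ((p : ℤ) ∣ P.u i ∧ (p : ℤ) ∣ P.v i)) (a₁ a₂ a₃ a₄ : ℤ)
    (hns : ¬ (p : ℤ) ∣ dir m n g (P.s i₀) (P.t i₀) (P.u i₀) (P.v i₀) a₁ a₂ a₃ a₄) : P.Dv p := by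
  classical
  intro D a b w φ
  rcases Nat.eq_zero_or_pos (D * (D - 1) / 2) with h0 | hN
  · rw [h0, pow_zero]
    exact one_dvd _
  set N := D * (D - 1) / 2 with hNdef
  haveI : NeZero (p ^ N) := ⟨(pow_pos hp.pos N).ne'⟩
  have hπ : ((p : ZMod (p ^ N))) ^ N = 0 := by
    rw [← Nat.cast_pow, ZMod.natCast_self]
  have key := main (p : ZMod (p ^ N)) N D hN hπ (zmod_unit p N hp) m n g a b w
    (P.s i₀ : ZMod (p ^ N)) (P.t i₀) (P.u i₀) (P.v i₀) (fun j => (P.s (φ j) : ZMod (p ^ N)))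
    (fun j => P.t (φ j)) (fun j => P.u (φ j)) (fun j => P.v (φ j))
    (fun j => by
      have h := hz (φ j)
      rw [ev_eq] at h
      have h' := ew_map (Int.castRingHom (ZMod (p ^ N))) m n g (P.s (φ j)) (P.t (φ j)) (P.u (φ j))
        (P.v (φ j))
      rw [h, map_zero] at h'
      exact h')
    (by
      have h := hz i₀
      rw [ev_eq] at h
      have h' := ew_map (Int.castRingHom (ZMod (p ^ N))) m n g (P.s i₀) (P.t i₀) (P.u i₀)
        (P.v i₀)
      rw [h, map_zero] at h'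
      exact h')
    (fun j => by
      obtain ⟨k, hk⟩ := h1 (φ j)
      exact ⟨(k : ZMod (p ^ N)), by exact_mod_cast congrArg (Int.cast : ℤ → ZMod (p ^ N)) hk⟩)
    (fun j => by
      obtain ⟨k, hk⟩ := h2 (φ j)
      exact ⟨(k : ZMod (p ^ N)), by exact_mod_cast congrArg (Int.cast : ℤ → ZMod (p ^ N)) hk⟩)
    (fun j hh => h3 (φ j) ⟨zmod_dvd p N hp hN _ hh.1, zmod_dvd p N hp hN _ hh.2⟩)
    (fun j hh => h4 (φ j) ⟨zmod_dvd p N hp hN _ hh.1, zmod_dvd p N hp hN _ hh.2⟩)
    (fun hh => h3 i₀ ⟨zmod_dvd p N hp hN _ hh.1, zmod_dvd p N hp hN _ hh.2⟩)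
    (fun hh => h4 i₀ ⟨zmod_dvd p N hp hN _ hh.1, zmod_dvd p N hp hN _ hh.2⟩)
    (a₁ : ZMod (p ^ N)) a₂ a₃ a₄
    (fun hh => by
      refine hns (zmod_dvd p N hp hN _ ?_)
      unfold dir
      rw [ev_eq]
      have h' := ew_map (mapRingHom (Int.castRingHom (ZMod (p ^ N)))) m n g
        (C (P.s i₀) + C a₁ * X : ℤ[X]) (C (P.t i₀) + C a₂ * X) (C (P.u i₀) + C a₃ * X)
        (C (P.v i₀) + C a₄ * X)
      simp only [coe_mapRingHom, Polynomial.map_add, Polynomial.map_mul, Polynomial.map_C,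
        Polynomial.map_X, Int.coe_castRingHom] at h'
      have h'' := congrArg (fun q : (ZMod (p ^ N))[X] => q.coeff 1) h'
      simp only [coeff_map, Int.coe_castRingHom] at h''
      rw [← h'']
      exact hh)
  rw [hπ, zero_dvd_iff] at key
  have hcast : ((Matrix.det (Matrix.of fun j k =>
      ev a b (w k) (P.s (φ j)) (P.t (φ j)) (P.u (φ j)) (P.v (φ j))) : ℤ) : ZMod (p ^ N)) = 0 := by
    have h := (Int.castRingHom (ZMod (p ^ N))).map_det (Matrix.of fun j k =>
      ev a b (w k) (P.s (φ j)) (P.t (φ j)) (P.u (φ j)) (P.v (φ j)))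
    rw [eq_intCast] at h
    rw [h]
    refine Eq.trans ?_ key
    congr 1
    ext j k
    rw [RingHom.mapMatrix_apply, Matrix.map_apply, Matrix.of_apply, Matrix.of_apply, ev_eq]
    exact (ew_map (Int.castRingHom (ZMod (p ^ N))) a b (w k) (P.s (φ j)) (P.t (φ j)) (P.u (φ j))
      (P.v (φ j))).symm
  rwa [ZMod.intCast_zmod_eq_zero_iff_dvd] at hcast

end Pool.Agent.Work.MP_f2148a_nt.M56.LD
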